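import Pool.Agent.K3h76.SD.Sorted

set_option autoImplicit false

/-!
Codes in dimensions 3, 4 and 5.
-/

namespace Pool.Agent.K3h76.SD

open scoped RealInnerProductSpace
open Finset Module

/-! ### Dimension 3 -/

/-- a point -/
noncomputable def pt (a b c : ℝ) : EuclideanSpace ℝ (Fin 3) := WithLp.toLp 2 ![a, b, c]

lemma pt_inner (a b c : ℝ) (n : EuclideanSpace ℝ (Fin 3)) :
    ⟪pt a b c, n⟫ = a * n 0 + b * n 1 + c * n 2 := by
  rw [PiLp.inner_apply, Fin.sum_univ_three]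
  simp [pt]
  ring

lemma pt_norm (a b c : ℝ) : ‖pt a b c‖ = √(a ^ 2 + b ^ 2 + c ^ 2) := by
  rw [EuclideanSpace.norm_eq, Fin.sum_univ_three]
  simp [pt]

lemma quad_plane {x y τ : ℝ} (hx0 : 0 ≤ x) (hy0 : 0 ≤ y) (hx : x ≤ τ)
    (h : 4 * x + 7 * y ≤ 8.07 * τ) : x ^ 2 + y ^ 2 ≤ 1.5 * τ ^ 2 := by
  have hτ : 0 ≤ τ := hx0.trans hx
  have h1 : 7 * y ≤ 8.07 * τ - 4 * x := by linarith
  have h2 : (7 * y) ^ 2 ≤ (8.07 * τ - 4 * x) ^ 2 := pow_le_pow_left₀ (by linarith) h1 2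
  nlinarith [mul_nonneg hx0 (sub_nonneg.2 hx), mul_nonneg hτ (sub_nonneg.2 hx)]

theorem code3 : Code (EuclideanSpace ℝ (Fin 3)) (2 ^ 3) 3 := by
  classical
  refine code_of (s := insert (pt 1 0 0) (insert (pt (-1) 0 0) {pt 4 7 0, pt 4 (-7) 0, pt (-4) 7 0,
    pt (-4) (-7) 0, pt 0 0 1, pt 0 0 (-1)})) ?_ 10 25 (by norm_num) ?_
  · have h6 : ({pt 4 7 0, pt 4 (-7) 0, pt (-4) 7 0, pt (-4) (-7) 0, pt 0 0 1, pt 0 0 (-1)} :
      Finset (EuclideanSpace ℝ (Fin 3))).card ≤ 6 := card_le_six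
    have h7 := card_insert_le (pt (-1) 0 0) ({pt 4 7 0, pt 4 (-7) 0, pt (-4) 7 0, pt (-4) (-7) 0,
      pt 0 0 1, pt 0 0 (-1)} : Finset (EuclideanSpace ℝ (Fin 3)))
    refine (card_insert_le _ _).trans ?_
    omega
  · intro n τ hτ h
    have h0 := h (pt 1 0 0) (by simp)
    have h1 := h (pt (-1) 0 0) (by simp)
    have h2 := h (pt 4 7 0) (by simp)
    have h3 := h (pt 4 (-7) 0) (by simp)
    have h4 := h (pt (-4) 7 0) (by simp)
    have h5 := h (pt (-4) (-7) 0) (by simp)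
    have h6 := h (pt 0 0 1) (by simp)
    have h7 := h (pt 0 0 (-1)) (by simp)
    rw [pt_inner, pt_norm] at h0 h1 h2 h3 h4 h5 h6 h7
    norm_num at h0 h1 h2 h3 h4 h5 h6 h7
    have h65 : √65 ≤ 8.07 := by
      rw [Real.sqrt_le_left (by norm_num)]
      norm_num
    have h65' : √65 * τ ≤ 8.07 * τ := mul_le_mul_of_nonneg_right h65 hτ
    have hx : |n 0| ≤ τ := abs_le.2 ⟨by linarith, by linarith⟩
    have hz : |n 2| ≤ τ := abs_le.2 ⟨by linarith, by linarith⟩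
    have hxy : 4 * |n 0| + 7 * |n 1| ≤ 8.07 * τ := by
      rcases abs_cases (n 0) with ⟨e0, _⟩ | ⟨e0, _⟩ <;> rcases abs_cases (n 1) with ⟨e1, _⟩ | ⟨e1, _⟩ <;>
        rw [e0, e1] <;> linarith
    have h8 := quad_plane (abs_nonneg (n 0)) (abs_nonneg (n 1)) hx hxy
    have h9 : |n 2| ^ 2 ≤ τ ^ 2 := pow_le_pow_left₀ (abs_nonneg _) hz 2
    rw [EuclideanSpace.real_norm_sq_eq, Fin.sum_univ_three]
    rw [sq_abs, sq_abs] at h8
    rw [sq_abs] at h9
    push_cast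
    linarith

/-! ### Dimension 4 -/

/-- supports -/
def A4 : Finset (Finset (Fin 4)) := {{0}, {1}, {2}, {3}, {0, 1}, {2, 3}}

lemma quad_pair {x y τ : ℝ} (hx0 : 0 ≤ x) (hy0 : 0 ≤ y) (hx : x ≤ τ) (hy : y ≤ τ)
    (h : x + y ≤ 1.42 * τ) : x ^ 2 + y ^ 2 ≤ 1.2 * τ ^ 2 := by
  have hτ : 0 ≤ τ := hx0.trans hx
  rcases le_total (x + y) τ with h1 | h1
  · have : (x + y) ^ 2 ≤ τ ^ 2 := pow_le_pow_left₀ (by linarith) h1 2
    nlinarith [mul_nonneg hx0 hy0]
  · have h2 : (x + y - τ) ^ 2 ≤ (0.42 * τ) ^ 2 := pow_le_pow_left₀ (by linarith) (by linarith) 2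
    nlinarith [mul_nonneg (sub_nonneg.2 hx) (sub_nonneg.2 hy)]

theorem code4 : Code (EuclideanSpace ℝ (Fin 4)) (2 ^ 4) 4 := by
  refine code_of (s := orb A4 ∅) ?_ 10 24 (by norm_num) ?_
  · refine (orb_card _ _ (by simp)).trans ?_
    decide +kernel
  · intro n τ hτ h
    have h0 := orb_full h (S := {0}) (by decide)
    have h1 := orb_full h (S := {1}) (by decide)
    have h2 := orb_full h (S := {2}) (by decide)
    have h3 := orb_full h (S := {3}) (by decide)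
    have h4 := orb_full h (S := {0, 1}) (by decide)
    have h5 := orb_full h (S := {2, 3}) (by decide)
    rw [sum_pair (by decide), card_pair (by decide)] at h4 h5
    rw [sum_singleton, card_singleton] at h0 h1 h2 h3
    have h2' : √((2 : ℕ) : ℝ) ≤ 1.42 := by
      rw [Real.sqrt_le_left (by norm_num)]
      norm_num
    have h2'' : √((2 : ℕ) : ℝ) * τ ≤ 1.42 * τ := mul_le_mul_of_nonneg_right h2' hτ
    norm_num at h0 h1 h2 h3
    have h8 := quad_pair (abs_nonneg (n 0)) (abs_nonneg (n 1)) h0 h1 (h4.trans h2'')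
    have h9 := quad_pair (abs_nonneg (n 2)) (abs_nonneg (n 3)) h2 h3 (h5.trans h2'')
    rw [sq_abs, sq_abs] at h8 h9
    rw [EuclideanSpace.real_norm_sq_eq, Fin.sum_univ_four]
    push_cast
    linarith

/-! ### Dimension 5 -/

/-- the all-one vector -/
noncomputable def one6 : EuclideanSpace ℝ (Fin 6) := WithLp.toLp 2 (fun _ => 1)

/-- the hyperplane of the vectors with sum zero -/
noncomputable abbrev H6 : Submodule ℝ (EuclideanSpace ℝ (Fin 6)) := (ℝ ∙ one6)ᗮ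

lemma mem_H6 {x : EuclideanSpace ℝ (Fin 6)} : x ∈ H6 ↔ ∑ i, x i = 0 := by
  rw [Submodule.mem_orthogonal_singleton_iff_inner_right, PiLp.inner_apply]
  have : ∀ i, ⟪one6 i, x i⟫ = x i := by intro i; simp [one6]
  rw [sum_congr rfl fun i _ => this i]

lemma finrank_H6 : finrank ℝ H6 = 5 := by
  have : Fact (finrank ℝ (EuclideanSpace ℝ (Fin 6)) = 5 + 1) := ⟨by simp⟩
  refine Submodule.finrank_orthogonal_span_singleton ?_
  intro h
  have : one6 0 = 0 := by rw [h]; rfl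
  simp [one6] at this

/-- the vector of a subset -/
noncomputable def om (T : Finset (Fin 6)) : H6 :=
  ⟨WithLp.toLp 2 (fun i => (if i ∈ T then 6 else 0) - (T.card : ℝ)), by
    rw [mem_H6]
    simp [sum_sub_distrib]
    ring⟩

lemma om_inner (T : Finset (Fin 6)) (n : H6) :
    ⟪om T, n⟫ = 6 * ∑ i ∈ T, (n : EuclideanSpace ℝ (Fin 6)) i := by
  rw [Submodule.coe_inner, PiLp.inner_apply]
  have h1 : ∀ i, ⟪(om T : EuclideanSpace ℝ (Fin 6)) i, (n : EuclideanSpace ℝ (Fin 6)) i⟫ =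
      6 * (if i ∈ T then (n : EuclideanSpace ℝ (Fin 6)) i else 0) -
        T.card * (n : EuclideanSpace ℝ (Fin 6)) i := by
    intro i
    simp only [om]
    split_ifs <;> simp <;> ring
  rw [sum_congr rfl fun i _ => h1 i, sum_sub_distrib, ← mul_sum, ← mul_sum, mem_H6.1 n.2,
    sum_ite_mem, univ_inter]
  ring

lemma om_norm (T : Finset (Fin 6)) : ‖om T‖ = √(6 * T.card * (6 - T.card)) := by
  rw [Submodule.coe_norm, EuclideanSpace.norm_eq]
  congr 1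
  have h1 : ∀ i, ‖(om T : EuclideanSpace ℝ (Fin 6)) i‖ ^ 2 =
      (36 - 12 * (T.card : ℝ)) * (if i ∈ T then 1 else 0) + (T.card : ℝ) ^ 2 := by
    intro i
    simp only [om]
    rw [Real.norm_eq_abs, sq_abs]
    split_ifs <;> ring
  rw [sum_congr rfl fun i _ => h1 i, sum_add_distrib, ← mul_sum, sum_ite_mem, univ_inter,
    sum_const, sum_const, card_univ, Fintype.card_fin]
  simp only [nsmul_eq_mul, mul_one]
  push_cast
  ring

lemma quad5 {b0 b1 b2 b3 b4 b5 τ : ℝ} (h01 : b1 ≤ b0) (h12 : b2 ≤ b1) (h23 : b3 ≤ b2)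
    (h34 : b4 ≤ b3) (h45 : b5 ≤ b4) (hs : b0 + b1 + b2 + b3 + b4 + b5 = 0) (hτ : 0 ≤ τ)
    (hA : 6 * b0 ≤ 5.5 * τ) (hB : -(6 * b5) ≤ 5.5 * τ) (hC : 6 * (b0 + b1 + b2) ≤ 7.4 * τ) :
    12000 * (b0 ^ 2 + b1 ^ 2 + b2 ^ 2 + b3 ^ 2 + b4 ^ 2 + b5 ^ 2) ≤ 25234 * τ ^ 2 := by
  obtain ⟨x1, hx1⟩ : ∃ x, x = b0 - b1 := ⟨_, rfl⟩
  obtain ⟨x2, hx2⟩ : ∃ x, x = b1 - b2 := ⟨_, rfl⟩
  obtain ⟨x3, hx3⟩ : ∃ x, x = b2 - b3 := ⟨_, rfl⟩
  obtain ⟨x4, hx4⟩ : ∃ x, x = b3 - b4 := ⟨_, rfl⟩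
  obtain ⟨x5, hx5⟩ : ∃ x, x = b4 - b5 := ⟨_, rfl⟩
  have e0 : 6 * b0 = 5 * x1 + 4 * x2 + 3 * x3 + 2 * x4 + x5 := by linarith
  have p1 : 0 ≤ x1 := by linarith
  have p2 : 0 ≤ x2 := by linarith
  have p3 : 0 ≤ x3 := by linarith
  have p4 : 0 ≤ x4 := by linarith
  have p5 : 0 ≤ x5 := by linarith
  have s1 : 0 ≤ 55 * τ - 10 * (5 * x1 + 4 * x2 + 3 * x3 + 2 * x4 + x5) := by linarith
  have s2 : 0 ≤ 55 * τ - 10 * (x1 + 2 * x2 + 3 * x3 + 4 * x4 + 5 * x5) := by linarith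
  have s3 : 0 ≤ 74 * τ - 10 * (3 * x1 + 6 * x2 + 9 * x3 + 6 * x4 + 3 * x5) := by linarith
  have E1 : b1 = b0 - x1 := by linarith
  have E2 : b2 = b0 - x1 - x2 := by linarith
  have E3 : b3 = b0 - x1 - x2 - x3 := by linarith
  have E4 : b4 = b0 - x1 - x2 - x3 - x4 := by linarith
  have E5 : b5 = b0 - x1 - x2 - x3 - x4 - x5 := by linarith
  have E0 : b0 = (5 * x1 + 4 * x2 + 3 * x3 + 2 * x4 + x5) / 6 := by linarith
  rw [E1, E2, E3, E4, E5, E0]
  have q13 := mul_nonneg s1 s3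
  have q23 := mul_nonneg s2 s3
  have q1a := mul_nonneg s1 p1
  have q1b := mul_nonneg s1 p2
  have q1e := mul_nonneg s1 p5
  have q2a := mul_nonneg s2 p1
  have q2d := mul_nonneg s2 p4
  have q2e := mul_nonneg s2 p5
  have q3b := mul_nonneg s3 p2
  have q3c := mul_nonneg s3 p3
  have q3d := mul_nonneg s3 p4
  have q30 := mul_nonneg s3 hτ
  have t1 := mul_nonneg hτ p1
  have t2 := mul_nonneg hτ p2
  have t3 := mul_nonneg hτ p3
  have t4 := mul_nonneg hτ p4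
  have t5 := mul_nonneg hτ p5
  have w11 := mul_nonneg p1 p1
  have w12 := mul_nonneg p1 p2
  have w13 := mul_nonneg p1 p3
  have w14 := mul_nonneg p1 p4
  have w15 := mul_nonneg p1 p5
  have w22 := mul_nonneg p2 p2
  have w23 := mul_nonneg p2 p3
  have w24 := mul_nonneg p2 p4
  have w25 := mul_nonneg p2 p5
  have w33 := mul_nonneg p3 p3
  have w34 := mul_nonneg p3 p4
  have w35 := mul_nonneg p3 p5
  have w44 := mul_nonneg p4 p4
  have w45 := mul_nonneg p4 p5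
  have w55 := mul_nonneg p5 p5
  linarith

lemma sqrt_le' {x y τ : ℝ} (hy : 0 ≤ y) (h : x ≤ y ^ 2) (hτ : 0 ≤ τ) : √x * τ ≤ y * τ :=
  mul_le_mul_of_nonneg_right (by rw [Real.sqrt_le_left hy]; exact h) hτ

theorem code5' : ∀ (n : H6) (τ : ℝ), 0 ≤ τ →
    (∀ u ∈ (univ.powerset.filter fun T : Finset (Fin 6) => Odd T.card).image om,
      ⟪u, n⟫ ≤ ‖u‖ * τ) → 12000 * ‖n‖ ^ 2 ≤ 25234 * τ ^ 2 := by
  intro n τ hτ h
  have hf : ∀ T : Finset (Fin 6), Odd T.card →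
      6 * ∑ i ∈ T, (n : EuclideanSpace ℝ (Fin 6)) i ≤ √(6 * T.card * (6 - T.card)) * τ := by
    intro T hT
    have := h (om T) (mem_image_of_mem _ (by simp [hT]))
    rwa [om_inner, om_norm] at this
  obtain ⟨σ, hσ⟩ : ∃ σ : Equiv.Perm (Fin 6),
      Antitone (fun i => (n : EuclideanSpace ℝ (Fin 6)) (σ i)) := by
    refine ⟨Tuple.sort (fun i => -(n : EuclideanSpace ℝ (Fin 6)) i), ?_⟩
    have h := Tuple.monotone_sort (fun i => -(n : EuclideanSpace ℝ (Fin 6)) i)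
    intro i j hij
    have := h hij
    simp only [Function.comp] at this
    linarith
  set b : Fin 6 → ℝ := fun i => (n : EuclideanSpace ℝ (Fin 6)) (σ i) with hb
  have hsum : ∑ i, b i = 0 := by
    rw [hb, Equiv.sum_comp σ (fun i => (n : EuclideanSpace ℝ (Fin 6)) i)]
    exact mem_H6.1 n.2
  have hnorm : ‖n‖ ^ 2 = ∑ i, b i ^ 2 := by
    rw [Submodule.coe_norm, EuclideanSpace.real_norm_sq_eq, hb,
      Equiv.sum_comp σ (fun i => (n : EuclideanSpace ℝ (Fin 6)) i ^ 2)]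
  have hT : ∀ T : Finset (Fin 6), Odd T.card →
      6 * ∑ i ∈ T, b i ≤ √(6 * T.card * (6 - T.card)) * τ := by
    intro T hT
    have := hf (T.map σ.toEmbedding) (by rwa [card_map])
    rw [card_map, sum_map] at this
    exact this
  have c1 := hT {0} (by decide)
  have c2 := hT {0, 1, 2, 3, 4} (by decide)
  have c3 := hT {0, 1, 2} (by decide)
  have k1 : (({0} : Finset (Fin 6)).card : ℝ) = 1 := by norm_num
  have k2 : (({0, 1, 2, 3, 4} : Finset (Fin 6)).card : ℝ) = 5 := by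
    have : ({0, 1, 2, 3, 4} : Finset (Fin 6)).card = 5 := by decide
    rw [this]; norm_num
  have k3 : (({0, 1, 2} : Finset (Fin 6)).card : ℝ) = 3 := by
    have : ({0, 1, 2} : Finset (Fin 6)).card = 3 := by decide
    rw [this]; norm_num
  rw [k1] at c1
  rw [k2] at c2
  rw [k3] at c3
  have m1 := c1.trans (sqrt_le' (y := 5.5) (by norm_num) (by norm_num) hτ)
  have m2 := c2.trans (sqrt_le' (y := 5.5) (by norm_num) (by norm_num) hτ)
  have m3 := c3.trans (sqrt_le' (y := 7.4) (by norm_num) (by norm_num) hτ)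
  have v1 : ∑ i ∈ ({0} : Finset (Fin 6)), b i = b 0 := sum_singleton _ _
  have v2 : ∑ i ∈ ({0, 1, 2, 3, 4} : Finset (Fin 6)), b i = b 0 + (b 1 + (b 2 + (b 3 + b 4))) := by
    rw [sum_insert (by decide), sum_insert (by decide), sum_insert (by decide),
      sum_insert (by decide), sum_singleton]
  have v3 : ∑ i ∈ ({0, 1, 2} : Finset (Fin 6)), b i = b 0 + (b 1 + b 2) := by
    rw [sum_insert (by decide), sum_insert (by decide), sum_singleton]
  rw [v1] at m1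
  rw [v2] at m2
  rw [v3] at m3
  rw [Fin.sum_univ_six] at hsum hnorm
  rw [hnorm]
  have a1 : b 1 ≤ b 0 := hσ (by decide)
  have a2 : b 2 ≤ b 1 := hσ (by decide)
  have a3 : b 3 ≤ b 2 := hσ (by decide)
  have a4 : b 4 ≤ b 3 := hσ (by decide)
  have a5 : b 5 ≤ b 4 := hσ (by decide)
  exact quad5 a1 a2 a3 a4 a5 hsum hτ m1 (by linarith) (by linarith)

lemma Code.map {E F : Type*} [NormedAddCommGroup E] [InnerProductSpace ℝ E]
    [NormedAddCommGroup F] [InnerProductSpace ℝ F] {N d : ℕ} (h : Code E N d) (e : E ≃ₗᵢ[ℝ] F) :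
    Code F N d := by
  classical
  obtain ⟨s, hs, h⟩ := h
  refine ⟨s.image e, card_image_le.trans hs, fun n hn => ?_⟩
  obtain ⟨u, hu, h1, h2⟩ := h (e.symm n) (by
    intro h0
    apply hn
    rw [← e.apply_symm_apply n, h0, map_zero])
  have h3 : ⟪e u, n⟫ = ⟪u, e.symm n⟫ := by
    rw [← e.inner_map_map u (e.symm n), e.apply_symm_apply]
  refine ⟨e u, mem_image_of_mem _ hu, by rw [h3]; exact h1, ?_⟩
  rw [h3, e.norm_map, ← e.symm.norm_map n]
  exact h2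

/-- two spaces of the same dimension are isometric -/
lemma exists_iso {E F : Type*} [NormedAddCommGroup E] [InnerProductSpace ℝ E]
    [NormedAddCommGroup F] [InnerProductSpace ℝ F] [FiniteDimensional ℝ E]
    [FiniteDimensional ℝ F] (h : finrank ℝ E = finrank ℝ F) : Nonempty (E ≃ₗᵢ[ℝ] F) :=
  ⟨(stdOrthonormalBasis ℝ E).repr.trans
    (((stdOrthonormalBasis ℝ F).reindex (finCongr h.symm)).repr.symm)⟩

theorem code5 : Code (EuclideanSpace ℝ (Fin 5)) (2 ^ 5) 5 := by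
  obtain ⟨e⟩ := exists_iso (E := H6) (F := EuclideanSpace ℝ (Fin 5)) (by
    rw [finrank_H6, finrank_euclideanSpace_fin])
  refine Code.map ?_ e
  refine code_of (s := (univ.powerset.filter fun T : Finset (Fin 6) => Odd T.card).image om) ?_
    12000 25234 (by norm_num) ?_
  · refine card_image_le.trans ?_
    decide +kernel
  · intro n τ hτ h
    have := code5' n τ hτ h
    push_cast
    exact this

end Pool.Agent.K3h76.SD
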