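import Pool.Agent.K3h76.SD.Count

set_option autoImplicit false

/-!
The volume of the part of the ball in a cone of any half-angle, and the codes obtained by counting.
-/

namespace Pool.Agent.K3h76.SD

open scoped RealInnerProductSpace
open MeasureTheory Module Metric Set

/-- The radius of the slices of a double cone. -/
noncomputable def radG (c s t : ℝ) : ℝ := min (s / c * t) (s / (1 - c) * (1 - t))

section

variable {c s : ℝ} (hc0 : 0 < c) (hc1 : c < 1) (hs : 0 < s) (hcs : c ^ 2 + s ^ 2 = 1)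

include hc0 hc1 hs

lemma radG_nonneg {t : ℝ} (h0 : 0 ≤ t) (h1 : t ≤ 1) : 0 ≤ radG c s t := by
  have h2 : 0 < 1 - c := by linarith
  have h3 : 0 ≤ 1 - t := by linarith
  exact le_min (by positivity) (by positivity)

lemma radG_neg {t r : ℝ} (hr : 0 ≤ r) (h : r ≤ radG c s t) : 0 ≤ t ∧ t ≤ 1 := by
  have h1 := h.trans (min_le_left _ _)
  have h2 := h.trans (min_le_right _ _)
  have h3 : 0 < 1 - c := by linarith
  have h4 : 0 < s / c := by positivity
  have h5 : 0 < s / (1 - c) := by positivity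
  constructor
  · by_contra hcon
    push Not at hcon
    nlinarith
  · by_contra hcon
    push Not at hcon
    nlinarith

lemma radG_low {t : ℝ} (h : t ≤ c) : radG c s t = s / c * t := by
  refine min_eq_left ?_
  have h3 : 0 < 1 - c := by linarith
  have e1 : s / c * t = s * (t / c) := by ring
  have e2 : s / (1 - c) * (1 - t) = s * ((1 - t) / (1 - c)) := by ring
  rw [e1, e2]
  refine mul_le_mul_of_nonneg_left ?_ hs.le
  rw [div_le_div_iff₀ hc0 h3]
  nlinarith

lemma radG_high {t : ℝ} (h : c ≤ t) : radG c s t = s / (1 - c) * (1 - t) := by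
  refine min_eq_right ?_
  have h3 : 0 < 1 - c := by linarith
  have e1 : s / c * t = s * (t / c) := by ring
  have e2 : s / (1 - c) * (1 - t) = s * ((1 - t) / (1 - c)) := by ring
  rw [e1, e2]
  refine mul_le_mul_of_nonneg_left ?_ hs.le
  rw [div_le_div_iff₀ h3 hc0]
  nlinarith

include hcs

lemma radG_ball {t r : ℝ} (hr : 0 ≤ r) (h : r ≤ radG c s t) : t ^ 2 + r ^ 2 ≤ 1 := by
  obtain ⟨h0, h1⟩ := radG_neg hc0 hc1 hs hr h
  have h3 : 0 < 1 - c := by linarith
  rcases le_total t c with ht | ht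
  · rw [radG_low hc0 hc1 hs ht] at h
    have h4 : r ^ 2 ≤ (s / c * t) ^ 2 := pow_le_pow_left₀ hr h 2
    have h5 : (s / c * t) ^ 2 = s ^ 2 * (t ^ 2 / c ^ 2) := by ring
    have h6 : t ^ 2 / c ^ 2 ≤ 1 := by
      rw [div_le_one (by positivity)]
      exact pow_le_pow_left₀ h0 ht 2
    have h7 : t ^ 2 = c ^ 2 * (t ^ 2 / c ^ 2) := by field_simp
    have h8 : t ^ 2 + r ^ 2 ≤ (c ^ 2 + s ^ 2) * (t ^ 2 / c ^ 2) := by
      rw [h5] at h4
      linarith
    rw [hcs, one_mul] at h8
    linarith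
  · rw [radG_high hc0 hc1 hs ht] at h
    have h4 : r ^ 2 ≤ (s / (1 - c) * (1 - t)) ^ 2 := pow_le_pow_left₀ hr h 2
    have h5 : (s / (1 - c) * (1 - t)) ^ 2 = (1 + c) / (1 - c) * (1 - t) ^ 2 := by
      have : s ^ 2 = (1 - c) * (1 + c) := by linarith
      calc (s / (1 - c) * (1 - t)) ^ 2 = s ^ 2 / (1 - c) ^ 2 * (1 - t) ^ 2 := by
            rw [mul_pow, div_pow]
        _ = _ := by
          rw [this]
          field_simp
    have h6 : (1 + c) / (1 - c) * (1 - t) ≤ 1 + t := by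
      rw [div_mul_eq_mul_div, div_le_iff₀ h3]
      nlinarith
    have h7 := mul_le_mul_of_nonneg_right h6 (show 0 ≤ 1 - t by linarith)
    rw [h5] at h4
    nlinarith

omit hcs

omit hc0 hc1 hs in
lemma radG_cont : Continuous (radG c s) := by
  unfold radG
  fun_prop

lemma radG_int (n : ℕ) : ∫ t in (0 : ℝ)..1, radG c s t ^ n = s ^ n / (n + 1) := by
  have h3 : 0 < 1 - c := by linarith
  have hcont := radG_cont (c := c) (s := s)
  have hint : ∀ a b : ℝ, IntervalIntegrable (fun t => radG c s t ^ n) volume a b :=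
    fun a b => (hcont.pow n).intervalIntegrable a b
  rw [← intervalIntegral.integral_add_adjacent_intervals (hint 0 c) (hint c 1)]
  have e1 : ∫ t in (0 : ℝ)..c, radG c s t ^ n = s ^ n * c / (n + 1) := by
    have : ∫ t in (0 : ℝ)..c, radG c s t ^ n = ∫ t in (0 : ℝ)..c, (s / c) ^ n * t ^ n := by
      refine intervalIntegral.integral_congr fun t ht => ?_
      rw [uIcc_of_le hc0.le] at ht
      simp only [radG_low hc0 hc1 hs ht.2, mul_pow]
    rw [this, intervalIntegral.integral_const_mul, integral_pow, zero_pow (Nat.succ_ne_zero n),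
      sub_zero, pow_succ c]
    calc (s / c) ^ n * (c ^ n * c / ((n : ℝ) + 1)) = (s / c * c) ^ n * c / (n + 1) := by
          rw [mul_pow]; ring
      _ = s ^ n * c / (n + 1) := by rw [div_mul_cancel₀ _ hc0.ne']
  have e2 : ∫ t in c..1, radG c s t ^ n = s ^ n * (1 - c) / (n + 1) := by
    have : ∫ t in c..1, radG c s t ^ n = ∫ t in c..1, (s / (1 - c)) ^ n * (1 - t) ^ n := by
      refine intervalIntegral.integral_congr fun t ht => ?_
      rw [uIcc_of_le hc1.le] at ht
      simp only [radG_high hc0 hc1 hs ht.1, mul_pow]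
    rw [this, intervalIntegral.integral_const_mul,
      intervalIntegral.integral_comp_sub_left (fun t => t ^ n) 1, integral_pow, sub_self,
      zero_pow (Nat.succ_ne_zero n), sub_zero, pow_succ (1 - c)]
    calc (s / (1 - c)) ^ n * ((1 - c) ^ n * (1 - c) / ((n : ℝ) + 1))
        = (s / (1 - c) * (1 - c)) ^ n * (1 - c) / (n + 1) := by rw [mul_pow]; ring
      _ = s ^ n * (1 - c) / (n + 1) := by rw [div_mul_cancel₀ _ h3.ne']
  rw [e1, e2]
  ring

/-- the double cone -/
def dconeG (c s : ℝ) (n : ℕ) : Set (ℝ × V n) := {p | ‖p.2‖ ≤ radG c s p.1}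

omit hc0 hc1 hs in
lemma dconeG_closed (n : ℕ) : IsClosed (dconeG c s n) := by
  unfold dconeG
  exact isClosed_le (by fun_prop) (radG_cont.comp continuous_fst)

lemma dconeG_vol {n : ℕ} (hn : 1 ≤ n) :
    ENNReal.ofReal (kap n * (s ^ n / (n + 1))) ≤ volume (dconeG c s n) := by
  have : Nonempty (Fin n) := ⟨⟨0, by omega⟩⟩
  have hcont := radG_cont (c := c) (s := s)
  have h1 : volume (dconeG c s n) =
      ∫⁻ t : ℝ, ENNReal.ofReal (radG c s t) ^ n * ENNReal.ofReal (kap n) := by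
    rw [Measure.volume_eq_prod, Measure.prod_apply (dconeG_closed n).measurableSet]
    refine lintegral_congr fun t => ?_
    have : Prod.mk t ⁻¹' dconeG c s n = closedBall (0 : V n) (radG c s t) := by
      ext z
      simp [dconeG]
    rw [this, EuclideanSpace.volume_closedBall, Fintype.card_fin]
    rfl
  rw [h1]
  calc ENNReal.ofReal (kap n * (s ^ n / (n + 1)))
      = ∫⁻ t in Icc (0:ℝ) 1, ENNReal.ofReal (radG c s t ^ n * kap n) := by
        rw [← ofReal_integral_eq_lintegral_ofReal]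
        · congr 1
          rw [integral_Icc_eq_integral_Ioc, ← intervalIntegral.integral_of_le zero_le_one,
            intervalIntegral.integral_mul_const, radG_int hc0 hc1 hs, mul_comm]
        · exact ((hcont.pow n).mul continuous_const).continuousOn.integrableOn_compact isCompact_Icc
        · refine (ae_restrict_iff' measurableSet_Icc).2 (Filter.Eventually.of_forall fun t ht => ?_)
          exact mul_nonneg (pow_nonneg (radG_nonneg hc0 hc1 hs ht.1 ht.2) n) (kap_pos n).le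
    _ = ∫⁻ t in Icc (0:ℝ) 1, ENNReal.ofReal (radG c s t) ^ n * ENNReal.ofReal (kap n) := by
        refine setLIntegral_congr_fun measurableSet_Icc fun t ht => ?_
        rw [ENNReal.ofReal_mul (pow_nonneg (radG_nonneg hc0 hc1 hs ht.1 ht.2) n),
          ENNReal.ofReal_pow (radG_nonneg hc0 hc1 hs ht.1 ht.2)]
    _ ≤ ∫⁻ t : ℝ, ENNReal.ofReal (radG c s t) ^ n * ENNReal.ofReal (kap n) :=
        setLIntegral_le_lintegral _ _

end

/-- part of the ball near the direction `m` -/
def capG (c : ℝ) (n : ℕ) (m : Fs n) : Set (Fs n) := {y | ‖y‖ ≤ 1 ∧ c * ‖y‖ ≤ ⟪y, m⟫}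

lemma capG_closed (c : ℝ) (n : ℕ) (m : Fs n) : IsClosed (capG c n m) := by
  have h1 : IsClosed {y : Fs n | ‖y‖ ≤ 1} := isClosed_le (by fun_prop) (by fun_prop)
  have h2 : IsClosed {y : Fs n | c * ‖y‖ ≤ ⟪y, m⟫} := isClosed_le (by fun_prop) (by fun_prop)
  exact h1.inter h2

section

variable {c s : ℝ} (hc0 : 0 < c) (hc1 : c < 1) (hs : 0 < s) (hcs : c ^ 2 + s ^ 2 = 1) {n : ℕ}
  (hn : 1 ≤ n)

include hc0 hc1 hs hcs hn

lemma capG_e1 : ENNReal.ofReal (kap n * (s ^ n / (n + 1))) ≤ volume (capG c n (e1 n)) := by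
  refine (dconeG_vol hc0 hc1 hs hn).trans ?_
  rw [← (WithLp.volume_preserving_toLp ℝ (V n)).measure_preimage
    (capG_closed c n _).measurableSet.nullMeasurableSet]
  refine measure_mono ?_
  rintro ⟨t, z⟩ hp
  have hp : ‖z‖ ≤ radG c s t := hp
  obtain ⟨h0, h1⟩ := radG_neg hc0 hc1 hs (norm_nonneg z) hp
  have hb := radG_ball hc0 hc1 hs hcs (norm_nonneg z) hp
  have hz : ‖z‖ ≤ s / c * t := hp.trans (min_le_left _ _)
  have hnorm : ‖(WithLp.toLp 2 (t, z) : Fs n)‖ ^ 2 = t ^ 2 + ‖z‖ ^ 2 := by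
    rw [WithLp.prod_norm_sq_eq_of_L2]
    simp
  have hin : ⟪(WithLp.toLp 2 (t, z) : Fs n), e1 n⟫ = t := by
    rw [WithLp.prod_inner_apply]
    simp [e1]
  refine ⟨?_, ?_⟩
  · refine le_of_sq_le_sq ?_ zero_le_one
    rw [hnorm]
    linarith
  · rw [hin]
    refine le_of_sq_le_sq ?_ h0
    rw [mul_pow, hnorm]
    have h2 : ‖z‖ ^ 2 ≤ (s / c * t) ^ 2 := pow_le_pow_left₀ (norm_nonneg z) hz 2
    have h3 : c ^ 2 * (s / c * t) ^ 2 = s ^ 2 * t ^ 2 := by
      field_simp
    have h4 := mul_le_mul_of_nonneg_left h2 (sq_nonneg c)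
    have h5 : c ^ 2 * t ^ 2 + s ^ 2 * t ^ 2 = t ^ 2 := by rw [← add_mul, hcs, one_mul]
    linarith

lemma capG_vol {m : Fs n} (hm : ‖m‖ = 1) :
    ENNReal.ofReal (kap n * (s ^ n / (n + 1))) ≤ volume (capG c n m) := by
  refine (capG_e1 hc0 hc1 hs hcs hn).trans (le_of_eq ?_)
  set φ : Fs n ≃ₗᵢ[ℝ] Fs n := Submodule.reflection (ℝ ∙ (e1 n - m))ᗮ with hφ
  have hφe : φ (e1 n) = m := Submodule.reflection_sub (by rw [norm_e1, hm])
  have hpre : φ ⁻¹' (capG c n m) = capG c n (e1 n) := by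
    ext y
    simp only [capG, mem_preimage, mem_ofPred_eq, φ.norm_map]
    rw [← hφe, φ.inner_map_map]
  rw [← hpre]
  exact (φ.measurePreserving).measure_preimage (capG_closed c n _).measurableSet.nullMeasurableSet

/-- share of the volume of the ball in a cap -/
noncomputable def shareG (s : ℝ) (n : ℕ) : ℝ := s ^ n / (n + 1) * √(((n : ℝ) + 1) / (2 * Real.pi))

omit hc0 hc1 hcs hn in
lemma shareG_pos : 0 < shareG s n := by
  unfold shareG
  have := Real.pi_pos
  positivity

omit hc0 hc1 hcs hn in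
lemma shareG_le : shareG s n * kap (n + 1) ≤ kap n * (s ^ n / (n + 1)) := by
  have h1 : √(((n : ℝ) + 1) / (2 * Real.pi)) * kap (n + 1) ≤ kap n := by
    unfold kap
    have hx : (0 : ℝ) < ((n : ℝ) + 1) / 2 := by positivity
    have h2 := gamma_ratio hx
    have e1 : ((n : ℝ) + 1) / 2 + 1 / 2 = (n : ℝ) / 2 + 1 := by ring
    rw [e1] at h2
    have hG1 : 0 < Real.Gamma (((n : ℝ) + 1) / 2 + 1) := Real.Gamma_pos_of_pos (by positivity)
    have hG0 : 0 < Real.Gamma ((n : ℝ) / 2 + 1) := Real.Gamma_pos_of_pos (by positivity)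
    have e3 : ((n + 1 : ℕ) : ℝ) = (n : ℝ) + 1 := by push_cast; ring
    rw [e3, ← mul_div_assoc, div_le_div_iff₀ hG1 hG0, pow_succ]
    have hpi : 0 < √Real.pi := Real.sqrt_pos.2 Real.pi_pos
    have e4 : √(((n : ℝ) + 1) / (2 * Real.pi)) * √Real.pi = √(((n : ℝ) + 1) / 2) := by
      rw [← Real.sqrt_mul (by positivity)]
      congr 1
      have := Real.pi_ne_zero
      field_simp
    calc √(((n : ℝ) + 1) / (2 * Real.pi)) * (√Real.pi ^ n * √Real.pi) *
        Real.Gamma ((n : ℝ) / 2 + 1)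
        = √Real.pi ^ n * (√(((n : ℝ) + 1) / (2 * Real.pi)) * √Real.pi *
          Real.Gamma ((n : ℝ) / 2 + 1)) := by ring
      _ ≤ √Real.pi ^ n * Real.Gamma (((n : ℝ) + 1) / 2 + 1) := by
          rw [e4]
          exact mul_le_mul_of_nonneg_left h2 (by positivity)
  unfold shareG
  calc s ^ n / ((n : ℝ) + 1) * √(((n : ℝ) + 1) / (2 * Real.pi)) * kap (n + 1)
      = s ^ n / ((n : ℝ) + 1) * (√(((n : ℝ) + 1) / (2 * Real.pi)) * kap (n + 1)) := by ring
    _ ≤ s ^ n / ((n : ℝ) + 1) * kap n := mul_le_mul_of_nonneg_left h1 (by positivity)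
    _ = _ := by ring

lemma capG_share {m : Fs n} (hm : ‖m‖ = 1) :
    shareG s n * volume.real (closedBall (0 : Fs n) 1) ≤ volume.real (capG c n m) := by
  have hfin : volume (capG c n m) ≠ ⊤ := by
    refine ne_top_of_le_ne_top ?_ (measure_mono (t := closedBall (0 : Fs n) 1) fun y hy => ?_)
    · rw [ball_vol]; exact ENNReal.ofReal_ne_top
    · simpa using hy.1
  have h1 := capG_vol hc0 hc1 hs hcs hn hm
  rw [measureReal_def, measureReal_def, ball_vol, ENNReal.toReal_ofReal (kap_pos _).le]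
  have h2 := (ENNReal.ofReal_le_iff_le_toReal hfin).1 h1
  exact (shareG_le hs).trans h2

open Classical in
lemma heavyG (S : Finset (Fs n)) (hS : ∀ m ∈ S, ‖m‖ = 1) :
    ∃ y : Fs n, y ≠ 0 ∧ shareG s n * S.card ≤ ((S.filter fun m => y ∈ capG c n m).card : ℝ) := by
  have hnt : Nontrivial (Fs n) := Module.nontrivial_of_finrank_pos (R := ℝ)
    (by rw [finrank_Fs]; omega)
  set B : Set (Fs n) := closedBall (0 : Fs n) 1 with hB
  have hB0 : volume B ≠ 0 := by
    rw [hB, ball_vol]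
    simpa using kap_pos (n + 1)
  have hBt : volume B ≠ ⊤ := by
    rw [hB, ball_vol]
    exact ENNReal.ofReal_ne_top
  have hsing : volume ({0} : Set (Fs n)) = 0 := measure_singleton 0
  have hBd : volume (B \ {0}) = volume B := measure_sdiff_null hsing
  have hcapB : ∀ m : Fs n, capG c n m ⊆ B := fun m y hy => by simpa [hB] using hy.1
  set f : Fs n → ℝ := fun y => ∑ m ∈ S, (capG c n m).indicator (fun _ => (1 : ℝ)) y with hf
  have hintm : ∀ m ∈ S, IntegrableOn ((capG c n m).indicator (fun _ => (1 : ℝ))) (B \ {0})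
      volume := by
    intro m _
    refine IntegrableOn.indicator ?_ (capG_closed c n m).measurableSet
    exact integrableOn_const (by rw [hBd]; exact hBt) (by simp)
  have hint : IntegrableOn f (B \ {0}) volume := by
    rw [hf]
    exact integrable_finsetSum S hintm
  obtain ⟨y, hy, hle⟩ := exists_setAverage_le (μ := volume) (s := B \ {0}) (f := f)
    (by rw [hBd]; exact hB0) (by rw [hBd]; exact hBt) hint
  refine ⟨y, fun h => hy.2 (by simp [h]), ?_⟩
  have hfy : f y = ((S.filter fun m => y ∈ capG c n m).card : ℝ) := by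
    rw [hf, Finset.card_filter]
    push_cast
    refine Finset.sum_congr rfl fun m _ => ?_
    by_cases h : y ∈ capG c n m
    · rw [indicator_of_mem h, if_pos h]
    · rw [indicator_of_notMem h, if_neg h]
  have hBr : 0 < volume.real (B \ {0}) := by
    rw [measureReal_def, hBd]
    exact ENNReal.toReal_pos hB0 hBt
  have hBr' : volume.real (B \ {0}) = volume.real B := by
    rw [measureReal_def, hBd, measureReal_def]
  have hav : shareG s n * S.card ≤ ⨍ x in B \ {0}, f x := by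
    rw [setAverage_eq, smul_eq_mul, ← div_eq_inv_mul, le_div_iff₀ hBr]
    have h1 : ∫ x in B \ {0}, f x = ∑ m ∈ S, volume.real (capG c n m) := by
      rw [hf, integral_finsetSum S hintm]
      refine Finset.sum_congr rfl fun m _ => ?_
      rw [setIntegral_indicator (capG_closed c n m).measurableSet, setIntegral_const, smul_eq_mul,
        mul_one, measureReal_def, measureReal_def]
      congr 1
      have : (B \ {0}) ∩ capG c n m = capG c n m \ {0} := by
        ext z
        simp only [mem_inter_iff, mem_sdiff]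
        exact ⟨fun h => ⟨h.2, h.1.2⟩, fun h => ⟨⟨hcapB m h.1, h.2⟩, h.1⟩⟩
      rw [this]
      exact measure_sdiff_null hsing
    rw [h1, hBr']
    calc shareG s n * (S.card : ℝ) * volume.real B = ∑ m ∈ S, shareG s n * volume.real B := by
          rw [Finset.sum_const, nsmul_eq_mul]; ring
      _ ≤ ∑ m ∈ S, volume.real (capG c n m) :=
          Finset.sum_le_sum fun m hm => capG_share hc0 hc1 hs hcs hn (hS m hm)
  linarith

lemma shareG_le_one : shareG s n ≤ 1 := by
  classical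
  obtain ⟨y, -, hy⟩ := heavyG hc0 hc1 hs hcs hn {e1 n} (by
    intro m hm
    rw [Finset.mem_singleton.1 hm, norm_e1])
  rw [Finset.card_singleton] at hy
  have h1 : ((({e1 n} : Finset (Fs n)).filter fun m => y ∈ capG c n m).card : ℝ) ≤ 1 := by
    exact_mod_cast (Finset.card_filter_le _ _).trans (by simp)
  have h2 : shareG s n * ((1 : ℕ) : ℝ) = shareG s n := by simp
  rw [h2] at hy
  refine hy.trans ?_
  convert h1

open Classical in
lemma greedyG (S : Finset (Fs n)) (hS : ∀ m ∈ S, ‖m‖ = 1) (k : ℕ) :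
    ∃ T : Finset (Fs n), T.card ≤ k ∧ (∀ y ∈ T, y ≠ 0) ∧
      ((S.filter fun m => ∀ y ∈ T, y ∉ capG c n m).card : ℝ) ≤ (1 - shareG s n) ^ k * S.card := by
  have hp := shareG_le_one hc0 hc1 hs hcs hn
  induction k with
  | zero => exact ⟨∅, by simp, by simp, by simp⟩
  | succ k ih =>
    obtain ⟨T, hT, hT0, hTc⟩ := ih
    set U := S.filter fun m => ∀ y ∈ T, y ∉ capG c n m with hU
    obtain ⟨y, hy0, hy⟩ := heavyG hc0 hc1 hs hcs hn U (fun m hm => hS m (Finset.mem_filter.1 hm).1)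
    refine ⟨insert y T, (Finset.card_insert_le _ _).trans (by omega), ?_, ?_⟩
    · intro z hz
      rcases Finset.mem_insert.1 hz with rfl | hz
      · exact hy0
      · exact hT0 z hz
    · have h1 : (S.filter fun m => ∀ z ∈ insert y T, z ∉ capG c n m) =
          U.filter fun m => y ∉ capG c n m := by
        ext m
        simp only [hU, Finset.mem_filter, Finset.mem_insert, forall_eq_or_imp]
        tauto
      have h2 : ((U.filter fun m => y ∈ capG c n m).card : ℝ) +
          ((U.filter fun m => y ∉ capG c n m).card : ℝ) = U.card := by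
        exact_mod_cast Finset.card_filter_add_card_filter_not (s := U) (fun m => y ∈ capG c n m)
      rw [h1]
      have h3 : ((U.filter fun m => y ∉ capG c n m).card : ℝ) ≤ (1 - shareG s n) * U.card := by
        linarith
      refine h3.trans ?_
      rw [pow_succ]
      have := mul_le_mul_of_nonneg_left hTc (show 0 ≤ 1 - shareG s n by linarith)
      linarith

/-- The codes obtained by counting: there are `k` directions such that each vector makes with one
of them an angle with cosine greater than `c √(d / (d + 1))`, where `d = n + 1`, provided that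
`k` is at least `d log (1 + 4 (d + 1) / c) / share`. -/
theorem code_count {k : ℕ}
    (hk : ((n : ℝ) + 1) * Real.log (1 + 4 * ((n : ℝ) + 2) / c) < k * shareG s n) :
    ∃ T : Finset (Fs n), T.card ≤ k ∧ ∀ v : Fs n, v ≠ 0 → ∃ y ∈ T, 0 < ⟪y, v⟫ ∧
      c ^ 2 * (((n : ℝ) + 1) / (n + 2)) * (‖y‖ ^ 2 * ‖v‖ ^ 2) < ⟪y, v⟫ ^ 2 := by
  classical
  have hδ : 0 < c / (2 * ((n : ℝ) + 2)) := by positivity
  obtain ⟨S, hSc, hS1, hS⟩ := net_sphere (E := Fs n) _ hδ
  obtain ⟨T, hT, hT0, hTc⟩ := greedyG hc0 hc1 hs hcs hn S hS1 k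
  have hp1 := shareG_le_one hc0 hc1 hs hcs hn
  have hSc' : (S.card : ℝ) ≤ (1 + 4 * ((n : ℝ) + 2) / c) ^ (n + 1) := by
    rw [finrank_Fs] at hSc
    refine hSc.trans (le_of_eq ?_)
    congr 2
    field_simp
    ring
  have hempty : (S.filter fun m => ∀ y ∈ T, y ∉ capG c n m).card = 0 := by
    have h1 : ((S.filter fun m => ∀ y ∈ T, y ∉ capG c n m).card : ℝ) < 1 := by
      have h2 : (1 - shareG s n) ^ k * (S.card : ℝ) ≤
          (1 - shareG s n) ^ k * (1 + 4 * ((n : ℝ) + 2) / c) ^ (n + 1) :=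
        mul_le_mul_of_nonneg_left hSc' (pow_nonneg (by linarith) _)
      refine (hTc.trans h2).trans_lt ?_
      have h5 : (1 - shareG s n) ^ k ≤ Real.exp (-(k * shareG s n)) := by
        have h6 : 1 - shareG s n ≤ Real.exp (-shareG s n) := by
          have := Real.add_one_le_exp (-shareG s n)
          linarith
        refine (pow_le_pow_left₀ (by linarith) h6 _).trans (le_of_eq ?_)
        rw [← Real.exp_nat_mul]
        congr 1
        ring
      have h7 : (1 + 4 * ((n : ℝ) + 2) / c) ^ (n + 1) =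
          Real.exp (((n : ℝ) + 1) * Real.log (1 + 4 * ((n : ℝ) + 2) / c)) := by
        have e : ((n : ℝ) + 1) = ((n + 1 : ℕ) : ℝ) := by push_cast; ring
        rw [e, ← Real.log_pow, Real.exp_log]
        positivity
      rw [h7]
      calc (1 - shareG s n) ^ k *
          Real.exp (((n : ℝ) + 1) * Real.log (1 + 4 * ((n : ℝ) + 2) / c))
          ≤ Real.exp (-(k * shareG s n)) *
            Real.exp (((n : ℝ) + 1) * Real.log (1 + 4 * ((n : ℝ) + 2) / c)) :=
            mul_le_mul_of_nonneg_right h5 (Real.exp_pos _).le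
        _ < 1 := by
            rw [← Real.exp_add, Real.exp_lt_one_iff]
            linarith
    have h4 : (S.filter fun m => ∀ y ∈ T, y ∉ capG c n m).card < 1 := by exact_mod_cast h1
    omega
  refine ⟨T, hT, fun v hv => ?_⟩
  have hv0 : 0 < ‖v‖ := norm_pos_iff.2 hv
  obtain ⟨m, hmS, hm⟩ := hS ((‖v‖)⁻¹ • v)
    (by rw [norm_smul, norm_inv, norm_norm, inv_mul_cancel₀ hv0.ne'])
  have hmf : m ∉ S.filter fun m => ∀ y ∈ T, y ∉ capG c n m := by
    rw [Finset.card_eq_zero.1 hempty]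
    simp
  have hex : ∃ y ∈ T, y ∈ capG c n m := by
    by_contra hcon
    push Not at hcon
    exact hmf (Finset.mem_filter.2 ⟨hmS, hcon⟩)
  obtain ⟨y, hyT, hy⟩ := hex
  have hy0 : 0 < ‖y‖ := norm_pos_iff.2 (hT0 y hyT)
  have hy2 : c * ‖y‖ ≤ ⟪y, m⟫ := hy.2
  set w : Fs n := (‖v‖)⁻¹ • v with hw
  have h1 : |⟪y, w - m⟫| ≤ ‖y‖ * (c / (2 * ((n : ℝ) + 2))) :=
    (abs_real_inner_le_norm _ _).trans (mul_le_mul_of_nonneg_left hm hy0.le)
  have h2 : ⟪y, w⟫ = ⟪y, m⟫ + ⟪y, w - m⟫ := by rw [inner_sub_right]; ring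
  have h3 : c * ‖y‖ * (1 - 1 / (2 * ((n : ℝ) + 2))) ≤ ⟪y, w⟫ := by
    have h5 := (abs_le.1 h1).1
    have h8 : c * ‖y‖ * (1 - 1 / (2 * ((n : ℝ) + 2))) =
        c * ‖y‖ - ‖y‖ * (c / (2 * ((n : ℝ) + 2))) := by ring
    rw [h2, h8]
    linarith
  have hq : 0 < 1 - 1 / (2 * ((n : ℝ) + 2)) := by
    have : 1 / (2 * ((n : ℝ) + 2)) < 1 := by
      rw [div_lt_one (by positivity)]
      have : (0 : ℝ) ≤ n := Nat.cast_nonneg n
      linarith
    linarith
  have hyc : 0 < ⟪y, w⟫ := lt_of_lt_of_le (by positivity) h3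
  have hv2 : ⟪y, v⟫ = ‖v‖ * ⟪y, w⟫ := by
    rw [hw, inner_smul_right, ← mul_assoc, mul_inv_cancel₀ hv0.ne', one_mul]
  refine ⟨y, hyT, by rw [hv2]; exact mul_pos hv0 hyc, ?_⟩
  have h5 : (c * ‖y‖ * (1 - 1 / (2 * ((n : ℝ) + 2)))) ^ 2 ≤ ⟪y, w⟫ ^ 2 :=
    pow_le_pow_left₀ (by positivity) h3 2
  have h7 : ((n : ℝ) + 1) / (n + 2) < (1 - 1 / (2 * ((n : ℝ) + 2))) ^ 2 := by
    have : (1 - 1 / (2 * ((n : ℝ) + 2))) ^ 2 =
        ((n : ℝ) + 1) / (n + 2) + 1 / (4 * ((n : ℝ) + 2) ^ 2) := by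
      field_simp
      ring
    rw [this]
    have : 0 < 1 / (4 * ((n : ℝ) + 2) ^ 2) := by positivity
    linarith
  rw [hv2, mul_pow]
  have h8 : c ^ 2 * (((n : ℝ) + 1) / (n + 2)) * ‖y‖ ^ 2 < ⟪y, w⟫ ^ 2 := by
    refine lt_of_lt_of_le ?_ h5
    have h9 : 0 < c ^ 2 * ‖y‖ ^ 2 := by positivity
    have h10 := mul_lt_mul_of_pos_left h7 h9
    calc _ = c ^ 2 * ‖y‖ ^ 2 * (((n : ℝ) + 1) / (n + 2)) := by ring
      _ < _ := h10
      _ = _ := by ring
  have h9 := mul_lt_mul_of_pos_right h8 (show 0 < ‖v‖ ^ 2 by positivity)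
  linarith

end

end Pool.Agent.K3h76.SD
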