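import Pool.Agent.K3h76.SD.Codes
import Pool.Agent.K3h76.SD.CapG

set_option autoImplicit false

/-!
Bodies with narrow normal cones: covering theorems, and classes of examples.
-/

namespace Pool.Agent.K3h76.SD

open scoped RealInnerProductSpace Pointwise
open Module Metric Set Pool.Agent.W396.Il

theorem code_all (d : ℕ) (hd : 1 ≤ d) : Code (EuclideanSpace ℝ (Fin d)) (2 ^ d) d := by
  rcases le_or_gt d 18 with h | h
  · interval_cases d
    · exact code1
    · exact code2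
    · exact code3
    · exact code4
    · exact code5
    · exact code6
    · exact code7
    · exact code8
    · exact code9
    · exact code10
    · exact code11
    · exact code12
    · exact code13
    · exact code14
    · exact code15
    · exact code16
    · exact code17
    · exact code18
  · obtain ⟨n, rfl⟩ : ∃ n, d = n + 1 := ⟨d - 1, by omega⟩
    obtain ⟨e⟩ := exists_iso (E := Fs n) (F := EuclideanSpace ℝ (Fin (n + 1))) (by
      rw [finrank_Fs, finrank_euclideanSpace_fin])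
    exact (code_large (by omega : 18 ≤ n)).map e

lemma CodeR.map {E F : Type*} [NormedAddCommGroup E] [InnerProductSpace ℝ E]
    [NormedAddCommGroup F] [InnerProductSpace ℝ F] {N : ℕ} {q : ℝ} (h : CodeR E N q)
    (e : E ≃ₗᵢ[ℝ] F) : CodeR F N q := by
  classical
  obtain ⟨s, hs, h⟩ := h
  refine ⟨s.image e, Finset.card_image_le.trans hs, fun n hn => ?_⟩
  obtain ⟨u, hu, h1, h2⟩ := h (e.symm n) (by
    intro h0
    apply hn
    rw [← e.apply_symm_apply n, h0, map_zero])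
  have h3 : ⟪e u, n⟫ = ⟪u, e.symm n⟫ := by
    rw [← e.inner_map_map u (e.symm n), e.apply_symm_apply]
  refine ⟨e u, Finset.mem_image_of_mem _ hu, by rw [h3]; exact h1, ?_⟩
  rw [h3, e.norm_map, ← e.symm.norm_map n]
  exact h2

/-- The main covering theorem. -/
theorem cover_half {d : ℕ} (hd : 1 ≤ d) {K : Set (EuclideanSpace ℝ (Fin d))} (hK : Convex ℝ K)
    (hKc : IsCompact K) (hKi : (interior K).Nonempty) (hnar : Narrow (1 / 2) K) :
    Cov (2 ^ d) K :=
  cover_of_codeR (finrank_euclideanSpace_fin) hd (by norm_num) (by norm_num)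
    (code_all d hd).toR hK hKc hKi hnar

/-- Other angles. -/
theorem cover_angle {d : ℕ} (hd : 2 ≤ d) {a : ℝ} (ha0 : 0 < a) (ha1 : a < 1)
    {K : Set (EuclideanSpace ℝ (Fin d))} (hK : Convex ℝ K)
    (hKc : IsCompact K) (hKi : (interior K).Nonempty) (hnar : Narrow a K) {k : ℕ}
    (hk : d * √(2 * Real.pi * d) * Real.log (1 + 4 * ((d : ℝ) + 1) / √(1 - a)) *
      (1 / √a) ^ (d - 1) < k) :
    Cov k K := by
  obtain ⟨n, rfl⟩ : ∃ n, d = n + 1 := ⟨d - 1, by omega⟩
  rw [Nat.add_sub_cancel] at hk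
  have hn : 1 ≤ n := by omega
  have hc2 : √(1 - a) ^ 2 = 1 - a := Real.sq_sqrt (by linarith)
  have hs2 : √a ^ 2 = a := Real.sq_sqrt ha0.le
  have hc0 : 0 < √(1 - a) := Real.sqrt_pos.2 (by linarith)
  have hs0 : 0 < √a := Real.sqrt_pos.2 ha0
  have hc1 : √(1 - a) < 1 := by
    rw [Real.sqrt_lt' one_pos]
    linarith
  have hpi := Real.pi_pos
  have hkey : ((n : ℝ) + 1) * Real.log (1 + 4 * ((n : ℝ) + 2) / √(1 - a)) <
      k * shareG (√a) n := by
    have hsh := shareG_pos hs0 (n := n)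
    have e0 : (((n + 1 : ℕ) : ℝ) + 1) = (n : ℝ) + 2 := by push_cast; ring
    have e0' : ((n + 1 : ℕ) : ℝ) = (n : ℝ) + 1 := by push_cast; ring
    rw [e0, e0'] at hk
    have h1 := mul_lt_mul_of_pos_right hk hsh
    refine lt_of_eq_of_lt ?_ h1
    have h2 : √(2 * Real.pi * ((n : ℝ) + 1)) * √(((n : ℝ) + 1) / (2 * Real.pi)) =
        (n : ℝ) + 1 := by
      rw [← Real.sqrt_mul (by positivity)]
      have : 2 * Real.pi * ((n : ℝ) + 1) * (((n : ℝ) + 1) / (2 * Real.pi)) =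
          ((n : ℝ) + 1) ^ 2 := by
        field_simp
      rw [this, Real.sqrt_sq (by positivity)]
    have h3 : (1 / √a) ^ n * √a ^ n = 1 := by
      rw [← mul_pow, one_div, inv_mul_cancel₀ hs0.ne', one_pow]
    unfold shareG
    have hn1 : ((n : ℝ) + 1) ≠ 0 := by positivity
    calc ((n : ℝ) + 1) * Real.log (1 + 4 * ((n : ℝ) + 2) / √(1 - a))
        = ((n : ℝ) + 1) * Real.log (1 + 4 * ((n : ℝ) + 2) / √(1 - a)) *
          ((1 / √a) ^ n * √a ^ n) * (((n : ℝ) + 1) / ((n : ℝ) + 1)) := by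
          rw [h3, div_self hn1]; ring
      _ = ((n : ℝ) + 1) * Real.log (1 + 4 * ((n : ℝ) + 2) / √(1 - a)) *
          ((1 / √a) ^ n * √a ^ n) * ((√(2 * Real.pi * ((n : ℝ) + 1)) *
            √(((n : ℝ) + 1) / (2 * Real.pi))) / ((n : ℝ) + 1)) := by rw [h2]
      _ = _ := by ring
  obtain ⟨T, hT, hTc⟩ := code_count hc0 hc1 hs0 (by rw [hc2, hs2]; ring) hn hkey
  have hcode : CodeR (Fs n) k ((1 - a) * (((n + 1 : ℕ) : ℝ) / (((n + 1 : ℕ) : ℝ) + 1))) := by
    refine ⟨T, hT, fun v hv => ?_⟩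
    obtain ⟨y, hy, h1, h2⟩ := hTc v hv
    refine ⟨y, hy, h1, ?_⟩
    rw [hc2] at h2
    have e0 : (((n + 1 : ℕ) : ℝ) + 1) = (n : ℝ) + 2 := by push_cast; ring
    have e0' : ((n + 1 : ℕ) : ℝ) = (n : ℝ) + 1 := by push_cast; ring
    rw [e0, e0']
    exact h2
  obtain ⟨e⟩ := exists_iso (E := Fs n) (F := EuclideanSpace ℝ (Fin (n + 1))) (by
    rw [finrank_Fs, finrank_euclideanSpace_fin])
  exact cover_of_codeR (finrank_euclideanSpace_fin) (by omega) ha0.le ha1.le (hcode.map e)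
    hK hKc hKi hnar

/-- For fixed `a > 1/4` the bound is less than `2^d` in large dimensions. -/
lemma bound_asymp {a : ℝ} (ha : 1 / 4 < a) (ha1 : a < 1) : ∃ d₀ : ℕ, 2 ≤ d₀ ∧ ∀ d : ℕ, d₀ ≤ d →
    d * √(2 * Real.pi * d) * Real.log (1 + 4 * ((d : ℝ) + 1) / √(1 - a)) *
      (1 / √a) ^ (d - 1) < 2 ^ d - 1 := by
  have ha0 : 0 < a := by linarith
  have hs0 : 0 < √a := Real.sqrt_pos.2 ha0
  have hc0 : 0 < √(1 - a) := Real.sqrt_pos.2 (by linarith)
  have hpi := Real.pi_pos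
  have hs : 1 / 2 < √a := by
    rw [Real.lt_sqrt (by norm_num)]
    linarith
  set r : ℝ := 1 / (2 * √a) with hr
  have hr0 : 0 < r := by positivity
  have hr1 : r < 1 := by
    rw [hr, div_lt_one (by positivity)]
    linarith
  set C : ℝ := 32 * Real.pi / √(1 - a) * √a with hC
  have hC0 : 0 < C := by positivity
  have hlim := tendsto_pow_const_mul_const_pow_of_abs_lt_one 3 (r := r) (by
    rw [abs_of_pos hr0]; exact hr1)
  have hev : ∀ᶠ n : ℕ in Filter.atTop, (n : ℝ) ^ 3 * r ^ n < 1 / (2 * C) :=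
    hlim.eventually (gt_mem_nhds (by positivity))
  obtain ⟨N, hN⟩ := Filter.eventually_atTop.1 hev
  refine ⟨max N 2, le_max_right _ _, fun d hd => ?_⟩
  have h1 := hN d ((le_max_left _ _).trans hd)
  have hd2 : 2 ≤ d := (le_max_right _ _).trans hd
  have hdr : (2 : ℝ) ≤ d := by exact_mod_cast hd2
  -- crude bounds
  have hlog : Real.log (1 + 4 * ((d : ℝ) + 1) / √(1 - a)) ≤ 4 * ((d : ℝ) + 1) / √(1 - a) := by
    have := Real.log_le_sub_one_of_pos (x := 1 + 4 * ((d : ℝ) + 1) / √(1 - a)) (by positivity)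
    linarith
  have hlog0 : 0 ≤ Real.log (1 + 4 * ((d : ℝ) + 1) / √(1 - a)) := by
    refine Real.log_nonneg ?_
    have : 0 ≤ 4 * ((d : ℝ) + 1) / √(1 - a) := by positivity
    linarith
  have hsq : √(2 * Real.pi * d) ≤ 2 * Real.pi * d := by
    rw [Real.sqrt_le_left (by positivity)]
    have : 1 ≤ 2 * Real.pi * d := by nlinarith [Real.pi_gt_three]
    nlinarith
  have hpow : (1 / √a) ^ (d - 1) = √a * (2 ^ d * r ^ d) := by
    have e : d = (d - 1) + 1 := by omega
    have e2 : (2 : ℝ) ^ d * r ^ d = (1 / √a) ^ d := by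
      rw [← mul_pow, hr]
      congr 1
      field_simp
    rw [e2]
    nth_rewrite 2 [e]
    rw [pow_succ]
    field_simp
  have h2d : (4 : ℝ) ≤ 2 ^ d := by
    calc (4 : ℝ) = 2 ^ 2 := by norm_num
      _ ≤ 2 ^ d := pow_le_pow_right₀ (by norm_num) hd2
  have hfin : d * √(2 * Real.pi * d) * Real.log (1 + 4 * ((d : ℝ) + 1) / √(1 - a)) *
      (1 / √a) ^ (d - 1) ≤ C * ((d : ℝ) ^ 3 * r ^ d) * 2 ^ d / 2 := by
    have h3 : (d : ℝ) * √(2 * Real.pi * d) * Real.log (1 + 4 * ((d : ℝ) + 1) / √(1 - a)) ≤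
        d * (2 * Real.pi * d) * (4 * ((d : ℝ) + 1) / √(1 - a)) := by
      refine mul_le_mul (mul_le_mul_of_nonneg_left hsq (by positivity)) hlog hlog0 (by positivity)
    have h4 : (d : ℝ) * (2 * Real.pi * d) * (4 * ((d : ℝ) + 1) / √(1 - a)) ≤
        d * (2 * Real.pi * d) * (4 * (2 * d) / √(1 - a)) := by
      refine mul_le_mul_of_nonneg_left ?_ (by positivity)
      refine div_le_div_of_nonneg_right (by linarith) hc0.le
    rw [hpow]
    calc (d : ℝ) * √(2 * Real.pi * d) * Real.log (1 + 4 * ((d : ℝ) + 1) / √(1 - a)) *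
        (√a * (2 ^ d * r ^ d))
        ≤ d * (2 * Real.pi * d) * (4 * (2 * d) / √(1 - a)) * (√a * (2 ^ d * r ^ d)) :=
          mul_le_mul_of_nonneg_right (h3.trans h4) (by positivity)
      _ = C * ((d : ℝ) ^ 3 * r ^ d) * 2 ^ d / 2 := by
          rw [hC]
          ring
  have h5 : C * ((d : ℝ) ^ 3 * r ^ d) < 1 / 2 := by
    have := mul_lt_mul_of_pos_left h1 hC0
    have e : C * (1 / (2 * C)) = 1 / 2 := by field_simp
    linarith
  have h6 : C * ((d : ℝ) ^ 3 * r ^ d) * 2 ^ d / 2 < 1 / 2 * 2 ^ d / 2 := by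
    have := mul_lt_mul_of_pos_right h5 (show (0 : ℝ) < 2 ^ d by positivity)
    linarith
  linarith

section Classes

variable {E : Type*} [NormedAddCommGroup E] [InnerProductSpace ℝ E]

/-- Sums. -/
lemma narrow_add {a : ℝ} {W L : Set E} (hW : Narrow a W) : Narrow a (W + L) := by
  rintro _ ⟨x, hx, l, hl, rfl⟩ u v hu hv hux hvx
  refine hW x hx u v hu hv ?_ ?_
  · intro y hy
    have := hux (y + l) ⟨y, hy, l, hl, rfl⟩
    simp only [inner_add_right] at this
    linarith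
  · intro y hy
    have := hvx (y + l) ⟨y, hy, l, hl, rfl⟩
    simp only [inner_add_right] at this
    linarith

lemma half_of_dist {u v : E} (hu : ‖u‖ = 1) (hv : ‖v‖ = 1) (h : ‖u - v‖ ≤ 1) :
    1 / 2 ≤ ⟪u, v⟫ := by
  have h1 := norm_sub_sq_real u v
  rw [hu, hv] at h1
  have h2 : ‖u - v‖ ^ 2 ≤ 1 := by
    have := pow_le_pow_left₀ (norm_nonneg _) h 2
    simpa using this
  linarith

/-- If all inscribed normals of length `w` end in a set of diameter at most `w`, then the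
normal cones are narrow. -/
lemma narrow_of_inner {w : ℝ} (hw : 0 < w) {K Z : Set E}
    (hZ : ∀ z ∈ Z, ∀ z' ∈ Z, ‖z - z'‖ ≤ w)
    (h : ∀ x ∈ K, ∀ u : E, ‖u‖ = 1 → (∀ y ∈ K, ⟪u, y⟫ ≤ ⟪u, x⟫) → x - w • u ∈ Z) :
    Narrow (1 / 2) K := by
  intro x hx u v hu hv hux hvx
  refine half_of_dist hu hv ?_
  have h1 := hZ _ (h x hx u hu hux) _ (h x hx v hv hvx)
  have h2 : x - w • u - (x - w • v) = w • (v - u) := by
    rw [smul_sub]; abel
  rw [h2, norm_smul, Real.norm_of_nonneg hw.le, norm_sub_rev] at h1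
  by_contra hcon
  push Not at hcon
  nlinarith

/-- A compact set has constant width `w`. -/
def ConstWidth (w : ℝ) (W : Set E) : Prop :=
  ∀ u : E, ‖u‖ = 1 → sSup ((fun y => ⟪u, y⟫) '' W) - sInf ((fun y => ⟪u, y⟫) '' W) = w

lemma constWidth_narrow {w : ℝ} {W : Set E} (hWc : IsCompact W) (hWi : (interior W).Nonempty)
    (h : ConstWidth w W) : Narrow (1 / 2) W := by
  have hne : W.Nonempty := hWi.mono interior_subset
  have hcomp : ∀ u : E, IsCompact ((fun y => ⟪u, y⟫) '' W) := fun u =>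
    hWc.image (by fun_prop)
  -- distances are at most `w`
  have hdist : ∀ z ∈ W, ∀ z' ∈ W, ‖z - z'‖ ≤ w ∨ ‖z - z'‖ = 0 := by
    intro z hz z' hz'
    by_cases h0 : ‖z - z'‖ = 0
    · exact Or.inr h0
    · left
      have hpos : 0 < ‖z - z'‖ := lt_of_le_of_ne (norm_nonneg _) (Ne.symm h0)
      set u : E := (‖z - z'‖)⁻¹ • (z - z') with hu
      have hu1 : ‖u‖ = 1 := by rw [hu, norm_smul, norm_inv, norm_norm, inv_mul_cancel₀ h0]
      have h1 := h u hu1
      have h2 : ⟪u, z⟫ ≤ sSup ((fun y => ⟪u, y⟫) '' W) :=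
        le_csSup (hcomp u).bddAbove ⟨z, hz, rfl⟩
      have h3 : sInf ((fun y => ⟪u, y⟫) '' W) ≤ ⟪u, z'⟫ :=
        csInf_le (hcomp u).bddBelow ⟨z', hz', rfl⟩
      have h4 : ⟪u, z⟫ - ⟪u, z'⟫ = ‖z - z'‖ := by
        rw [← inner_sub_right, hu, inner_smul_left, real_inner_self_eq_norm_sq]
        simp only [conj_trivial]
        field_simp
      linarith
  -- the end points of the normals
  have hend : ∀ x ∈ W, ∀ u : E, ‖u‖ = 1 → (∀ y ∈ W, ⟪u, y⟫ ≤ ⟪u, x⟫) → 0 < w ∧ x - w • u ∈ W := by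
    intro x hx u hu hux
    have h1 := h u hu
    have h2 : sSup ((fun y => ⟪u, y⟫) '' W) = ⟪u, x⟫ := by
      refine le_antisymm (csSup_le (hne.image _) ?_) (le_csSup (hcomp u).bddAbove ⟨x, hx, rfl⟩)
      rintro _ ⟨y, hy, rfl⟩
      exact hux y hy
    obtain ⟨z, hz, hzi⟩ := (hcomp u).sInf_mem (hne.image _)
    simp only at hzi
    rw [h2, ← hzi, ← inner_sub_right] at h1
    -- `w` is positive since the interior is nonempty
    have hw0 : 0 < w := by
      obtain ⟨o, ho⟩ := hWi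
      obtain ⟨ε, hε, hball⟩ := Metric.isOpen_iff.1 isOpen_interior o ho
      have h5 : o + (ε / 2) • u ∈ W := by
        refine interior_subset (hball ?_)
        rw [mem_ball, dist_eq_norm, add_sub_cancel_left, norm_smul, hu, mul_one,
          Real.norm_of_nonneg (by positivity)]
        linarith
      have h6 := hux _ h5
      have h7 : ⟪u, z⟫ ≤ ⟪u, o⟫ := by
        rw [hzi]
        exact csInf_le (hcomp u).bddBelow ⟨o, interior_subset ho, rfl⟩
      rw [inner_add_right, inner_smul_right, real_inner_self_eq_norm_sq, hu] at h6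
      rw [inner_sub_right] at h1
      linarith
    refine ⟨hw0, ?_⟩
    have h8 : ‖x - z‖ ≤ w := by
      rcases hdist x hx z hz with h | h
      · exact h
      · rw [h]; exact hw0.le
    -- `x - z = w u`
    have h9 : ‖x - z - w • u‖ ^ 2 ≤ 0 := by
      rw [norm_sub_sq_real, norm_smul, hu, inner_smul_right, real_inner_comm, h1,
        Real.norm_of_nonneg hw0.le]
      nlinarith [norm_nonneg (x - z)]
    have h10 : x - z - w • u = 0 := by
      have : ‖x - z - w • u‖ = 0 := by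
        have := sq_nonneg ‖x - z - w • u‖
        nlinarith
      exact norm_eq_zero.1 this
    have h11 : x - w • u = z := by
      have : x - w • u - z = 0 := by rw [← h10]; abel
      exact sub_eq_zero.1 this
    rw [h11]
    exact hz
  intro x hx u v hu hv hux hvx
  obtain ⟨hw0, -⟩ := hend x hx u hu hux
  exact narrow_of_inner hw0 (K := W) (Z := W)
    (fun z hz z' hz' => (hdist z hz z' hz').elim id fun h => by rw [h]; exact hw0.le)
    (fun x hx u hu hux => (hend x hx u hu hux).2) x hx u v hu hv hux hvx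

lemma comb_norm (P Q : E) (t : ℝ) : ‖(1 - t) • P + t • Q‖ ^ 2 =
    (1 - t) * ‖P‖ ^ 2 + t * ‖Q‖ ^ 2 - t * (1 - t) * ‖Q - P‖ ^ 2 := by
  rw [norm_add_sq_real, norm_sub_sq_real, norm_smul, norm_smul, inner_smul_left,
    inner_smul_right, real_inner_comm P Q, mul_pow, mul_pow, Real.norm_eq_abs, Real.norm_eq_abs,
    sq_abs, sq_abs]
  simp only [conj_trivial]
  ring

lemma mid_norm (P Q : E) : ‖(1 / 2 : ℝ) • (P + Q)‖ ^ 2 =
    (‖P‖ ^ 2 + ‖Q‖ ^ 2) / 2 - ‖P - Q‖ ^ 2 / 4 := by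
  rw [norm_smul, mul_pow, norm_add_sq_real, norm_sub_sq_real]
  norm_num
  ring

/-- The intersection of the balls of radius `r` with centres in `X`. -/
def ballBody (r : ℝ) (X : Set E) : Set E := ⋂ p ∈ X, closedBall p r

lemma mem_ballBody {r : ℝ} {X : Set E} {y : E} : y ∈ ballBody r X ↔ ∀ p ∈ X, ‖y - p‖ ≤ r := by
  simp [ballBody, dist_eq_norm]

lemma ballBody_convex (r : ℝ) (X : Set E) : Convex ℝ (ballBody r X) :=
  convex_iInter₂ fun p _ => convex_closedBall p r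

lemma ballBody_compact [FiniteDimensional ℝ E] (r : ℝ) {X : Set E} (hX : X.Nonempty) :
    IsCompact (ballBody r X) := by
  obtain ⟨p, hp⟩ := hX
  have hprop : ProperSpace E := FiniteDimensional.proper ℝ E
  refine (isCompact_closedBall p r).of_isClosed_subset ?_ ?_
  · exact isClosed_biInter fun p _ => isClosed_closedBall
  · exact iInter₂_subset p hp

lemma ballBody_interior {r : ℝ} (hr : 0 < r) {X : Set E} (hX : X.Nonempty)
    (hd : ∀ p ∈ X, ∀ q ∈ X, ‖p - q‖ ≤ r) : (interior (ballBody r X)).Nonempty := by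
  obtain ⟨p, hp⟩ := hX
  by_cases h : ∃ q ∈ X, q ≠ p
  · obtain ⟨q, hq, hqp⟩ := h
    set m : E := (1 / 2 : ℝ) • (p + q) with hm
    have hpq : 0 < ‖p - q‖ := norm_pos_iff.2 (sub_ne_zero.2 (Ne.symm hqp))
    set ρ : ℝ := √(r ^ 2 - ‖p - q‖ ^ 2 / 4) with hρ
    have hle := hd p hp q hq
    have hρr : ρ < r := by
      rw [hρ, Real.sqrt_lt' hr]
      nlinarith
    have hmx : ∀ x ∈ X, ‖m - x‖ ≤ ρ := by
      intro x hx
      refine Real.le_sqrt_of_sq_le ?_
      have h1 := hd p hp x hx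
      have h2 := hd q hq x hx
      have h3 : ‖m - x‖ ^ 2 = (‖p - x‖ ^ 2 + ‖q - x‖ ^ 2) / 2 - ‖p - q‖ ^ 2 / 4 := by
        have e1 : m - x = (1 / 2 : ℝ) • ((p - x) + (q - x)) := by rw [hm]; module
        have e2 : p - q = (p - x) - (q - x) := by abel
        rw [e1, e2]
        exact mid_norm _ _
      rw [h3]
      have h4 := pow_le_pow_left₀ (norm_nonneg _) h1 2
      have h5 := pow_le_pow_left₀ (norm_nonneg _) h2 2
      linarith
    refine ⟨m, mem_interior.2 ⟨ball m (r - ρ), ?_, isOpen_ball, mem_ball_self (by linarith)⟩⟩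
    intro y hy
    rw [mem_ballBody]
    intro x hx
    rw [mem_ball, dist_eq_norm] at hy
    calc ‖y - x‖ = ‖(y - m) + (m - x)‖ := by congr 1; abel
      _ ≤ ‖y - m‖ + ‖m - x‖ := norm_add_le _ _
      _ ≤ r := by linarith [hmx x hx]
  · push Not at h
    refine ⟨p, mem_interior.2 ⟨ball p r, ?_, isOpen_ball, mem_ball_self hr⟩⟩
    intro y hy
    rw [mem_ballBody]
    intro x hx
    rw [h x hx]
    rw [mem_ball, dist_eq_norm] at hy
    exact hy.le

/-- A ball body rolls inside the ball of radius `r`. -/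
lemma ballBody_roll {r : ℝ} (hr : 0 < r) {X : Set E} {x u : E} (hx : x ∈ ballBody r X)
    (hu : ‖u‖ = 1) (hux : ∀ y ∈ ballBody r X, ⟪u, y⟫ ≤ ⟪u, x⟫) :
    ∀ y ∈ ballBody r X, ‖y - (x - r • u)‖ ≤ r := by
  intro y hy
  by_contra hcon
  push Not at hcon
  rw [mem_ballBody] at hx hy
  set e : E := y - x with he
  have h1 : y - (x - r • u) = e + r • u := by rw [he]; abel
  rw [h1] at hcon
  have h2 : r ^ 2 < ‖e + r • u‖ ^ 2 := pow_lt_pow_left₀ hcon hr.le (by norm_num)
  rw [norm_add_sq_real, inner_smul_right, norm_smul, hu, Real.norm_of_nonneg hr.le, mul_one] at h2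
  -- `‖e‖² + 2 r ⟪e, u⟫ > 0`
  have h3 : 0 < ‖e‖ ^ 2 + 2 * r * ⟪e, u⟫ := by linarith
  have he0 : 0 < ‖e‖ ^ 2 := by
    have h4 : ⟪u, y⟫ ≤ ⟪u, x⟫ := hux y (mem_ballBody.2 hy)
    have h5 : ⟪e, u⟫ ≤ 0 := by
      rw [he, inner_sub_left, real_inner_comm u y, real_inner_comm u x]
      linarith
    nlinarith
  -- choose a small `t`
  set t : ℝ := min (1 / 2) ((‖e‖ ^ 2 + 2 * r * ⟪e, u⟫) / (2 * ‖e‖ ^ 2)) with ht
  have ht0 : 0 < t := lt_min (by norm_num) (by positivity)
  have ht1 : t ≤ 1 / 2 := min_le_left _ _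
  have ht2 : t * ‖e‖ ^ 2 ≤ (‖e‖ ^ 2 + 2 * r * ⟪e, u⟫) / 2 := by
    have := min_le_right (1 / 2) ((‖e‖ ^ 2 + 2 * r * ⟪e, u⟫) / (2 * ‖e‖ ^ 2))
    rw [← ht] at this
    have h6 := mul_le_mul_of_nonneg_right this he0.le
    have hen : ‖e‖ ≠ 0 := by
      intro h
      rw [h] at he0
      norm_num at he0
    have h7 : (‖e‖ ^ 2 + 2 * r * ⟪e, u⟫) / (2 * ‖e‖ ^ 2) * ‖e‖ ^ 2 =
        (‖e‖ ^ 2 + 2 * r * ⟪e, u⟫) / 2 := by
      field_simp
    linarith
  set l : ℝ := t * (1 - t) * ‖e‖ ^ 2 / (2 * r) with hl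
  have hl0 : 0 ≤ l := by
    have : 0 ≤ 1 - t := by linarith
    positivity
  have hz : x + t • e + l • u ∈ ballBody r X := by
    rw [mem_ballBody]
    intro p hp
    have h6 := hx p hp
    have h7 := hy p hp
    have e1 : x + t • e - p = (1 - t) • (x - p) + t • (y - p) := by rw [he]; module
    have h8 : ‖x + t • e - p‖ ^ 2 ≤ r ^ 2 - t * (1 - t) * ‖e‖ ^ 2 := by
      have e2 : ‖(1 - t) • (x - p) + t • (y - p)‖ ^ 2 =
          (1 - t) * ‖x - p‖ ^ 2 + t * ‖y - p‖ ^ 2 - t * (1 - t) * ‖e‖ ^ 2 := by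
        have e3 : e = (y - p) - (x - p) := by rw [he]; abel
        rw [comb_norm, ← e3]
      rw [e1, e2]
      have h9 := pow_le_pow_left₀ (norm_nonneg _) h6 2
      have h10 := pow_le_pow_left₀ (norm_nonneg _) h7 2
      have h11 := mul_le_mul_of_nonneg_left h9 (show 0 ≤ 1 - t by linarith)
      have h12 := mul_le_mul_of_nonneg_left h10 ht0.le
      linarith
    have h13 : ‖x + t • e - p‖ ≤ r - l := by
      refine le_of_sq_le_sq (h8.trans ?_) ?_
      · have : (r - l) ^ 2 = r ^ 2 - t * (1 - t) * ‖e‖ ^ 2 + l ^ 2 := by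
          rw [sub_sq]
          have : 2 * r * l = t * (1 - t) * ‖e‖ ^ 2 := by
            rw [hl]
            field_simp
          linarith
        rw [this]
        nlinarith [sq_nonneg l]
      · have h14 : 0 ≤ r ^ 2 - t * (1 - t) * ‖e‖ ^ 2 := (sq_nonneg _).trans h8
        have h15 : l * (2 * r) ≤ r ^ 2 := by
          have : l * (2 * r) = t * (1 - t) * ‖e‖ ^ 2 := by
            rw [hl]
            field_simp
          linarith
        nlinarith
    calc ‖x + t • e + l • u - p‖ = ‖(x + t • e - p) + l • u‖ := by congr 1; abel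
      _ ≤ ‖x + t • e - p‖ + ‖l • u‖ := norm_add_le _ _
      _ ≤ r := by
        rw [norm_smul, hu, mul_one, Real.norm_of_nonneg hl0]
        linarith
  have h16 := hux _ hz
  rw [inner_add_right, inner_add_right, inner_smul_right, inner_smul_right,
    real_inner_self_eq_norm_sq, hu, real_inner_comm e u] at h16
  have h17 : 2 * r * l = t * (1 - t) * ‖e‖ ^ 2 := by
    rw [hl]
    field_simp
  have h18 : t * ⟪e, u⟫ + l ≤ 0 := by linarith
  have h19 : 2 * r * (t * ⟪e, u⟫ + l) ≤ 0 := by nlinarith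
  have h20 : 2 * r * (t * ⟪e, u⟫ + l) = t * ((2 * r * ⟪e, u⟫ + ‖e‖ ^ 2) - t * ‖e‖ ^ 2) := by
    rw [mul_add, h17]
    ring
  rw [h20] at h19
  have h21 : 0 < t * ((2 * r * ⟪e, u⟫ + ‖e‖ ^ 2) - t * ‖e‖ ^ 2) := by
    refine mul_pos ht0 ?_
    linarith
  linarith

lemma ballBody_narrow {r : ℝ} (hr : 0 < r) {X : Set E}
    (hd : ∀ p ∈ X, ∀ q ∈ X, ‖p - q‖ ≤ r) : Narrow (1 / 2) (ballBody r X) := by
  refine narrow_of_inner hr (Z := {z | ∀ y ∈ ballBody r X, ‖y - z‖ ≤ r}) ?_ ?_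
  · intro z hz z' hz'
    have h1 : X ⊆ ballBody r X := fun p hp => mem_ballBody.2 fun q hq => hd p hp q hq
    have h2 : z' ∈ ballBody r X := by
      rw [mem_ballBody]
      intro p hp
      rw [norm_sub_rev]
      exact hz' p (h1 hp)
    rw [norm_sub_rev]
    exact hz z' h2
  · intro x hx u hu hux y hy
    exact ballBody_roll hr hx hu hux y hy

end Classes

end Pool.Agent.K3h76.SD
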