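import Mathlib
import Pool.Agent.W396.Il.Basic

set_option autoImplicit false

/-!
Convex bodies whose unit outer normals at a common point pairwise make an angle of at most 60
degrees: reduction of the illumination problem to sphere codes.
-/

namespace Pool.Agent.K3h76.SD

open scoped RealInnerProductSpace
open Pool.Agent.W396.Il Module

variable {E : Type*} [NormedAddCommGroup E] [InnerProductSpace ℝ E]

/-- There are at most `N` directions such that each nonzero vector makes with one of them an angle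
whose cosine is more than the square root of `q`. -/
def CodeR (E : Type*) [NormedAddCommGroup E] [InnerProductSpace ℝ E] (N : ℕ) (q : ℝ) : Prop :=
  ∃ s : Finset E, s.card ≤ N ∧ ∀ n : E, n ≠ 0 →
    ∃ u ∈ s, 0 < ⟪u, n⟫ ∧ q * (‖u‖ ^ 2 * ‖n‖ ^ 2) < ⟪u, n⟫ ^ 2

/-- There are at most `N` directions such that each nonzero vector makes with one of them an angle
whose cosine is more than the square root of `d / (2 (d + 1))`. -/
def Code (E : Type*) [NormedAddCommGroup E] [InnerProductSpace ℝ E] (N d : ℕ) : Prop :=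
  ∃ s : Finset E, s.card ≤ N ∧ ∀ n : E, n ≠ 0 →
    ∃ u ∈ s, 0 < ⟪u, n⟫ ∧ (d : ℝ) * (‖u‖ ^ 2 * ‖n‖ ^ 2) < 2 * (d + 1) * ⟪u, n⟫ ^ 2

lemma Code.toR {N d : ℕ} (h : Code E N d) : CodeR E N ((1 - 1 / 2) * (d / (d + 1))) := by
  obtain ⟨s, hs, h⟩ := h
  refine ⟨s, hs, fun n hn => ?_⟩
  obtain ⟨u, hu, h1, h2⟩ := h n hn
  refine ⟨u, hu, h1, ?_⟩
  have h3 : (0 : ℝ) < 2 * (d + 1) := by positivity
  have h4 : (1 - 1 / 2 : ℝ) * (d / (d + 1)) * (‖u‖ ^ 2 * ‖n‖ ^ 2) =
      (d : ℝ) * (‖u‖ ^ 2 * ‖n‖ ^ 2) / (2 * (d + 1)) := by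
    field_simp
    ring
  rw [h4, div_lt_iff₀ h3]
  linarith

/-- Two unit outer normals at a common point have inner product at least `a`. -/
def Narrow (a : ℝ) (K : Set E) : Prop :=
  ∀ x ∈ K, ∀ u v : E, ‖u‖ = 1 → ‖v‖ = 1 → (∀ y ∈ K, ⟪u, y⟫ ≤ ⟪u, x⟫) →
    (∀ y ∈ K, ⟪v, y⟫ ≤ ⟪v, x⟫) → a ≤ ⟪u, v⟫

lemma hull_norm [FiniteDimensional ℝ E] {d : ℕ} (hd : finrank ℝ E = d) {a : ℝ} (ha1 : a ≤ 1)
    {N : Set E} (hu : ∀ u ∈ N, ‖u‖ = 1) (hp : ∀ u ∈ N, ∀ v ∈ N, a ≤ ⟪u, v⟫) {q : E}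
    (hq : q ∈ convexHull ℝ N) : a * d + 1 ≤ (d + 1) * ‖q‖ ^ 2 := by
  classical
  rw [convexHull_eq_union] at hq
  simp only [Set.mem_iUnion] at hq
  obtain ⟨t, ht, hti, hqt⟩ := hq
  have hcard : t.card ≤ d + 1 := by
    have := hti.card_le_finrank_succ
    rw [Fintype.card_coe] at this
    refine this.trans ?_
    have h2 := Submodule.finrank_le (vectorSpan ℝ (Set.range ((↑) : t → E)))
    omega
  rw [Finset.mem_convexHull'] at hqt
  obtain ⟨w, hw0, hw1, rfl⟩ := hqt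
  have h1 : ‖∑ y ∈ t, w y • y‖ ^ 2 = ∑ i ∈ t, ∑ j ∈ t, w i * w j * ⟪i, j⟫ := by
    rw [← real_inner_self_eq_norm_sq, sum_inner]
    refine Finset.sum_congr rfl fun i _ => ?_
    rw [inner_sum]
    refine Finset.sum_congr rfl fun j _ => ?_
    rw [inner_smul_left, inner_smul_right]
    simp only [conj_trivial]
    ring
  have h2 : ∑ i ∈ t, ∑ j ∈ t, (w i * w j * a + if i = j then w i ^ 2 * (1 - a) else 0) ≤
      ∑ i ∈ t, ∑ j ∈ t, w i * w j * ⟪i, j⟫ := by
    refine Finset.sum_le_sum fun i hi => Finset.sum_le_sum fun j hj => ?_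
    split_ifs with hij
    · subst hij
      rw [real_inner_self_eq_norm_sq, hu i (ht hi)]
      nlinarith
    · have := mul_le_mul_of_nonneg_left (hp i (ht hi) j (ht hj)) (mul_nonneg (hw0 i hi) (hw0 j hj))
      linarith
  have h3 : ∑ i ∈ t, ∑ j ∈ t, (w i * w j * a + if i = j then w i ^ 2 * (1 - a) else 0) =
      a + (∑ i ∈ t, w i ^ 2) * (1 - a) := by
    simp_rw [Finset.sum_add_distrib]
    congr 1
    · have : ∀ i ∈ t, ∑ j ∈ t, w i * w j * a = w i * a := by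
        intro i _
        rw [← Finset.sum_mul, ← Finset.mul_sum, hw1, mul_one]
      rw [Finset.sum_congr rfl this, ← Finset.sum_mul, hw1, one_mul]
    · rw [Finset.sum_mul]
      refine Finset.sum_congr rfl fun i hi => ?_
      rw [Finset.sum_ite_eq, if_pos hi]
  have h4 : 1 ≤ ((d : ℝ) + 1) * ∑ i ∈ t, w i ^ 2 := by
    have := sq_sum_le_card_mul_sum_sq (s := t) (f := w)
    rw [hw1] at this
    have h5 : (t.card : ℝ) ≤ d + 1 := by exact_mod_cast hcard
    have h6 : 0 ≤ ∑ i ∈ t, w i ^ 2 := Finset.sum_nonneg fun i _ => sq_nonneg _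
    nlinarith
  rw [h1]
  have hd0 : (0 : ℝ) ≤ d := Nat.cast_nonneg d
  have h7 : a + (∑ i ∈ t, w i ^ 2) * (1 - a) ≤ ∑ i ∈ t, ∑ j ∈ t, w i * w j * ⟪i, j⟫ := by
    rw [← h3]; exact h2
  have h8 := mul_le_mul_of_nonneg_right h4 (show 0 ≤ 1 - a by linarith)
  have h9 := mul_le_mul_of_nonneg_left h7 (show 0 ≤ (d : ℝ) + 1 by linarith)
  linarith

lemma centre [FiniteDimensional ℝ E] {d : ℕ} (hd : finrank ℝ E = d) {a : ℝ} (ha0 : 0 ≤ a)
    (ha1 : a ≤ 1) {N : Set E}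
    (hne : N.Nonempty) (hu : ∀ u ∈ N, ‖u‖ = 1) (hp : ∀ u ∈ N, ∀ v ∈ N, a ≤ ⟪u, v⟫) :
    ∃ c : E, ‖c‖ = 1 ∧ ∀ u ∈ N, 0 < ⟪c, u⟫ ∧ a * d + 1 ≤ (d + 1) * ⟪c, u⟫ ^ 2 := by
  have hC : IsClosed (closure (convexHull ℝ N)) := isClosed_closure
  have hcv : Convex ℝ (closure (convexHull ℝ N)) := (convex_convexHull ℝ N).closure
  have hCne : (closure (convexHull ℝ N)).Nonempty := (hne.convexHull).closure
  obtain ⟨p, hpC, hpm⟩ := exists_norm_eq_iInf_of_complete_convex hCne hC.isComplete hcv (0 : E)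
  have hproj := (norm_eq_iInf_iff_real_inner_le_zero hcv hpC).1 hpm
  have hnorm : ∀ q ∈ closure (convexHull ℝ N), a * d + 1 ≤ (d + 1) * ‖q‖ ^ 2 := by
    intro q hq
    have hcl : IsClosed {q : E | a * d + 1 ≤ (d + 1) * ‖q‖ ^ 2} :=
      isClosed_le continuous_const (by fun_prop)
    exact closure_minimal (fun q hq => hull_norm hd ha1 hu hp hq) hcl hq
  have hp2 := hnorm p hpC
  have hd0 : (0 : ℝ) ≤ d := Nat.cast_nonneg d
  have had : 0 ≤ a * d := mul_nonneg ha0 hd0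
  have hppos : 0 < ‖p‖ := by
    rcases (norm_nonneg p).eq_or_lt with h | h
    · rw [← h] at hp2
      nlinarith
    · exact h
  refine ⟨(‖p‖)⁻¹ • p, by rw [norm_smul, norm_inv, norm_norm, inv_mul_cancel₀ hppos.ne'], ?_⟩
  intro u hu'
  have h1 := hproj u (subset_closure (subset_convexHull ℝ N hu'))
  rw [zero_sub, inner_neg_left, inner_sub_right, real_inner_self_eq_norm_sq] at h1
  have h2 : ‖p‖ ≤ ⟪(‖p‖)⁻¹ • p, u⟫ := by
    rw [inner_smul_left]
    simp only [conj_trivial]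
    rw [inv_mul_eq_div, le_div_iff₀ hppos]
    nlinarith
  refine ⟨hppos.trans_le h2, hp2.trans ?_⟩
  have h3 : ‖p‖ ^ 2 ≤ ⟪(‖p‖)⁻¹ • p, u⟫ ^ 2 := pow_le_pow_left₀ hppos.le h2 2
  nlinarith

lemma angle {c u U : E} (hc : ‖c‖ = 1) (hu : ‖u‖ = 1) (h1 : 0 < ⟪c, u⟫) (h2 : 0 < ⟪U, c⟫)
    (h3 : (1 - ⟪c, u⟫ ^ 2) * (‖U‖ ^ 2 - ⟪U, c⟫ ^ 2) < ⟪c, u⟫ ^ 2 * ⟪U, c⟫ ^ 2) :
    0 < ⟪U, u⟫ := by
  by_contra hcon
  push Not at hcon
  have hcc : ⟪c, c⟫ = 1 := by rw [real_inner_self_eq_norm_sq, hc]; norm_num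
  have huu : ⟪u, u⟫ = 1 := by rw [real_inner_self_eq_norm_sq, hu]; norm_num
  have hUU : ⟪U, U⟫ = ‖U‖ ^ 2 := real_inner_self_eq_norm_sq U
  have hcU : ⟪c, U⟫ = ⟪U, c⟫ := real_inner_comm _ _
  have huc : ⟪u, c⟫ = ⟪c, u⟫ := real_inner_comm _ _
  have huU : ⟪u, U⟫ = ⟪U, u⟫ := real_inner_comm _ _
  have hcs := real_inner_mul_inner_self_le (U - ⟪U, c⟫ • c) (u - ⟪c, u⟫ • c)
  have e1 : ⟪U - ⟪U, c⟫ • c, u - ⟪c, u⟫ • c⟫ = ⟪U, u⟫ - ⟪U, c⟫ * ⟪c, u⟫ := by
    simp only [inner_sub_left, inner_sub_right, inner_smul_left, inner_smul_right, conj_trivial,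
      hcc]
    ring
  have e2 : ⟪U - ⟪U, c⟫ • c, U - ⟪U, c⟫ • c⟫ = ‖U‖ ^ 2 - ⟪U, c⟫ ^ 2 := by
    simp only [inner_sub_left, inner_sub_right, inner_smul_left, inner_smul_right, conj_trivial,
      hcc, hcU, hUU]
    ring
  have e3 : ⟪u - ⟪c, u⟫ • c, u - ⟪c, u⟫ • c⟫ = 1 - ⟪c, u⟫ ^ 2 := by
    simp only [inner_sub_left, inner_sub_right, inner_smul_left, inner_smul_right, conj_trivial,
      hcc, huc, huu]
    ring
  rw [e1, e2, e3] at hcs
  have h5 : 0 < ⟪U, c⟫ * ⟪c, u⟫ := mul_pos h2 h1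
  nlinarith

/-- A code gives an illumination of all bodies with narrow normal cones. -/
theorem cover_of_codeR [FiniteDimensional ℝ E] {d : ℕ} (hd : finrank ℝ E = d) (hd1 : 1 ≤ d)
    {a : ℝ} (ha0 : 0 ≤ a) (ha1 : a ≤ 1) {N : ℕ}
    (hcode : CodeR E N ((1 - a) * (d / (d + 1)))) {K : Set E} (hK : Convex ℝ K)
    (hKc : IsCompact K) (hKi : (interior K).Nonempty) (hnar : Narrow a K) : Cov N K := by
  classical
  obtain ⟨s, hs, hcode⟩ := hcode
  have hcomp : CompleteSpace E := FiniteDimensional.complete ℝ E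
  have hnt : ∃ e : E, e ≠ 0 := by
    have : Nontrivial E := Module.nontrivial_of_finrank_pos (R := ℝ) (by omega)
    exact exists_ne 0
  have hfin : Cov (Fintype.card s) K := by
    refine cov_of_ill hK hKc (fun i : s => -(i : E)) ?_
    intro x hx
    rcases Set.eq_empty_or_nonempty {u : E | ‖u‖ = 1 ∧ ∀ y ∈ K, ⟪u, y⟫ ≤ ⟪u, x⟫} with hN | hN
    · obtain ⟨e, he⟩ := hnt
      obtain ⟨u, hus, -⟩ := hcode e he
      refine ⟨⟨u, hus⟩, ill_of_normal hK hKi hx ?_⟩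
      intro f hf hfx
      exfalso
      set w := (InnerProductSpace.toDual ℝ E).symm f with hw
      have hfw : ∀ y, f y = ⟪w, y⟫ := fun y => by
        rw [hw, InnerProductSpace.toDual_symm_apply]
      have hw0 : w ≠ 0 := by
        intro h
        apply hf
        ext y
        rw [hfw, h, inner_zero_left]
        rfl
      have hwn : 0 < ‖w‖ := norm_pos_iff.2 hw0
      have : (‖w‖)⁻¹ • w ∈ {u : E | ‖u‖ = 1 ∧ ∀ y ∈ K, ⟪u, y⟫ ≤ ⟪u, x⟫} := by
        refine ⟨by rw [norm_smul, norm_inv, norm_norm, inv_mul_cancel₀ hwn.ne'], fun y hy => ?_⟩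
        rw [inner_smul_left, inner_smul_left]
        simp only [conj_trivial]
        rw [← hfw, ← hfw]
        exact mul_le_mul_of_nonneg_left (hfx y hy) (by positivity)
      rw [hN] at this
      exact this
    · obtain ⟨c, hc1, hc⟩ := centre hd ha0 ha1 hN (fun u hu => hu.1)
        (fun u hu v hv => hnar x hx u v hu.1 hv.1 hu.2 hv.2)
      have hc0 : c ≠ 0 := by
        rintro rfl
        simp at hc1
      obtain ⟨U, hUs, hU0, hU⟩ := hcode c hc0
      rw [hc1] at hU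
      refine ⟨⟨U, hUs⟩, ill_of_normal hK hKi hx ?_⟩
      intro f hf hfx
      set w := (InnerProductSpace.toDual ℝ E).symm f with hw
      have hfw : ∀ y, f y = ⟪w, y⟫ := fun y => by
        rw [hw, InnerProductSpace.toDual_symm_apply]
      have hw0 : w ≠ 0 := by
        intro h
        apply hf
        ext y
        rw [hfw, h, inner_zero_left]
        rfl
      have hwn : 0 < ‖w‖ := norm_pos_iff.2 hw0
      have hu1 : ‖(‖w‖)⁻¹ • w‖ = 1 := by
        rw [norm_smul, norm_inv, norm_norm, inv_mul_cancel₀ hwn.ne']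
      obtain ⟨hc2, hc3⟩ := hc ((‖w‖)⁻¹ • w) ⟨hu1, fun y hy => by
        rw [inner_smul_left, inner_smul_left]
        simp only [conj_trivial]
        rw [← hfw, ← hfw]
        exact mul_le_mul_of_nonneg_left (hfx y hy) (by positivity)⟩
      have hang : 0 < ⟪U, (‖w‖)⁻¹ • w⟫ := by
        refine angle hc1 hu1 hc2 hU0 ?_
        have hd0 : (1 : ℝ) ≤ d := by exact_mod_cast hd1
        set A := ⟪c, (‖w‖)⁻¹ • w⟫ ^ 2 with hA
        set B := ⟪U, c⟫ ^ 2 with hB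
        set C := ‖U‖ ^ 2 with hC
        have hC0 : 0 ≤ C := by rw [hC]; positivity
        -- (1 - A) (C - B) < A B iff C < A C + B
        have h1 : (1 - a) * d * C < (d + 1) * B := by
          have h1' : (1 - a) * (d / (d + 1)) * (C * 1 ^ 2) = (1 - a) * d * C / (d + 1) := by ring
          rw [h1', div_lt_iff₀ (by positivity)] at hU
          linarith
        have h2 : (a * d + 1) * C ≤ (d + 1) * A * C := mul_le_mul_of_nonneg_right hc3 hC0
        have h3 : C < A * C + B := by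
          have h4 : ((d : ℝ) + 1) * C < (d + 1) * (A * C + B) := by
            linarith
          exact lt_of_mul_lt_mul_left h4 (by positivity)
        linarith
      rw [inner_smul_right] at hang
      have h5 : 0 < ⟪U, w⟫ := by
        by_contra hcon
        push Not at hcon
        have : (‖w‖)⁻¹ * ⟪U, w⟫ ≤ 0 := mul_nonpos_of_nonneg_of_nonpos (by positivity) hcon
        linarith
      show f (-(U : E)) < 0
      rw [map_neg, hfw, real_inner_comm]
      linarith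
  obtain ⟨T, hT, hcov⟩ := hfin
  exact ⟨T, hT.trans (by rw [Fintype.card_coe]; exact hs), hcov⟩

end Pool.Agent.K3h76.SD
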