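import Mathlib

set_option autoImplicit false

/-!
The volume of the part of the ball in a cone with half-angle 45 degrees.
-/

namespace Pool.Agent.K3h76.SD

open scoped RealInnerProductSpace
open MeasureTheory Module Metric Set

/-- The radius of the slices of a double cone. -/
noncomputable def rad (t : ℝ) : ℝ := min t ((√2 + 1) * (1 - t))

lemma sqrt2_sq : √2 * √2 = (2 : ℝ) := Real.mul_self_sqrt (by norm_num)

lemma rad_nonneg {t : ℝ} (h0 : 0 ≤ t) (h1 : t ≤ 1) : 0 ≤ rad t :=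
  le_min h0 (mul_nonneg (by positivity) (by linarith))

lemma rad_neg {t r : ℝ} (hr : 0 ≤ r) (h : r ≤ rad t) : 0 ≤ t ∧ t ≤ 1 := by
  have h1 := h.trans (min_le_left _ _)
  have h2 := h.trans (min_le_right _ _)
  refine ⟨hr.trans h1, ?_⟩
  by_contra hcon
  push Not at hcon
  have h3 : 0 < √2 + 1 := by positivity
  nlinarith

lemma rad_low {t : ℝ} (h : t ≤ √2 / 2) : rad t = t := by
  refine min_eq_left ?_
  have h2 := sqrt2_sq
  have h3 : 0 < √2 := by positivity
  nlinarith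

lemma rad_high {t : ℝ} (h : √2 / 2 ≤ t) : rad t = (√2 + 1) * (1 - t) := by
  refine min_eq_right ?_
  have h2 := sqrt2_sq
  have h3 : 0 < √2 := by positivity
  nlinarith

lemma rad_ball {t r : ℝ} (hr : 0 ≤ r) (h : r ≤ rad t) : t ^ 2 + r ^ 2 ≤ 1 := by
  obtain ⟨h0, h1⟩ := rad_neg hr h
  have h2 := sqrt2_sq
  have h3 : 0 < √2 := by positivity
  rcases le_total t (√2 / 2) with ht | ht
  · rw [rad_low ht] at h
    nlinarith
  · rw [rad_high ht] at h
    have h4 : r ^ 2 ≤ ((√2 + 1) * (1 - t)) ^ 2 := pow_le_pow_left₀ hr h 2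
    have h5 : ((√2 + 1) * (1 - t)) ^ 2 = (3 + 2 * √2) * (1 - t) ^ 2 := by
      rw [mul_pow]
      have : (√2 + 1) ^ 2 = 3 + 2 * √2 := by nlinarith
      rw [this]
    rw [h5] at h4
    have h6 : (3 + 2 * √2) * (1 - t) ≤ 1 + t := by nlinarith
    have h7 := mul_le_mul_of_nonneg_right h6 (show 0 ≤ 1 - t by linarith)
    nlinarith

lemma rad_int (n : ℕ) : ∫ t in (0 : ℝ)..1, rad t ^ n = (√2 / 2) ^ n / (n + 1) := by
  have h2 := sqrt2_sq
  have h3 : 0 < √2 := by positivity
  have hh1 : √2 / 2 ≤ 1 := by nlinarith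
  have hcont : Continuous rad := by unfold rad; fun_prop
  have hint : ∀ a b : ℝ, IntervalIntegrable (fun t => rad t ^ n) volume a b :=
    fun a b => (hcont.pow n).intervalIntegrable a b
  rw [← intervalIntegral.integral_add_adjacent_intervals (hint 0 (√2 / 2)) (hint (√2 / 2) 1)]
  have e1 : ∫ t in (0 : ℝ)..(√2 / 2), rad t ^ n = (√2 / 2) ^ (n + 1) / (n + 1) := by
    have : ∫ t in (0 : ℝ)..(√2 / 2), rad t ^ n = ∫ t in (0 : ℝ)..(√2 / 2), t ^ n := by
      refine intervalIntegral.integral_congr fun t ht => ?_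
      rw [uIcc_of_le (by positivity)] at ht
      simp only [rad_low ht.2]
    rw [this, integral_pow]
    simp
  have e2 : ∫ t in (√2 / 2)..1, rad t ^ n = (√2 / 2) ^ n * (1 - √2 / 2) / (n + 1) := by
    have : ∫ t in (√2 / 2)..1, rad t ^ n = ∫ t in (√2 / 2)..1, (√2 + 1) ^ n * (1 - t) ^ n := by
      refine intervalIntegral.integral_congr fun t ht => ?_
      rw [uIcc_of_le hh1] at ht
      simp only [rad_high ht.1, mul_pow]
    rw [this, intervalIntegral.integral_const_mul,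
      intervalIntegral.integral_comp_sub_left (fun t => t ^ n) 1, integral_pow, sub_self,
      zero_pow (Nat.succ_ne_zero n), sub_zero, pow_succ (1 - √2 / 2)]
    have h4 : (√2 + 1) * (1 - √2 / 2) = √2 / 2 := by nlinarith
    calc (√2 + 1) ^ n * ((1 - √2 / 2) ^ n * (1 - √2 / 2) / ((n : ℝ) + 1))
        = ((√2 + 1) * (1 - √2 / 2)) ^ n * (1 - √2 / 2) / (n + 1) := by rw [mul_pow]; ring
      _ = (√2 / 2) ^ n * (1 - √2 / 2) / (n + 1) := by rw [h4]
  rw [e1, e2, pow_succ]
  ring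

variable (n : ℕ)

/-- the model space -/
abbrev V (n : ℕ) : Type := EuclideanSpace ℝ (Fin n)

abbrev Fs (n : ℕ) : Type := WithLp 2 (ℝ × V n)

lemma finrank_Fs : finrank ℝ (Fs n) = n + 1 := by
  rw [(WithLp.linearEquiv 2 ℝ (ℝ × V n)).finrank_eq, Module.finrank_prod, finrank_self,
    finrank_euclideanSpace_fin, add_comm]

/-- the constant in the volume formula of the ball -/
noncomputable def kap (n : ℕ) : ℝ := √Real.pi ^ n / Real.Gamma ((n : ℝ) / 2 + 1)

lemma kap_pos : 0 < kap n := by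
  unfold kap
  have : 0 < Real.Gamma ((n : ℝ) / 2 + 1) := Real.Gamma_pos_of_pos (by positivity)
  positivity

/-- the double cone -/
def dcone (n : ℕ) : Set (ℝ × V n) := {p | ‖p.2‖ ≤ rad p.1}

lemma dcone_closed : IsClosed (dcone n) := by
  unfold dcone
  have hcont : Continuous rad := by unfold rad; fun_prop
  exact isClosed_le (by fun_prop) (hcont.comp continuous_fst)

lemma dcone_vol (hn : 1 ≤ n) :
    ENNReal.ofReal (kap n * ((√2 / 2) ^ n / (n + 1))) ≤ volume (dcone n) := by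
  have : Nonempty (Fin n) := ⟨⟨0, by omega⟩⟩
  have hcont : Continuous rad := by unfold rad; fun_prop
  have h1 : volume (dcone n) = ∫⁻ t : ℝ, ENNReal.ofReal (rad t) ^ n * ENNReal.ofReal (kap n) := by
    rw [Measure.volume_eq_prod, Measure.prod_apply (dcone_closed n).measurableSet]
    refine lintegral_congr fun t => ?_
    have : Prod.mk t ⁻¹' dcone n = closedBall (0 : V n) (rad t) := by
      ext z
      simp [dcone]
    rw [this, EuclideanSpace.volume_closedBall, Fintype.card_fin]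
    rfl
  rw [h1]
  calc ENNReal.ofReal (kap n * ((√2 / 2) ^ n / (n + 1)))
      = ∫⁻ t in Icc (0:ℝ) 1, ENNReal.ofReal (rad t ^ n * kap n) := by
        rw [← ofReal_integral_eq_lintegral_ofReal]
        · congr 1
          rw [integral_Icc_eq_integral_Ioc, ← intervalIntegral.integral_of_le zero_le_one,
            intervalIntegral.integral_mul_const, rad_int, mul_comm]
        · exact ((hcont.pow n).mul continuous_const).continuousOn.integrableOn_compact isCompact_Icc
        · refine (ae_restrict_iff' measurableSet_Icc).2 (Filter.Eventually.of_forall fun t ht => ?_)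
          exact mul_nonneg (pow_nonneg (rad_nonneg ht.1 ht.2) n) (kap_pos n).le
    _ = ∫⁻ t in Icc (0:ℝ) 1, ENNReal.ofReal (rad t) ^ n * ENNReal.ofReal (kap n) := by
        refine setLIntegral_congr_fun measurableSet_Icc fun t ht => ?_
        rw [ENNReal.ofReal_mul (pow_nonneg (rad_nonneg ht.1 ht.2) n),
          ENNReal.ofReal_pow (rad_nonneg ht.1 ht.2)]
    _ ≤ ∫⁻ t : ℝ, ENNReal.ofReal (rad t) ^ n * ENNReal.ofReal (kap n) :=
        setLIntegral_le_lintegral _ _

/-- part of the ball near the direction `m` -/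
def cap (n : ℕ) (m : Fs n) : Set (Fs n) := {y | ‖y‖ ≤ 1 ∧ ‖y‖ ≤ √2 * ⟪y, m⟫}

lemma cap_closed (m : Fs n) : IsClosed (cap n m) := by
  have h1 : IsClosed {y : Fs n | ‖y‖ ≤ 1} := isClosed_le (by fun_prop) (by fun_prop)
  have h2 : IsClosed {y : Fs n | ‖y‖ ≤ √2 * ⟪y, m⟫} := isClosed_le (by fun_prop) (by fun_prop)
  exact h1.inter h2

/-- the first basis vector -/
noncomputable def e1 (n : ℕ) : Fs n := WithLp.toLp 2 ((1 : ℝ), (0 : V n))

lemma norm_e1 : ‖e1 n‖ = 1 := by
  have : ‖e1 n‖ ^ 2 = 1 := by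
    rw [WithLp.prod_norm_sq_eq_of_L2]
    simp [e1]
  nlinarith [norm_nonneg (e1 n)]

lemma cap_e1 (hn : 1 ≤ n) :
    ENNReal.ofReal (kap n * ((√2 / 2) ^ n / (n + 1))) ≤ volume (cap n (e1 n)) := by
  refine (dcone_vol n hn).trans ?_
  rw [← (WithLp.volume_preserving_toLp ℝ (V n)).measure_preimage
    (cap_closed n _).measurableSet.nullMeasurableSet]
  refine measure_mono ?_
  rintro ⟨t, z⟩ hp
  have hp : ‖z‖ ≤ rad t := hp
  obtain ⟨h0, h1⟩ := rad_neg (norm_nonneg z) hp
  have hb := rad_ball (norm_nonneg z) hp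
  have hz : ‖z‖ ≤ t := hp.trans (min_le_left _ _)
  have hnorm : ‖(WithLp.toLp 2 (t, z) : Fs n)‖ ^ 2 = t ^ 2 + ‖z‖ ^ 2 := by
    rw [WithLp.prod_norm_sq_eq_of_L2]
    simp
  have hin : ⟪(WithLp.toLp 2 (t, z) : Fs n), e1 n⟫ = t := by
    rw [WithLp.prod_inner_apply]
    simp [e1]
  refine ⟨?_, ?_⟩
  · refine le_of_sq_le_sq ?_ zero_le_one
    rw [hnorm]
    linarith
  · rw [hin]
    refine le_of_sq_le_sq ?_ (by positivity)
    rw [hnorm, mul_pow, Real.sq_sqrt (by norm_num)]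
    nlinarith [norm_nonneg z]

lemma cap_vol (hn : 1 ≤ n) {m : Fs n} (hm : ‖m‖ = 1) :
    ENNReal.ofReal (kap n * ((√2 / 2) ^ n / (n + 1))) ≤ volume (cap n m) := by
  refine (cap_e1 n hn).trans (le_of_eq ?_)
  set φ : Fs n ≃ₗᵢ[ℝ] Fs n := Submodule.reflection (ℝ ∙ (e1 n - m))ᗮ with hφ
  have hφe : φ (e1 n) = m := Submodule.reflection_sub (by rw [norm_e1, hm])
  have hpre : φ ⁻¹' (cap n m) = cap n (e1 n) := by
    ext y
    simp only [cap, mem_preimage, mem_ofPred_eq, φ.norm_map]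
    rw [← hφe, φ.inner_map_map]
  rw [← hpre]
  exact (φ.measurePreserving).measure_preimage (cap_closed n _).measurableSet.nullMeasurableSet

lemma ball_vol : volume (closedBall (0 : Fs n) 1) = ENNReal.ofReal (kap (n + 1)) := by
  have : Nontrivial (Fs n) := Module.nontrivial_of_finrank_pos (R := ℝ) (by rw [finrank_Fs]; omega)
  rw [InnerProductSpace.volume_closedBall, finrank_Fs, ENNReal.ofReal_one, one_pow, one_mul, kap]

lemma gamma_ratio {x : ℝ} (hx : 0 < x) :
    √x * Real.Gamma (x + 1 / 2) ≤ Real.Gamma (x + 1) := by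
  have h1 := Real.Gamma_mul_add_mul_le_rpow_Gamma_mul_rpow_Gamma (s := x) (t := x + 1)
    (a := 1 / 2) (b := 1 / 2) hx (by linarith) (by norm_num) (by norm_num) (by norm_num)
  have e : (1 : ℝ) / 2 * x + 1 / 2 * (x + 1) = x + 1 / 2 := by ring
  rw [e] at h1
  have hG1 : 0 < Real.Gamma (x + 1) := Real.Gamma_pos_of_pos (by linarith)
  have hG0 : 0 < Real.Gamma x := Real.Gamma_pos_of_pos hx
  have h2 : √x * (Real.Gamma x ^ (1 / 2 : ℝ) * Real.Gamma (x + 1) ^ (1 / 2 : ℝ)) =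
      Real.Gamma (x + 1) := by
    rw [Real.sqrt_eq_rpow, ← mul_assoc, ← Real.mul_rpow hx.le hG0.le, ← Real.Gamma_add_one hx.ne',
      ← Real.mul_rpow hG1.le hG1.le, ← pow_two, ← Real.rpow_natCast, ← Real.rpow_mul hG1.le]
    norm_num
  calc √x * Real.Gamma (x + 1 / 2) ≤ √x *
      (Real.Gamma x ^ (1 / 2 : ℝ) * Real.Gamma (x + 1) ^ (1 / 2 : ℝ)) :=
        mul_le_mul_of_nonneg_left h1 (Real.sqrt_nonneg _)
    _ = _ := h2

/-- share of the volume of the ball in a cap -/
noncomputable def share (n : ℕ) : ℝ := (√2 / 2) ^ n / (n + 1) * √(((n : ℝ) + 1) / (2 * Real.pi))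

lemma share_le : share n * kap (n + 1) ≤ kap n * ((√2 / 2) ^ n / (n + 1)) := by
  have h1 : √(((n : ℝ) + 1) / (2 * Real.pi)) * kap (n + 1) ≤ kap n := by
    unfold kap
    have hx : (0 : ℝ) < ((n : ℝ) + 1) / 2 := by positivity
    have h2 := gamma_ratio hx
    have e1 : ((n : ℝ) + 1) / 2 + 1 / 2 = (n : ℝ) / 2 + 1 := by ring
    rw [e1] at h2
    have hG1 : 0 < Real.Gamma (((n : ℝ) + 1) / 2 + 1) := Real.Gamma_pos_of_pos (by positivity)
    have hG0 : 0 < Real.Gamma ((n : ℝ) / 2 + 1) := Real.Gamma_pos_of_pos (by positivity)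
    have e3 : ((n + 1 : ℕ) : ℝ) = (n : ℝ) + 1 := by push_cast; ring
    rw [e3, ← mul_div_assoc, div_le_div_iff₀ hG1 hG0, pow_succ]
    have hpi : 0 < √Real.pi := Real.sqrt_pos.2 Real.pi_pos
    have e4 : √(((n : ℝ) + 1) / (2 * Real.pi)) * √Real.pi = √(((n : ℝ) + 1) / 2) := by
      rw [← Real.sqrt_mul (by positivity)]
      congr 1
      have := Real.pi_ne_zero
      field_simp
    calc √(((n : ℝ) + 1) / (2 * Real.pi)) * (√Real.pi ^ n * √Real.pi) *
        Real.Gamma ((n : ℝ) / 2 + 1)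
        = √Real.pi ^ n * (√(((n : ℝ) + 1) / (2 * Real.pi)) * √Real.pi *
          Real.Gamma ((n : ℝ) / 2 + 1)) := by ring
      _ ≤ √Real.pi ^ n * Real.Gamma (((n : ℝ) + 1) / 2 + 1) := by
          rw [e4]
          exact mul_le_mul_of_nonneg_left h2 (by positivity)
  unfold share
  calc (√2 / 2) ^ n / ((n : ℝ) + 1) * √(((n : ℝ) + 1) / (2 * Real.pi)) * kap (n + 1)
      = (√2 / 2) ^ n / ((n : ℝ) + 1) * (√(((n : ℝ) + 1) / (2 * Real.pi)) * kap (n + 1)) := by ring
    _ ≤ (√2 / 2) ^ n / ((n : ℝ) + 1) * kap n := mul_le_mul_of_nonneg_left h1 (by positivity)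
    _ = _ := by ring

lemma cap_share (hn : 1 ≤ n) {m : Fs n} (hm : ‖m‖ = 1) :
    share n * volume.real (closedBall (0 : Fs n) 1) ≤ volume.real (cap n m) := by
  have hfin : volume (cap n m) ≠ ⊤ := by
    refine ne_top_of_le_ne_top ?_ (measure_mono (t := closedBall (0 : Fs n) 1) fun y hy => ?_)
    · rw [ball_vol]; exact ENNReal.ofReal_ne_top
    · simpa using hy.1
  have h1 := cap_vol n hn hm
  rw [measureReal_def, measureReal_def, ball_vol, ENNReal.toReal_ofReal (kap_pos _).le]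
  have h2 := (ENNReal.ofReal_le_iff_le_toReal hfin).1 h1
  exact (share_le n).trans h2

end Pool.Agent.K3h76.SD
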