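import Pool.Agent.K3h76.SD.Sorted

set_option autoImplicit false

/-!
Explicit sphere codes with at most `2 ^ d` points, for small `d`.
-/

namespace Pool.Agent.K3h76.SD

open scoped RealInnerProductSpace
open Finset

theorem chk1 : Chk 1 1 10 100 200 [10]
    [[(1, 1)]]
    [[10, -10]]
    [[20, 15]]
    [[0]] := by
  decide +kernel

/-- supports, all signs -/
def A1 : Finset (Finset (Fin 1)) :=
  powersetCard 1 univ

/-- supports, even number of minus signs -/
def B1 : Finset (Finset (Fin 1)) :=
  ∅

lemma cardA1 : ∑ S ∈ A1, 2 ^ S.card ≤ 2 := by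
  unfold A1
  rw [pc_sum]
  decide +kernel

lemma cardB1 : ∑ S ∈ B1, 2 ^ (S.card - 1) ≤ 0 := by
  unfold B1
  simp

theorem code1 : Code (EuclideanSpace ℝ (Fin 1)) (2 ^ 1) 1 := by
  refine code_of (s := orb A1 B1) ?_ 100 200 (by norm_num) ?_
  · refine (orb_card _ _ ?_).trans ((Nat.add_le_add cardA1 cardB1).trans (by norm_num))
    intro S hS
    simp [B1] at hS
  · intro n τ hτ h
    obtain ⟨σ, hσ⟩ := exists_sort n
    have hk := hyper 1 1 _ _ _ _ _ _ _ _ chk1 (a := ext0 fun i => |n (σ i)|)
      (fun i => ext0_anti hσ (fun _ => abs_nonneg _) i) (ext0_end _) hτ ?_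
    · rw [norm_sorted] at hk
      exact_mod_cast hk
    · intro i hi
      interval_cases i
      · have hc := con_flat (σ := σ) h (K := 1) (by norm_num) (fun S hS => mem_pc S hS)
        have hb := ratio_bound (Q := 10) (R := 10) hc hτ (by norm_num)
        simpa [ev] using hb

theorem chk2 : Chk 2 1 10 100 240 [10]
    [[(1, 1)]]
    [[10, -10, -10]]
    [[24, 12, 22]]
    [[0]] := by
  decide +kernel

/-- supports, all signs -/
def A2 : Finset (Finset (Fin 2)) :=
  powersetCard 1 univ

/-- supports, even number of minus signs -/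
def B2 : Finset (Finset (Fin 2)) :=
  ∅

lemma cardA2 : ∑ S ∈ A2, 2 ^ S.card ≤ 4 := by
  unfold A2
  rw [pc_sum]
  decide +kernel

lemma cardB2 : ∑ S ∈ B2, 2 ^ (S.card - 1) ≤ 0 := by
  unfold B2
  simp

theorem code2 : Code (EuclideanSpace ℝ (Fin 2)) (2 ^ 2) 2 := by
  refine code_of (s := orb A2 B2) ?_ 100 240 (by norm_num) ?_
  · refine (orb_card _ _ ?_).trans ((Nat.add_le_add cardA2 cardB2).trans (by norm_num))
    intro S hS
    simp [B2] at hS
  · intro n τ hτ h
    obtain ⟨σ, hσ⟩ := exists_sort n
    have hk := hyper 2 1 _ _ _ _ _ _ _ _ chk2 (a := ext0 fun i => |n (σ i)|)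
      (fun i => ext0_anti hσ (fun _ => abs_nonneg _) i) (ext0_end _) hτ ?_
    · rw [norm_sorted] at hk
      exact_mod_cast hk
    · intro i hi
      interval_cases i
      · have hc := con_flat (σ := σ) h (K := 1) (by norm_num) (fun S hS => mem_pc S hS)
        have hb := ratio_bound (Q := 10) (R := 10) hc hτ (by norm_num)
        simpa [ev] using hb

theorem chk6 : Chk 6 2 20 800 1862 [20, 49]
    [[(1, 1)], [(2, 5), (-1, 6)]]
    [[20, -20, -20, -20, -20, -20, -20], [49, -20, -40, -60, -80, -100, -80]]
    [[49, 26, 82, -9, -80, -100, -80], [18, 15, 0, 44, 80, 89, 80]]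
    [[0, 1], [0, 0]] := by
  decide +kernel

/-- supports, all signs -/
def A6 : Finset (Finset (Fin 6)) :=
  powersetCard 1 univ

/-- supports, even number of minus signs -/
def B6 : Finset (Finset (Fin 6)) :=
  powersetCard 6 univ

lemma cardA6 : ∑ S ∈ A6, 2 ^ S.card ≤ 12 := by
  unfold A6
  rw [pc_sum]
  decide +kernel

lemma cardB6 : ∑ S ∈ B6, 2 ^ (S.card - 1) ≤ 32 := by
  unfold B6
  rw [pc_sum']
  decide +kernel

theorem code6 : Code (EuclideanSpace ℝ (Fin 6)) (2 ^ 6) 6 := by
  refine code_of (s := orb A6 B6) ?_ 800 1862 (by norm_num) ?_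
  · refine (orb_card _ _ ?_).trans ((Nat.add_le_add cardA6 cardB6).trans (by norm_num))
    intro S hS
    rw [← card_pos]
    have := (mem_powersetCard.1 hS).2
    omega
  · intro n τ hτ h
    obtain ⟨σ, hσ⟩ := exists_sort n
    have hk := hyper 6 2 _ _ _ _ _ _ _ _ chk6 (a := ext0 fun i => |n (σ i)|)
      (fun i => ext0_anti hσ (fun _ => abs_nonneg _) i) (ext0_end _) hτ ?_
    · rw [norm_sorted] at hk
      exact_mod_cast hk
    · intro i hi
      interval_cases i
      · have hc := con_flat (σ := σ) h (K := 1) (by norm_num) (fun S hS => mem_pc S hS)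
        have hb := ratio_bound (Q := 20) (R := 20) hc hτ (by norm_num)
        simpa [ev] using hb
      · have hc := con_even (σ := σ) h (by norm_num) (mem_pc univ (by simp))
        have hb := ratio_bound (Q := 20) (R := 49) (w := 6) hc hτ (by norm_num)
        simp only [Nat.reduceSub] at hb
        simp only [List.getD_cons_succ, List.getD_cons_zero, ev, List.map_cons, List.map_nil,
          List.sum_cons, List.sum_nil]
        push_cast at hb ⊢
        linarith

theorem chk7 : Chk 7 3 20 4000 9005 [20, 29, 53]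
    [[(1, 1)], [(1, 3), (-1, 1)], [(2, 6), (-1, 7)]]
    [[20, -20, -20, -20, -20, -20, -20, -20], [29, 0, -20, -40, -40, -40, -40, -40], [53, -20, -40, -60, -80, -100, -120, -100]]
    [[119, 175, 505, 416, 207, 0, 0, 0], [159, -60, -112, 93, -105, -300, -360, -300], [38, 26, 4, 0, 201, 400, 441, 400]]
    [[0, 0, 0], [0, 0, 3], [0, 0, 0]] := by
  decide +kernel

/-- supports, all signs -/
def A7 : Finset (Finset (Fin 7)) :=
  (powersetCard 1 univ) ∪ (powersetCard 2 (univ.filter fun i : Fin 7 => i.val < 3)) ∪ (powersetCard 2 (univ.filter fun i : Fin 7 => ¬ i.val < 3))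

/-- supports, even number of minus signs -/
def B7 : Finset (Finset (Fin 7)) :=
  powersetCard 7 univ

lemma cardA7 : ∑ S ∈ A7, 2 ^ S.card ≤ 50 := by
  unfold A7
  refine (sum_union_le' _ _ _).trans ?_
  refine (Nat.add_le_add_right (sum_union_le' _ _ _) _).trans ?_
  rw [pc_sum, pc_sum, pc_sum]
  decide +kernel

lemma cardB7 : ∑ S ∈ B7, 2 ^ (S.card - 1) ≤ 64 := by
  unfold B7
  rw [pc_sum']
  decide +kernel

theorem code7 : Code (EuclideanSpace ℝ (Fin 7)) (2 ^ 7) 7 := by
  refine code_of (s := orb A7 B7) ?_ 4000 9005 (by norm_num) ?_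
  · refine (orb_card _ _ ?_).trans ((Nat.add_le_add cardA7 cardB7).trans (by norm_num))
    intro S hS
    rw [← card_pos]
    have := (mem_powersetCard.1 hS).2
    omega
  · intro n τ hτ h
    obtain ⟨σ, hσ⟩ := exists_sort n
    have hk := hyper 7 3 _ _ _ _ _ _ _ _ chk7 (a := ext0 fun i => |n (σ i)|)
      (fun i => ext0_anti hσ (fun _ => abs_nonneg _) i) (ext0_end _) hτ ?_
    · rw [norm_sorted] at hk
      exact_mod_cast hk
    · intro i hi
      interval_cases i
      · have hc := con_flat (σ := σ) h (K := 1) (by norm_num) (fun S hS => mem_union_left _ (mem_union_left _ (mem_pc S hS)))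
        have hb := ratio_bound (Q := 20) (R := 20) hc hτ (by norm_num)
        simpa [ev] using hb
      · have hc := con_pairs (σ := σ) h hσ (by norm_num) (fun i : Fin 7 => decide (i.val < 3)) ?_
        · have hb := ratio_bound (Q := 20) (R := 29) (w := 2) (by exact_mod_cast hc) hτ (by norm_num)
          simp only [List.getD_cons_succ, List.getD_cons_zero, ev, List.map_cons, List.map_nil,
            List.sum_cons, List.sum_nil]
          push_cast at hb ⊢
          linarith
        · intro i j hij hp
          by_cases hi : i.val < 3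
          · have hj : j.val < 3 := by simpa [hi] using hp
            exact mem_union_left _ (mem_union_right _ (mem_powersetCard.2 ⟨by simp [insert_subset_iff, hi, hj], card_pair hij⟩))
          · have hj : ¬ j.val < 3 := by simpa [hi] using hp
            exact mem_union_right _ (mem_powersetCard.2 ⟨by simp [insert_subset_iff, not_lt.1 hi, not_lt.1 hj], card_pair hij⟩)
      · have hc := con_even (σ := σ) h (by norm_num) (mem_pc univ (by simp))
        have hb := ratio_bound (Q := 20) (R := 53) (w := 7) hc hτ (by norm_num)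
        simp only [Nat.reduceSub] at hb
        simp only [List.getD_cons_succ, List.getD_cons_zero, ev, List.map_cons, List.map_nil,
          List.sum_cons, List.sum_nil]
        push_cast at hb ⊢
        linarith

theorem chk8 : Chk 8 3 10 800 1711 [10, 15, 29]
    [[(1, 1)], [(1, 2)], [(2, 7), (-1, 8)]]
    [[10, -10, -10, -10, -10, -10, -10, -10, -10], [15, -10, -20, -20, -20, -20, -20, -20, -20], [29, -10, -20, -30, -40, -50, -60, -70, -60]]
    [[116, -22, -80, -120, -160, -147, -157, -167, -157], [0, 103, 84, 134, 32, 0, 0, 0, 0], [19, 0, 37, 31, 104, 123, 133, 143, 133]]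
    [[0, 0, 4], [0, 0, 0], [0, 0, 0]] := by
  decide +kernel

/-- supports, all signs -/
def A8 : Finset (Finset (Fin 8)) :=
  (powersetCard 1 univ) ∪ (powersetCard 2 univ)

/-- supports, even number of minus signs -/
def B8 : Finset (Finset (Fin 8)) :=
  powersetCard 8 univ

lemma cardA8 : ∑ S ∈ A8, 2 ^ S.card ≤ 128 := by
  unfold A8
  refine (sum_union_le' _ _ _).trans ?_
  rw [pc_sum, pc_sum]
  decide +kernel

lemma cardB8 : ∑ S ∈ B8, 2 ^ (S.card - 1) ≤ 128 := by
  unfold B8
  rw [pc_sum']
  decide +kernel

theorem code8 : Code (EuclideanSpace ℝ (Fin 8)) (2 ^ 8) 8 := by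
  refine code_of (s := orb A8 B8) ?_ 800 1711 (by norm_num) ?_
  · refine (orb_card _ _ ?_).trans ((Nat.add_le_add cardA8 cardB8).trans (by norm_num))
    intro S hS
    rw [← card_pos]
    have := (mem_powersetCard.1 hS).2
    omega
  · intro n τ hτ h
    obtain ⟨σ, hσ⟩ := exists_sort n
    have hk := hyper 8 3 _ _ _ _ _ _ _ _ chk8 (a := ext0 fun i => |n (σ i)|)
      (fun i => ext0_anti hσ (fun _ => abs_nonneg _) i) (ext0_end _) hτ ?_
    · rw [norm_sorted] at hk
      exact_mod_cast hk
    · intro i hi
      interval_cases i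
      · have hc := con_flat (σ := σ) h (K := 1) (by norm_num) (fun S hS => mem_union_left _ (mem_pc S hS))
        have hb := ratio_bound (Q := 10) (R := 10) hc hτ (by norm_num)
        simpa [ev] using hb
      · have hc := con_flat (σ := σ) h (K := 2) (by norm_num) (fun S hS => mem_union_right _ (mem_pc S hS))
        have hb := ratio_bound (Q := 10) (R := 15) hc hτ (by norm_num)
        simpa [ev] using hb
      · have hc := con_even (σ := σ) h (by norm_num) (mem_pc univ (by simp))
        have hb := ratio_bound (Q := 10) (R := 29) (w := 8) hc hτ (by norm_num)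
        simp only [Nat.reduceSub] at hb
        simp only [List.getD_cons_succ, List.getD_cons_zero, ev, List.map_cons, List.map_nil,
          List.sum_cons, List.sum_nil]
        push_cast at hb ⊢
        linarith

theorem chk9 : Chk 9 3 20 12000 25653 [20, 29, 60]
    [[(1, 1)], [(1, 2)], [(2, 8), (-1, 9)]]
    [[20, -20, -20, -20, -20, -20, -20, -20, -20, -20], [29, -20, -40, -40, -40, -40, -40, -40, -40, -40], [60, -20, -40, -60, -80, -100, -120, -140, -160, -140]]
    [[0, 587, 0, 0, 0, 0, 0, 0, 0, 0], [777, -100, 112, 209, 1204, -26, -600, -700, -800, -700], [52, 124, 494, 464, 0, 612, 899, 949, 998, 972]]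
    [[0, 0, 0], [0, 0, 5], [0, 0, 0]] := by
  decide +kernel

/-- supports, all signs -/
def A9 : Finset (Finset (Fin 9)) :=
  (powersetCard 1 univ) ∪ (powersetCard 2 univ)

/-- supports, even number of minus signs -/
def B9 : Finset (Finset (Fin 9)) :=
  powersetCard 9 univ

lemma cardA9 : ∑ S ∈ A9, 2 ^ S.card ≤ 162 := by
  unfold A9
  refine (sum_union_le' _ _ _).trans ?_
  rw [pc_sum, pc_sum]
  decide +kernel

lemma cardB9 : ∑ S ∈ B9, 2 ^ (S.card - 1) ≤ 256 := by
  unfold B9
  rw [pc_sum']
  decide +kernel

theorem code9 : Code (EuclideanSpace ℝ (Fin 9)) (2 ^ 9) 9 := by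
  refine code_of (s := orb A9 B9) ?_ 12000 25653 (by norm_num) ?_
  · refine (orb_card _ _ ?_).trans ((Nat.add_le_add cardA9 cardB9).trans (by norm_num))
    intro S hS
    rw [← card_pos]
    have := (mem_powersetCard.1 hS).2
    omega
  · intro n τ hτ h
    obtain ⟨σ, hσ⟩ := exists_sort n
    have hk := hyper 9 3 _ _ _ _ _ _ _ _ chk9 (a := ext0 fun i => |n (σ i)|)
      (fun i => ext0_anti hσ (fun _ => abs_nonneg _) i) (ext0_end _) hτ ?_
    · rw [norm_sorted] at hk
      exact_mod_cast hk
    · intro i hi
      interval_cases i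
      · have hc := con_flat (σ := σ) h (K := 1) (by norm_num) (fun S hS => mem_union_left _ (mem_pc S hS))
        have hb := ratio_bound (Q := 20) (R := 20) hc hτ (by norm_num)
        simpa [ev] using hb
      · have hc := con_flat (σ := σ) h (K := 2) (by norm_num) (fun S hS => mem_union_right _ (mem_pc S hS))
        have hb := ratio_bound (Q := 20) (R := 29) hc hτ (by norm_num)
        simpa [ev] using hb
      · have hc := con_even (σ := σ) h (by norm_num) (mem_pc univ (by simp))
        have hb := ratio_bound (Q := 20) (R := 60) (w := 9) hc hτ (by norm_num)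
        simp only [Nat.reduceSub] at hb
        simp only [List.getD_cons_succ, List.getD_cons_zero, ev, List.map_cons, List.map_nil,
          List.sum_cons, List.sum_nil]
        push_cast at hb ⊢
        linarith

theorem chk10 : Chk 10 3 50 125000 273315 [50, 71, 159]
    [[(1, 1)], [(1, 2)], [(2, 9), (-1, 10)]]
    [[50, -50, -50, -50, -50, -50, -50, -50, -50, -50, -50], [71, -50, -100, -100, -100, -100, -100, -100, -100, -100, -100], [159, -50, -100, -150, -200, -250, -300, -350, -400, -450, -400]]
    [[0, 2379, 0, 0, 0, 0, 0, 0, 0, 0, 0], [2049, 246, 1459, 2425, 5062, -250, -300, -350, -400, -450, -400], [804, 0, 1104, 925, 0, 2625, 2650, 2675, 2700, 2725, 3241]]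
    [[0, 0, 0], [0, 0, 1], [0, 0, 0]] := by
  decide +kernel

/-- supports, all signs -/
def A10 : Finset (Finset (Fin 10)) :=
  (powersetCard 1 univ) ∪ (powersetCard 2 univ)

/-- supports, even number of minus signs -/
def B10 : Finset (Finset (Fin 10)) :=
  powersetCard 10 univ

lemma cardA10 : ∑ S ∈ A10, 2 ^ S.card ≤ 200 := by
  unfold A10
  refine (sum_union_le' _ _ _).trans ?_
  rw [pc_sum, pc_sum]
  decide +kernel

lemma cardB10 : ∑ S ∈ B10, 2 ^ (S.card - 1) ≤ 512 := by
  unfold B10
  rw [pc_sum']
  decide +kernel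

theorem code10 : Code (EuclideanSpace ℝ (Fin 10)) (2 ^ 10) 10 := by
  refine code_of (s := orb A10 B10) ?_ 125000 273315 (by norm_num) ?_
  · refine (orb_card _ _ ?_).trans ((Nat.add_le_add cardA10 cardB10).trans (by norm_num))
    intro S hS
    rw [← card_pos]
    have := (mem_powersetCard.1 hS).2
    omega
  · intro n τ hτ h
    obtain ⟨σ, hσ⟩ := exists_sort n
    have hk := hyper 10 3 _ _ _ _ _ _ _ _ chk10 (a := ext0 fun i => |n (σ i)|)
      (fun i => ext0_anti hσ (fun _ => abs_nonneg _) i) (ext0_end _) hτ ?_
    · rw [norm_sorted] at hk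
      exact_mod_cast hk
    · intro i hi
      interval_cases i
      · have hc := con_flat (σ := σ) h (K := 1) (by norm_num) (fun S hS => mem_union_left _ (mem_pc S hS))
        have hb := ratio_bound (Q := 50) (R := 50) hc hτ (by norm_num)
        simpa [ev] using hb
      · have hc := con_flat (σ := σ) h (K := 2) (by norm_num) (fun S hS => mem_union_right _ (mem_pc S hS))
        have hb := ratio_bound (Q := 50) (R := 71) hc hτ (by norm_num)
        simpa [ev] using hb
      · have hc := con_even (σ := σ) h (by norm_num) (mem_pc univ (by simp))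
        have hb := ratio_bound (Q := 50) (R := 159) (w := 10) hc hτ (by norm_num)
        simp only [Nat.reduceSub] at hb
        simp only [List.getD_cons_succ, List.getD_cons_zero, ev, List.map_cons, List.map_nil,
          List.sum_cons, List.sum_nil]
        push_cast at hb ⊢
        linarith

theorem chk11 : Chk 11 4 50 200000 433250 [50, 71, 87, 166]
    [[(1, 1)], [(1, 2)], [(1, 5), (-1, 2)], [(2, 10), (-1, 11)]]
    [[50, -50, -50, -50, -50, -50, -50, -50, -50, -50, -50, -50], [71, -50, -100, -100, -100, -100, -100, -100, -100, -100, -100, -100], [87, 0, 0, -50, -100, -150, -150, -150, -150, -150, -150, -150], [166, -50, -100, -150, -200, -250, -300, -350, -400, -450, -500, -450]]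
    [[0, 4046, 0, 0, 0, 0, 0, 0, 0, 0, 0, 0], [3352, 0, 4040, 4453, 8638, 4818, 818, 0, 0, 0, 0, 0], [1048, -150, -300, -450, -600, 3480, -681, -1050, -1200, -1350, -1500, -1350], [627, 34, 0, 1208, 0, 0, 4080, 4673, 4748, 4823, 4898, 5347]]
    [[0, 0, 0, 0], [0, 0, 0, 0], [0, 0, 0, 3], [0, 0, 0, 0]] := by
  decide +kernel

/-- supports, all signs -/
def A11 : Finset (Finset (Fin 11)) :=
  (powersetCard 1 univ) ∪ (powersetCard 2 univ) ∪ (powersetCard 3 (univ.filter fun i : Fin 11 => i.val < 5)) ∪ (powersetCard 3 (univ.filter fun i : Fin 11 => ¬ i.val < 5))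

/-- supports, even number of minus signs -/
def B11 : Finset (Finset (Fin 11)) :=
  powersetCard 11 univ

lemma cardA11 : ∑ S ∈ A11, 2 ^ S.card ≤ 482 := by
  unfold A11
  refine (sum_union_le' _ _ _).trans ?_
  refine (Nat.add_le_add_right (sum_union_le' _ _ _) _).trans ?_
  refine (Nat.add_le_add_right (Nat.add_le_add_right (sum_union_le' _ _ _) _) _).trans ?_
  rw [pc_sum, pc_sum, pc_sum, pc_sum]
  decide +kernel

lemma cardB11 : ∑ S ∈ B11, 2 ^ (S.card - 1) ≤ 1024 := by
  unfold B11
  rw [pc_sum']
  decide +kernel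

theorem code11 : Code (EuclideanSpace ℝ (Fin 11)) (2 ^ 11) 11 := by
  refine code_of (s := orb A11 B11) ?_ 200000 433250 (by norm_num) ?_
  · refine (orb_card _ _ ?_).trans ((Nat.add_le_add cardA11 cardB11).trans (by norm_num))
    intro S hS
    rw [← card_pos]
    have := (mem_powersetCard.1 hS).2
    omega
  · intro n τ hτ h
    obtain ⟨σ, hσ⟩ := exists_sort n
    have hk := hyper 11 4 _ _ _ _ _ _ _ _ chk11 (a := ext0 fun i => |n (σ i)|)
      (fun i => ext0_anti hσ (fun _ => abs_nonneg _) i) (ext0_end _) hτ ?_
    · rw [norm_sorted] at hk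
      exact_mod_cast hk
    · intro i hi
      interval_cases i
      · have hc := con_flat (σ := σ) h (K := 1) (by norm_num) (fun S hS => mem_union_left _ (mem_union_left _ (mem_union_left _ (mem_pc S hS))))
        have hb := ratio_bound (Q := 50) (R := 50) hc hτ (by norm_num)
        simpa [ev] using hb
      · have hc := con_flat (σ := σ) h (K := 2) (by norm_num) (fun S hS => mem_union_left _ (mem_union_left _ (mem_union_right _ (mem_pc S hS))))
        have hb := ratio_bound (Q := 50) (R := 71) hc hτ (by norm_num)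
        simpa [ev] using hb
      · have hc := con_triples (σ := σ) h hσ (by norm_num) (fun i : Fin 11 => decide (i.val < 5)) ?_
        · have hb := ratio_bound (Q := 50) (R := 87) (w := 3) (by exact_mod_cast hc) hτ (by norm_num)
          simp only [List.getD_cons_succ, List.getD_cons_zero, ev, List.map_cons, List.map_nil,
            List.sum_cons, List.sum_nil]
          push_cast at hb ⊢
          linarith
        · intro i j k hij hik hjk hp hq
          by_cases hi : i.val < 5
          · have hj : j.val < 5 := by simpa [hi] using hp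
            have hk : k.val < 5 := by simpa [hj] using hq
            exact mem_union_left _ (mem_union_right _ (mem_powersetCard.2 ⟨by simp [insert_subset_iff, hi, hj, hk],
              card_eq_three.2 ⟨_, _, _, hij, hik, hjk, rfl⟩⟩))
          · have hj : ¬ j.val < 5 := by simpa [hi] using hp
            have hk : ¬ k.val < 5 := by simpa [hj] using hq
            exact mem_union_right _ (mem_powersetCard.2 ⟨by simp [insert_subset_iff, not_lt.1 hi, not_lt.1 hj, not_lt.1 hk],
              card_eq_three.2 ⟨_, _, _, hij, hik, hjk, rfl⟩⟩)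
      · have hc := con_even (σ := σ) h (by norm_num) (mem_pc univ (by simp))
        have hb := ratio_bound (Q := 50) (R := 166) (w := 11) hc hτ (by norm_num)
        simp only [Nat.reduceSub] at hb
        simp only [List.getD_cons_succ, List.getD_cons_zero, ev, List.map_cons, List.map_nil,
          List.sum_cons, List.sum_nil]
        push_cast at hb ⊢
        linarith

theorem chk12 : Chk 12 3 20 3200 6825 [20, 35, 70]
    [[(1, 1)], [(1, 3)], [(2, 11), (-1, 12)]]
    [[20, -20, -20, -20, -20, -20, -20, -20, -20, -20, -20, -20, -20], [35, -20, -40, -60, -60, -60, -60, -60, -60, -60, -60, -60, -60], [70, -20, -40, -60, -80, -100, -120, -140, -160, -180, -200, -220, -200]]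
    [[70, 177, -20, -120, -47, -120, -120, -117, -8, -21, -35, -48, -35], [87, 0, 182, 257, 134, 218, 199, 176, 0, 0, 0, 0, 0], [34, 0, 0, 26, 76, 64, 84, 104, 170, 184, 197, 211, 197]]
    [[0, 2, 0], [0, 0, 0], [0, 0, 0]] := by
  decide +kernel

/-- supports, all signs -/
def A12 : Finset (Finset (Fin 12)) :=
  (powersetCard 1 univ) ∪ (powersetCard 3 univ)

/-- supports, even number of minus signs -/
def B12 : Finset (Finset (Fin 12)) :=
  powersetCard 12 univ

lemma cardA12 : ∑ S ∈ A12, 2 ^ S.card ≤ 1784 := by
  unfold A12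
  refine (sum_union_le' _ _ _).trans ?_
  rw [pc_sum, pc_sum]
  decide +kernel

lemma cardB12 : ∑ S ∈ B12, 2 ^ (S.card - 1) ≤ 2048 := by
  unfold B12
  rw [pc_sum']
  decide +kernel

theorem code12 : Code (EuclideanSpace ℝ (Fin 12)) (2 ^ 12) 12 := by
  refine code_of (s := orb A12 B12) ?_ 3200 6825 (by norm_num) ?_
  · refine (orb_card _ _ ?_).trans ((Nat.add_le_add cardA12 cardB12).trans (by norm_num))
    intro S hS
    rw [← card_pos]
    have := (mem_powersetCard.1 hS).2
    omega
  · intro n τ hτ h
    obtain ⟨σ, hσ⟩ := exists_sort n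
    have hk := hyper 12 3 _ _ _ _ _ _ _ _ chk12 (a := ext0 fun i => |n (σ i)|)
      (fun i => ext0_anti hσ (fun _ => abs_nonneg _) i) (ext0_end _) hτ ?_
    · rw [norm_sorted] at hk
      exact_mod_cast hk
    · intro i hi
      interval_cases i
      · have hc := con_flat (σ := σ) h (K := 1) (by norm_num) (fun S hS => mem_union_left _ (mem_pc S hS))
        have hb := ratio_bound (Q := 20) (R := 20) hc hτ (by norm_num)
        simpa [ev] using hb
      · have hc := con_flat (σ := σ) h (K := 3) (by norm_num) (fun S hS => mem_union_right _ (mem_pc S hS))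
        have hb := ratio_bound (Q := 20) (R := 35) hc hτ (by norm_num)
        simpa [ev] using hb
      · have hc := con_even (σ := σ) h (by norm_num) (mem_pc univ (by simp))
        have hb := ratio_bound (Q := 20) (R := 70) (w := 12) hc hτ (by norm_num)
        simp only [Nat.reduceSub] at hb
        simp only [List.getD_cons_succ, List.getD_cons_zero, ev, List.map_cons, List.map_nil,
          List.sum_cons, List.sum_nil]
        push_cast at hb ⊢
        linarith

theorem chk13 : Chk 13 3 20 40000 82878 [20, 35, 73]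
    [[(1, 1)], [(1, 3)], [(2, 12), (-1, 13)]]
    [[20, -20, -20, -20, -20, -20, -20, -20, -20, -20, -20, -20, -20, -20], [35, -20, -40, -60, -60, -60, -60, -60, -60, -60, -60, -60, -60, -60], [73, -20, -40, -60, -80, -100, -120, -140, -160, -180, -200, -220, -240, -220]]
    [[0, 2030, 0, 0, 0, 0, 0, 0, 0, 0, 0, 0, 0, 0], [1761, -20, 1711, 648, 900, 1350, 4006, -40, -160, -180, -200, -220, -240, -220], [291, 10, 299, 1371, 1330, 1194, 0, 2020, 2127, 2136, 2146, 2155, 2165, 2425]]
    [[0, 0, 0], [0, 0, 1], [0, 0, 0]] := by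
  decide +kernel

/-- supports, all signs -/
def A13 : Finset (Finset (Fin 13)) :=
  (powersetCard 1 univ) ∪ (powersetCard 3 univ)

/-- supports, even number of minus signs -/
def B13 : Finset (Finset (Fin 13)) :=
  powersetCard 13 univ

lemma cardA13 : ∑ S ∈ A13, 2 ^ S.card ≤ 2314 := by
  unfold A13
  refine (sum_union_le' _ _ _).trans ?_
  rw [pc_sum, pc_sum]
  decide +kernel

lemma cardB13 : ∑ S ∈ B13, 2 ^ (S.card - 1) ≤ 4096 := by
  unfold B13
  rw [pc_sum']
  decide +kernel

theorem code13 : Code (EuclideanSpace ℝ (Fin 13)) (2 ^ 13) 13 := by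
  refine code_of (s := orb A13 B13) ?_ 40000 82878 (by norm_num) ?_
  · refine (orb_card _ _ ?_).trans ((Nat.add_le_add cardA13 cardB13).trans (by norm_num))
    intro S hS
    rw [← card_pos]
    have := (mem_powersetCard.1 hS).2
    omega
  · intro n τ hτ h
    obtain ⟨σ, hσ⟩ := exists_sort n
    have hk := hyper 13 3 _ _ _ _ _ _ _ _ chk13 (a := ext0 fun i => |n (σ i)|)
      (fun i => ext0_anti hσ (fun _ => abs_nonneg _) i) (ext0_end _) hτ ?_
    · rw [norm_sorted] at hk
      exact_mod_cast hk
    · intro i hi
      interval_cases i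
      · have hc := con_flat (σ := σ) h (K := 1) (by norm_num) (fun S hS => mem_union_left _ (mem_pc S hS))
        have hb := ratio_bound (Q := 20) (R := 20) hc hτ (by norm_num)
        simpa [ev] using hb
      · have hc := con_flat (σ := σ) h (K := 3) (by norm_num) (fun S hS => mem_union_right _ (mem_pc S hS))
        have hb := ratio_bound (Q := 20) (R := 35) hc hτ (by norm_num)
        simpa [ev] using hb
      · have hc := con_even (σ := σ) h (by norm_num) (mem_pc univ (by simp))
        have hb := ratio_bound (Q := 20) (R := 73) (w := 13) hc hτ (by norm_num)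
        simp only [Nat.reduceSub] at hb
        simp only [List.getD_cons_succ, List.getD_cons_zero, ev, List.map_cons, List.map_nil,
          List.sum_cons, List.sum_nil]
        push_cast at hb ⊢
        linarith

theorem chk14 : Chk 14 3 20 6000 12720 [20, 35, 75]
    [[(1, 1)], [(1, 3)], [(2, 13), (-1, 14)]]
    [[20, -20, -20, -20, -20, -20, -20, -20, -20, -20, -20, -20, -20, -20, -20], [35, -20, -40, -60, -60, -60, -60, -60, -60, -60, -60, -60, -60, -60, -60], [75, -20, -40, -60, -80, -100, -120, -140, -160, -180, -200, -220, -240, -260, -240]]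
    [[300, 87, -160, -240, -320, -400, -480, -560, -512, -517, -522, -527, -532, -536, -532], [162, 220, 383, 185, 258, 358, 674, 72, 0, 0, 0, 0, 0, 0, 0], [14, 0, 0, 197, 188, 166, 44, 350, 375, 380, 385, 390, 395, 400, 395]]
    [[0, 0, 4], [0, 0, 0], [0, 0, 0]] := by
  decide +kernel

/-- supports, all signs -/
def A14 : Finset (Finset (Fin 14)) :=
  (powersetCard 1 univ) ∪ (powersetCard 3 univ)

/-- supports, even number of minus signs -/
def B14 : Finset (Finset (Fin 14)) :=
  powersetCard 14 univ

lemma cardA14 : ∑ S ∈ A14, 2 ^ S.card ≤ 2940 := by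
  unfold A14
  refine (sum_union_le' _ _ _).trans ?_
  rw [pc_sum, pc_sum]
  decide +kernel

lemma cardB14 : ∑ S ∈ B14, 2 ^ (S.card - 1) ≤ 8192 := by
  unfold B14
  rw [pc_sum']
  decide +kernel

theorem code14 : Code (EuclideanSpace ℝ (Fin 14)) (2 ^ 14) 14 := by
  refine code_of (s := orb A14 B14) ?_ 6000 12720 (by norm_num) ?_
  · refine (orb_card _ _ ?_).trans ((Nat.add_le_add cardA14 cardB14).trans (by norm_num))
    intro S hS
    rw [← card_pos]
    have := (mem_powersetCard.1 hS).2
    omega
  · intro n τ hτ h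
    obtain ⟨σ, hσ⟩ := exists_sort n
    have hk := hyper 14 3 _ _ _ _ _ _ _ _ chk14 (a := ext0 fun i => |n (σ i)|)
      (fun i => ext0_anti hσ (fun _ => abs_nonneg _) i) (ext0_end _) hτ ?_
    · rw [norm_sorted] at hk
      exact_mod_cast hk
    · intro i hi
      interval_cases i
      · have hc := con_flat (σ := σ) h (K := 1) (by norm_num) (fun S hS => mem_union_left _ (mem_pc S hS))
        have hb := ratio_bound (Q := 20) (R := 20) hc hτ (by norm_num)
        simpa [ev] using hb
      · have hc := con_flat (σ := σ) h (K := 3) (by norm_num) (fun S hS => mem_union_right _ (mem_pc S hS))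
        have hb := ratio_bound (Q := 20) (R := 35) hc hτ (by norm_num)
        simpa [ev] using hb
      · have hc := con_even (σ := σ) h (by norm_num) (mem_pc univ (by simp))
        have hb := ratio_bound (Q := 20) (R := 75) (w := 14) hc hτ (by norm_num)
        simp only [Nat.reduceSub] at hb
        simp only [List.getD_cons_succ, List.getD_cons_zero, ev, List.map_cons, List.map_nil,
          List.sum_cons, List.sum_nil]
        push_cast at hb ⊢
        linarith

theorem chk15 : Chk 15 5 20 120000 255080 [20, 29, 35, 40, 78]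
    [[(1, 1)], [(1, 2)], [(1, 3)], [(1, 5), (-1, 1)], [(2, 14), (-1, 15)]]
    [[20, -20, -20, -20, -20, -20, -20, -20, -20, -20, -20, -20, -20, -20, -20, -20], [29, -20, -40, -40, -40, -40, -40, -40, -40, -40, -40, -40, -40, -40, -40, -40], [35, -20, -40, -60, -60, -60, -60, -60, -60, -60, -60, -60, -60, -60, -60, -60], [40, 0, -20, -40, -60, -80, -80, -80, -80, -80, -80, -80, -80, -80, -80, -80], [78, -20, -40, -60, -80, -100, -120, -140, -160, -180, -200, -220, -240, -260, -280, -260]]
    [[12130, -1943, -6220, -9340, -12460, -15580, -18680, -21780, -24880, -27018, -26109, -26186, -26343, -26524, -26716, -18462], [0, 0, 1335, 0, 0, 0, 0, 0, 0, 0, 0, 0, 0, 0, 0, 0], [0, 8068, 6485, 6449, 8761, 2368, 5284, 11307, 8994, 11810, 10517, 10553, 10698, 10875, 11066, 0], [0, 0, 0, 0, 282, 5232, 4857, 6909, 0, 0, 0, 0, 0, 0, 0, 0], [160, 0, 1351, 2703, 2361, 3531, 3252, 335, 5753, 5079, 5469, 5515, 5533, 5542, 5548, 8355]]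
    [[0, 0, 0, 1, 155], [0, 0, 0, 0, 0], [0, 0, 0, 0, 0], [0, 0, 0, 0, 0], [0, 0, 0, 0, 0]] := by
  decide +kernel

/-- supports, all signs -/
def A15 : Finset (Finset (Fin 15)) :=
  (powersetCard 1 univ) ∪ (powersetCard 2 univ) ∪ (powersetCard 3 univ)

/-- supports, even number of minus signs -/
def B15 : Finset (Finset (Fin 15)) :=
  (powersetCard 4 univ) ∪ (powersetCard 15 univ)

lemma cardA15 : ∑ S ∈ A15, 2 ^ S.card ≤ 4090 := by
  unfold A15
  refine (sum_union_le' _ _ _).trans ?_
  refine (Nat.add_le_add_right (sum_union_le' _ _ _) _).trans ?_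
  rw [pc_sum, pc_sum, pc_sum]
  decide +kernel

lemma cardB15 : ∑ S ∈ B15, 2 ^ (S.card - 1) ≤ 27304 := by
  unfold B15
  refine (sum_union_le' _ _ _).trans ?_
  rw [pc_sum', pc_sum']
  decide +kernel

theorem code15 : Code (EuclideanSpace ℝ (Fin 15)) (2 ^ 15) 15 := by
  refine code_of (s := orb A15 B15) ?_ 120000 255080 (by norm_num) ?_
  · refine (orb_card _ _ ?_).trans ((Nat.add_le_add cardA15 cardB15).trans (by norm_num))
    intro S hS
    rw [← card_pos]
    rcases mem_union.1 hS with hS | hS
    · have := (mem_powersetCard.1 hS).2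
      omega
    · have := (mem_powersetCard.1 hS).2
      omega
  · intro n τ hτ h
    obtain ⟨σ, hσ⟩ := exists_sort n
    have hk := hyper 15 5 _ _ _ _ _ _ _ _ chk15 (a := ext0 fun i => |n (σ i)|)
      (fun i => ext0_anti hσ (fun _ => abs_nonneg _) i) (ext0_end _) hτ ?_
    · rw [norm_sorted] at hk
      exact_mod_cast hk
    · intro i hi
      interval_cases i
      · have hc := con_flat (σ := σ) h (K := 1) (by norm_num) (fun S hS => mem_union_left _ (mem_union_left _ (mem_pc S hS)))
        have hb := ratio_bound (Q := 20) (R := 20) hc hτ (by norm_num)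
        simpa [ev] using hb
      · have hc := con_flat (σ := σ) h (K := 2) (by norm_num) (fun S hS => mem_union_left _ (mem_union_right _ (mem_pc S hS)))
        have hb := ratio_bound (Q := 20) (R := 29) hc hτ (by norm_num)
        simpa [ev] using hb
      · have hc := con_flat (σ := σ) h (K := 3) (by norm_num) (fun S hS => mem_union_right _ (mem_pc S hS))
        have hb := ratio_bound (Q := 20) (R := 35) hc hτ (by norm_num)
        simpa [ev] using hb
      · have hc := con_four (σ := σ) h hσ (by norm_num) (fun S hS => mem_union_left _ (mem_pc S hS))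
        simp only [List.getD_cons_succ, List.getD_cons_zero, ev, List.map_cons, List.map_nil,
          List.sum_cons, List.sum_nil]
        push_cast
        linarith
      · have hc := con_even (σ := σ) h (by norm_num) (mem_union_right _ (mem_pc univ (by simp)))
        have hb := ratio_bound (Q := 20) (R := 78) (w := 15) hc hτ (by norm_num)
        simp only [Nat.reduceSub] at hb
        simp only [List.getD_cons_succ, List.getD_cons_zero, ev, List.map_cons, List.map_nil,
          List.sum_cons, List.sum_nil]
        push_cast at hb ⊢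
        linarith

theorem chk16 : Chk 16 4 10 2000 4190 [10, 15, 20, 40]
    [[(1, 1)], [(1, 2)], [(1, 4)], [(2, 15), (-1, 16)]]
    [[10, -10, -10, -10, -10, -10, -10, -10, -10, -10, -10, -10, -10, -10, -10, -10, -10], [15, -10, -20, -20, -20, -20, -20, -20, -20, -20, -20, -20, -20, -20, -20, -20, -20], [20, -10, -20, -30, -40, -40, -40, -40, -40, -40, -40, -40, -40, -40, -40, -40, -40], [40, -10, -20, -30, -40, -50, -60, -70, -80, -90, -100, -110, -120, -130, -140, -150, -140]]
    [[69, 209, -11, -90, -120, -120, -120, -120, -120, -120, -4, -11, -19, -26, -120, -42, -34], [0, 0, 96, 0, 0, 0, 0, 0, 0, 0, 0, 0, 0, 0, 103, 0, 0], [129, 0, 114, 288, 243, 232, 220, 209, 197, 186, 0, 0, 0, 0, 0, 0, 0], [23, 0, 0, 0, 74, 86, 97, 109, 120, 132, 201, 209, 216, 224, 214, 239, 232]]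
    [[0, 0, 3, 0], [0, 0, 0, 0], [0, 0, 0, 0], [0, 0, 0, 0]] := by
  decide +kernel

/-- supports, all signs -/
def A16 : Finset (Finset (Fin 16)) :=
  (powersetCard 1 univ) ∪ (powersetCard 2 univ) ∪ (powersetCard 4 univ)

/-- supports, even number of minus signs -/
def B16 : Finset (Finset (Fin 16)) :=
  powersetCard 16 univ

lemma cardA16 : ∑ S ∈ A16, 2 ^ S.card ≤ 29632 := by
  unfold A16
  refine (sum_union_le' _ _ _).trans ?_
  refine (Nat.add_le_add_right (sum_union_le' _ _ _) _).trans ?_
  rw [pc_sum, pc_sum, pc_sum]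
  decide +kernel

lemma cardB16 : ∑ S ∈ B16, 2 ^ (S.card - 1) ≤ 32768 := by
  unfold B16
  rw [pc_sum']
  decide +kernel

theorem code16 : Code (EuclideanSpace ℝ (Fin 16)) (2 ^ 16) 16 := by
  refine code_of (s := orb A16 B16) ?_ 2000 4190 (by norm_num) ?_
  · refine (orb_card _ _ ?_).trans ((Nat.add_le_add cardA16 cardB16).trans (by norm_num))
    intro S hS
    rw [← card_pos]
    have := (mem_powersetCard.1 hS).2
    omega
  · intro n τ hτ h
    obtain ⟨σ, hσ⟩ := exists_sort n
    have hk := hyper 16 4 _ _ _ _ _ _ _ _ chk16 (a := ext0 fun i => |n (σ i)|)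
      (fun i => ext0_anti hσ (fun _ => abs_nonneg _) i) (ext0_end _) hτ ?_
    · rw [norm_sorted] at hk
      exact_mod_cast hk
    · intro i hi
      interval_cases i
      · have hc := con_flat (σ := σ) h (K := 1) (by norm_num) (fun S hS => mem_union_left _ (mem_union_left _ (mem_pc S hS)))
        have hb := ratio_bound (Q := 10) (R := 10) hc hτ (by norm_num)
        simpa [ev] using hb
      · have hc := con_flat (σ := σ) h (K := 2) (by norm_num) (fun S hS => mem_union_left _ (mem_union_right _ (mem_pc S hS)))
        have hb := ratio_bound (Q := 10) (R := 15) hc hτ (by norm_num)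
        simpa [ev] using hb
      · have hc := con_flat (σ := σ) h (K := 4) (by norm_num) (fun S hS => mem_union_right _ (mem_pc S hS))
        have hb := ratio_bound (Q := 10) (R := 20) hc hτ (by norm_num)
        simpa [ev] using hb
      · have hc := con_even (σ := σ) h (by norm_num) (mem_pc univ (by simp))
        have hb := ratio_bound (Q := 10) (R := 40) (w := 16) hc hτ (by norm_num)
        simp only [Nat.reduceSub] at hb
        simp only [List.getD_cons_succ, List.getD_cons_zero, ev, List.map_cons, List.map_nil,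
          List.sum_cons, List.sum_nil]
        push_cast at hb ⊢
        linarith

theorem chk17 : Chk 17 4 10 10000 20862 [10, 15, 20, 42]
    [[(1, 1)], [(1, 2)], [(1, 4)], [(2, 16), (-1, 17)]]
    [[10, -10, -10, -10, -10, -10, -10, -10, -10, -10, -10, -10, -10, -10, -10, -10, -10, -10], [15, -10, -20, -20, -20, -20, -20, -20, -20, -20, -20, -20, -20, -20, -20, -20, -20, -20], [20, -10, -20, -30, -40, -40, -40, -40, -40, -40, -40, -40, -40, -40, -40, -40, -40, -40], [42, -10, -20, -30, -40, -50, -60, -70, -80, -90, -100, -110, -120, -130, -140, -150, -160, -150]]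
    [[1638, 266, -780, -1170, -1560, -1950, -2340, -2730, -3120, -3510, -3900, -2564, -3225, -3386, -3489, -3573, -3649, -2573], [0, 0, 179, 0, 0, 0, 0, 0, 0, 0, 0, 0, 0, 0, 0, 0, 0, 0], [96, 753, 1221, 1185, 1200, 1175, 1431, 1731, 2402, 1534, 2073, 101, 1033, 1240, 1361, 1455, 1536, 0], [61, 0, 0, 211, 195, 453, 439, 403, 191, 712, 562, 1198, 925, 880, 861, 851, 845, 1306]]
    [[0, 0, 0, 39], [0, 0, 0, 0], [0, 0, 0, 0], [0, 0, 0, 0]] := by
  decide +kernel

/-- supports, all signs -/
def A17 : Finset (Finset (Fin 17)) :=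
  (powersetCard 1 univ) ∪ (powersetCard 2 univ) ∪ (powersetCard 4 univ)

/-- supports, even number of minus signs -/
def B17 : Finset (Finset (Fin 17)) :=
  powersetCard 17 univ

lemma cardA17 : ∑ S ∈ A17, 2 ^ S.card ≤ 38658 := by
  unfold A17
  refine (sum_union_le' _ _ _).trans ?_
  refine (Nat.add_le_add_right (sum_union_le' _ _ _) _).trans ?_
  rw [pc_sum, pc_sum, pc_sum]
  decide +kernel

lemma cardB17 : ∑ S ∈ B17, 2 ^ (S.card - 1) ≤ 65536 := by
  unfold B17
  rw [pc_sum']
  decide +kernel

theorem code17 : Code (EuclideanSpace ℝ (Fin 17)) (2 ^ 17) 17 := by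
  refine code_of (s := orb A17 B17) ?_ 10000 20862 (by norm_num) ?_
  · refine (orb_card _ _ ?_).trans ((Nat.add_le_add cardA17 cardB17).trans (by norm_num))
    intro S hS
    rw [← card_pos]
    have := (mem_powersetCard.1 hS).2
    omega
  · intro n τ hτ h
    obtain ⟨σ, hσ⟩ := exists_sort n
    have hk := hyper 17 4 _ _ _ _ _ _ _ _ chk17 (a := ext0 fun i => |n (σ i)|)
      (fun i => ext0_anti hσ (fun _ => abs_nonneg _) i) (ext0_end _) hτ ?_
    · rw [norm_sorted] at hk
      exact_mod_cast hk
    · intro i hi
      interval_cases i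
      · have hc := con_flat (σ := σ) h (K := 1) (by norm_num) (fun S hS => mem_union_left _ (mem_union_left _ (mem_pc S hS)))
        have hb := ratio_bound (Q := 10) (R := 10) hc hτ (by norm_num)
        simpa [ev] using hb
      · have hc := con_flat (σ := σ) h (K := 2) (by norm_num) (fun S hS => mem_union_left _ (mem_union_right _ (mem_pc S hS)))
        have hb := ratio_bound (Q := 10) (R := 15) hc hτ (by norm_num)
        simpa [ev] using hb
      · have hc := con_flat (σ := σ) h (K := 4) (by norm_num) (fun S hS => mem_union_right _ (mem_pc S hS))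
        have hb := ratio_bound (Q := 10) (R := 20) hc hτ (by norm_num)
        simpa [ev] using hb
      · have hc := con_even (σ := σ) h (by norm_num) (mem_pc univ (by simp))
        have hb := ratio_bound (Q := 10) (R := 42) (w := 17) hc hτ (by norm_num)
        simp only [Nat.reduceSub] at hb
        simp only [List.getD_cons_succ, List.getD_cons_zero, ev, List.map_cons, List.map_nil,
          List.sum_cons, List.sum_nil]
        push_cast at hb ⊢
        linarith

theorem chk18 : Chk 18 4 10 30000 63253 [10, 15, 20, 43]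
    [[(1, 1)], [(1, 2)], [(1, 4)], [(2, 17), (-1, 18)]]
    [[10, -10, -10, -10, -10, -10, -10, -10, -10, -10, -10, -10, -10, -10, -10, -10, -10, -10, -10], [15, -10, -20, -20, -20, -20, -20, -20, -20, -20, -20, -20, -20, -20, -20, -20, -20, -20, -20], [20, -10, -20, -30, -40, -40, -40, -40, -40, -40, -40, -40, -40, -40, -40, -40, -40, -40, -40], [43, -10, -20, -30, -40, -50, -60, -70, -80, -90, -100, -110, -120, -130, -140, -150, -160, -170, -160]]
    [[6106, -112, -2840, -4260, -5680, -7100, -8520, -9940, -11360, -12780, -14200, -11143, -12886, -10361, -10376, -10392, -13113, -13165, -10407], [0, 0, 0, 0, 0, 0, 0, 0, 0, 0, 759, 0, 0, 0, 0, 0, 0, 0, 0], [0, 3127, 4427, 4092, 3064, 3870, 4731, 5748, 7703, 3559, 4650, 1167, 3645, 0, 0, 0, 3882, 3935, 0], [51, 0, 0, 333, 1360, 1327, 1269, 1138, 570, 2840, 2410, 3596, 2860, 3980, 3996, 4011, 2850, 2849, 4026]]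
    [[0, 0, 0, 142], [0, 0, 0, 0], [0, 0, 0, 0], [0, 0, 0, 0]] := by
  decide +kernel

/-- supports, all signs -/
def A18 : Finset (Finset (Fin 18)) :=
  (powersetCard 1 univ) ∪ (powersetCard 2 univ) ∪ (powersetCard 4 univ)

/-- supports, even number of minus signs -/
def B18 : Finset (Finset (Fin 18)) :=
  powersetCard 18 univ

lemma cardA18 : ∑ S ∈ A18, 2 ^ S.card ≤ 49608 := by
  unfold A18
  refine (sum_union_le' _ _ _).trans ?_
  refine (Nat.add_le_add_right (sum_union_le' _ _ _) _).trans ?_
  rw [pc_sum, pc_sum, pc_sum]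
  decide +kernel

lemma cardB18 : ∑ S ∈ B18, 2 ^ (S.card - 1) ≤ 131072 := by
  unfold B18
  rw [pc_sum']
  decide +kernel

theorem code18 : Code (EuclideanSpace ℝ (Fin 18)) (2 ^ 18) 18 := by
  refine code_of (s := orb A18 B18) ?_ 30000 63253 (by norm_num) ?_
  · refine (orb_card _ _ ?_).trans ((Nat.add_le_add cardA18 cardB18).trans (by norm_num))
    intro S hS
    rw [← card_pos]
    have := (mem_powersetCard.1 hS).2
    omega
  · intro n τ hτ h
    obtain ⟨σ, hσ⟩ := exists_sort n
    have hk := hyper 18 4 _ _ _ _ _ _ _ _ chk18 (a := ext0 fun i => |n (σ i)|)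
      (fun i => ext0_anti hσ (fun _ => abs_nonneg _) i) (ext0_end _) hτ ?_
    · rw [norm_sorted] at hk
      exact_mod_cast hk
    · intro i hi
      interval_cases i
      · have hc := con_flat (σ := σ) h (K := 1) (by norm_num) (fun S hS => mem_union_left _ (mem_union_left _ (mem_pc S hS)))
        have hb := ratio_bound (Q := 10) (R := 10) hc hτ (by norm_num)
        simpa [ev] using hb
      · have hc := con_flat (σ := σ) h (K := 2) (by norm_num) (fun S hS => mem_union_left _ (mem_union_right _ (mem_pc S hS)))
        have hb := ratio_bound (Q := 10) (R := 15) hc hτ (by norm_num)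
        simpa [ev] using hb
      · have hc := con_flat (σ := σ) h (K := 4) (by norm_num) (fun S hS => mem_union_right _ (mem_pc S hS))
        have hb := ratio_bound (Q := 10) (R := 20) hc hτ (by norm_num)
        simpa [ev] using hb
      · have hc := con_even (σ := σ) h (by norm_num) (mem_pc univ (by simp))
        have hb := ratio_bound (Q := 10) (R := 43) (w := 18) hc hτ (by norm_num)
        simp only [Nat.reduceSub] at hb
        simp only [List.getD_cons_succ, List.getD_cons_zero, ev, List.map_cons, List.map_nil,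
          List.sum_cons, List.sum_nil]
        push_cast at hb ⊢
        linarith

end Pool.Agent.K3h76.SD
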