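import Pool.Agent.K3h76.SD.Cap
import Pool.Agent.K3h76.SD.Small

set_option autoImplicit false

/-!
Sphere codes from counting.
-/

namespace Pool.Agent.K3h76.SD

open scoped RealInnerProductSpace
open MeasureTheory Module Metric Set

section Net

open scoped ENNReal Function

theorem packing {E : Type*} [NormedAddCommGroup E] [NormedSpace ℝ E] [FiniteDimensional ℝ E]
    (s : Finset E) (R δ : ℝ) (hR : 0 < R) (hδ : 0 < δ) (h1 : ∀ c ∈ s, ‖c‖ ≤ R)
    (h2 : ∀ c ∈ s, ∀ c' ∈ s, c ≠ c' → δ ≤ ‖c - c'‖) :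
    (s.card : ℝ) ≤ (1 + 2 * R / δ) ^ (Module.finrank ℝ E) := by
  borelize E
  let μ : Measure E := Measure.addHaar
  have hδ2 : 0 < δ / 2 := by positivity
  have ρpos : 0 < R + δ / 2 := by positivity
  set A := ⋃ c ∈ s, ball (c : E) (δ / 2) with hA
  have D : Set.Pairwise (s : Set E) (Disjoint on fun c => ball (c : E) (δ / 2)) := by
    rintro c hc d hd hcd
    apply ball_disjoint_ball
    rw [dist_eq_norm]
    have := h2 c hc d hd hcd
    linarith
  have A_subset : A ⊆ ball (0 : E) (R + δ / 2) := by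
    refine iUnion₂_subset fun x hx => ?_
    apply ball_subset_ball'
    rw [dist_zero_right]
    have := h1 x hx
    linarith
  have I :
    (s.card : ℝ≥0∞) * ENNReal.ofReal ((δ / 2) ^ finrank ℝ E) * μ (ball 0 1) ≤
      ENNReal.ofReal ((R + δ / 2) ^ finrank ℝ E) * μ (ball 0 1) :=
    calc
      (s.card : ℝ≥0∞) * ENNReal.ofReal ((δ / 2) ^ finrank ℝ E) * μ (ball 0 1) = μ A := by
        rw [hA, measure_biUnion_finset D fun c _ => measurableSet_ball]
        simp only [μ.addHaar_ball_of_pos _ hδ2]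
        simp only [Finset.sum_const, nsmul_eq_mul, mul_assoc]
      _ ≤ μ (ball (0 : E) (R + δ / 2)) := measure_mono A_subset
      _ = ENNReal.ofReal ((R + δ / 2) ^ finrank ℝ E) * μ (ball 0 1) := by
        simp only [μ.addHaar_ball_of_pos _ ρpos]
  have J : (s.card : ℝ≥0∞) * ENNReal.ofReal ((δ / 2) ^ finrank ℝ E) ≤
      ENNReal.ofReal ((R + δ / 2) ^ finrank ℝ E) :=
    (ENNReal.mul_le_mul_iff_left (measure_ball_pos _ _ zero_lt_one).ne' measure_ball_lt_top.ne).1 I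
  have K : (s.card : ℝ) * (δ / 2) ^ finrank ℝ E ≤ (R + δ / 2) ^ finrank ℝ E := by
    have := ENNReal.toReal_le_of_le_ofReal (pow_nonneg ρpos.le _) J
    rwa [ENNReal.toReal_mul, ENNReal.toReal_natCast,
      ENNReal.toReal_ofReal (pow_nonneg hδ2.le _)] at this
  have h3 : (1 + 2 * R / δ) ^ finrank ℝ E * (δ / 2) ^ finrank ℝ E =
      (R + δ / 2) ^ finrank ℝ E := by
    rw [← mul_pow]
    congr 1
    field_simp
    ring
  rw [← h3] at K
  exact le_of_mul_le_mul_right K (pow_pos hδ2 _)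

/-- A net of the unit sphere. -/
theorem net_sphere {E : Type*} [NormedAddCommGroup E] [NormedSpace ℝ E] [FiniteDimensional ℝ E]
    (δ : ℝ) (hδ : 0 < δ) :
    ∃ s : Finset E, (s.card : ℝ) ≤ (1 + 2 / δ) ^ (Module.finrank ℝ E) ∧ (∀ c ∈ s, ‖c‖ = 1) ∧
      ∀ x : E, ‖x‖ = 1 → ∃ c ∈ s, ‖x - c‖ ≤ δ := by
  classical
  have hpack : ∀ s : Finset E, (∀ c ∈ s, ‖c‖ = 1) →
      (∀ c ∈ s, ∀ c' ∈ s, c ≠ c' → δ ≤ ‖c - c'‖) →
      (s.card : ℝ) ≤ (1 + 2 / δ) ^ (Module.finrank ℝ E) := by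
    intro s h1 h2
    have := packing s 1 δ one_pos hδ (fun c hc => (h1 c hc).le) h2
    rwa [mul_one] at this
  set P : ℕ → Prop := fun n => ∃ s : Finset E, s.card = n ∧ (∀ c ∈ s, ‖c‖ = 1) ∧
    (∀ c ∈ s, ∀ c' ∈ s, c ≠ c' → δ ≤ ‖c - c'‖) with hP
  obtain ⟨K, hK⟩ := exists_nat_ge ((1 + 2 / δ) ^ (Module.finrank ℝ E))
  have hbd : ∀ n, P n → n ≤ K := by
    rintro n ⟨s, rfl, h1, h2⟩
    exact_mod_cast (hpack s h1 h2).trans hK
  have h0 : P 0 := ⟨∅, by simp⟩
  obtain ⟨s, hs, h1, h2⟩ := Nat.findGreatest_spec (P := P) (Nat.zero_le K) h0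
  refine ⟨s, hpack s h1 h2, h1, ?_⟩
  intro x hx
  by_contra hcon
  push Not at hcon
  have hxs : x ∉ s := by
    intro h
    have := hcon x h
    rw [sub_self, norm_zero] at this
    linarith
  have h3 : P (s.card + 1) := by
    refine ⟨insert x s, Finset.card_insert_of_notMem hxs, ?_, ?_⟩
    · intro c hc
      rcases Finset.mem_insert.1 hc with rfl | hc
      · exact hx
      · exact h1 c hc
    · intro c hc c' hc' hne
      rcases Finset.mem_insert.1 hc with rfl | hcs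
      · rcases Finset.mem_insert.1 hc' with rfl | hcs'
        · exact absurd rfl hne
        · exact (hcon c' hcs').le
      · rcases Finset.mem_insert.1 hc' with rfl | hcs'
        · rw [norm_sub_rev]
          exact (hcon c hcs).le
        · exact h2 c hcs c' hcs' hne
  have h4 := Nat.le_findGreatest (P := P) (hbd _ h3) h3
  omega

end Net

open Classical in
lemma heavy {n : ℕ} (hn : 1 ≤ n) (S : Finset (Fs n)) (hS : ∀ m ∈ S, ‖m‖ = 1) :
    ∃ y : Fs n, y ≠ 0 ∧ share n * S.card ≤ ((S.filter fun m => y ∈ cap n m).card : ℝ) := by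
  have hnt : Nontrivial (Fs n) := Module.nontrivial_of_finrank_pos (R := ℝ)
    (by rw [finrank_Fs]; omega)
  set B : Set (Fs n) := closedBall (0 : Fs n) 1 with hB
  have hB0 : volume B ≠ 0 := by
    rw [hB, ball_vol]
    simpa using kap_pos (n + 1)
  have hBt : volume B ≠ ⊤ := by
    rw [hB, ball_vol]
    exact ENNReal.ofReal_ne_top
  have hsing : volume ({0} : Set (Fs n)) = 0 := measure_singleton 0
  have hBd : volume (B \ {0}) = volume B := measure_sdiff_null hsing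
  have hcapB : ∀ m : Fs n, cap n m ⊆ B := fun m y hy => by simpa [hB] using hy.1
  set f : Fs n → ℝ := fun y => ∑ m ∈ S, (cap n m).indicator (fun _ => (1 : ℝ)) y with hf
  have hintm : ∀ m ∈ S, IntegrableOn ((cap n m).indicator (fun _ => (1 : ℝ))) (B \ {0})
      volume := by
    intro m _
    refine IntegrableOn.indicator ?_ (cap_closed n m).measurableSet
    exact integrableOn_const (by rw [hBd]; exact hBt) (by simp)
  have hint : IntegrableOn f (B \ {0}) volume := by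
    rw [hf]
    exact integrable_finsetSum S hintm
  obtain ⟨y, hy, hle⟩ := exists_setAverage_le (μ := volume) (s := B \ {0}) (f := f)
    (by rw [hBd]; exact hB0) (by rw [hBd]; exact hBt) hint
  refine ⟨y, fun h => hy.2 (by simp [h]), ?_⟩
  have hfy : f y = ((S.filter fun m => y ∈ cap n m).card : ℝ) := by
    rw [hf, Finset.card_filter]
    push_cast
    refine Finset.sum_congr rfl fun m _ => ?_
    by_cases h : y ∈ cap n m
    · rw [indicator_of_mem h, if_pos h]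
    · rw [indicator_of_notMem h, if_neg h]
  have hBr : 0 < volume.real (B \ {0}) := by
    rw [measureReal_def, hBd]
    exact ENNReal.toReal_pos hB0 hBt
  have hBr' : volume.real (B \ {0}) = volume.real B := by
    rw [measureReal_def, hBd, measureReal_def]
  have hav : share n * S.card ≤ ⨍ x in B \ {0}, f x := by
    rw [setAverage_eq, smul_eq_mul, ← div_eq_inv_mul, le_div_iff₀ hBr]
    have h1 : ∫ x in B \ {0}, f x = ∑ m ∈ S, volume.real (cap n m) := by
      rw [hf, integral_finsetSum S hintm]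
      refine Finset.sum_congr rfl fun m _ => ?_
      rw [setIntegral_indicator (cap_closed n m).measurableSet, setIntegral_const, smul_eq_mul,
        mul_one, measureReal_def, measureReal_def]
      congr 1
      have : (B \ {0}) ∩ cap n m = cap n m \ {0} := by
        ext z
        simp only [mem_inter_iff, mem_sdiff]
        exact ⟨fun h => ⟨h.2, h.1.2⟩, fun h => ⟨⟨hcapB m h.1, h.2⟩, h.1⟩⟩
      rw [this]
      exact measure_sdiff_null hsing
    rw [h1, hBr']
    calc share n * (S.card : ℝ) * volume.real B = ∑ m ∈ S, share n * volume.real B := by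
          rw [Finset.sum_const, nsmul_eq_mul]; ring
      _ ≤ ∑ m ∈ S, volume.real (cap n m) :=
          Finset.sum_le_sum fun m hm => cap_share n hn (hS m hm)
  linarith

open Classical in
lemma greedy {n : ℕ} (hn : 1 ≤ n) (S : Finset (Fs n)) (hS : ∀ m ∈ S, ‖m‖ = 1)
    (hp : share n ≤ 1) (k : ℕ) :
    ∃ T : Finset (Fs n), T.card ≤ k ∧ (∀ y ∈ T, y ≠ 0) ∧
      ((S.filter fun m => ∀ y ∈ T, y ∉ cap n m).card : ℝ) ≤ (1 - share n) ^ k * S.card := by
  induction k with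
  | zero => exact ⟨∅, by simp, by simp, by simp⟩
  | succ k ih =>
    obtain ⟨T, hT, hT0, hTc⟩ := ih
    set U := S.filter fun m => ∀ y ∈ T, y ∉ cap n m with hU
    obtain ⟨y, hy0, hy⟩ := heavy hn U (fun m hm => hS m (Finset.mem_filter.1 hm).1)
    refine ⟨insert y T, (Finset.card_insert_le _ _).trans (by omega), ?_, ?_⟩
    · intro z hz
      rcases Finset.mem_insert.1 hz with rfl | hz
      · exact hy0
      · exact hT0 z hz
    · have h1 : (S.filter fun m => ∀ z ∈ insert y T, z ∉ cap n m) =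
          U.filter fun m => y ∉ cap n m := by
        ext m
        simp only [hU, Finset.mem_filter, Finset.mem_insert, forall_eq_or_imp]
        tauto
      have h2 : ((U.filter fun m => y ∈ cap n m).card : ℝ) +
          ((U.filter fun m => y ∉ cap n m).card : ℝ) = U.card := by
        exact_mod_cast Finset.card_filter_add_card_filter_not (s := U) (fun m => y ∈ cap n m)
      rw [h1]
      have h3 : ((U.filter fun m => y ∉ cap n m).card : ℝ) ≤ (1 - share n) * U.card := by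
        linarith
      refine h3.trans ?_
      rw [pow_succ]
      have := mul_le_mul_of_nonneg_left hTc (show 0 ≤ 1 - share n by linarith)
      linarith

lemma share_le_one {n : ℕ} (hn : 1 ≤ n) : share n ≤ 1 := by
  classical
  obtain ⟨y, -, hy⟩ := heavy hn {e1 n} (by
    intro m hm
    rw [Finset.mem_singleton.1 hm, norm_e1])
  rw [Finset.card_singleton] at hy
  have h1 : ((({e1 n} : Finset (Fs n)).filter fun m => y ∈ cap n m).card : ℝ) ≤ 1 := by
    exact_mod_cast (Finset.card_filter_le _ _).trans (by simp)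
  have h2 : share n * ((1 : ℕ) : ℝ) = share n := by simp
  rw [h2] at hy
  refine hy.trans ?_
  convert h1

lemma share_sq (n : ℕ) : (share n * 2 ^ (n + 1)) ^ 2 = 2 ^ (n + 1) / (Real.pi * (n + 1)) := by
  unfold share
  have h1 : √(((n : ℝ) + 1) / (2 * Real.pi)) ^ 2 = ((n : ℝ) + 1) / (2 * Real.pi) :=
    Real.sq_sqrt (by positivity)
  have h2 : ((√2 / 2 : ℝ) ^ n) ^ 2 = (1 / 2) ^ n := by
    rw [← pow_mul, mul_comm n 2, pow_mul, div_pow, Real.sq_sqrt (by norm_num)]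
    norm_num
  have h3 : ((2 : ℝ) ^ (n + 1)) ^ 2 = 2 ^ (n + 1) * (2 ^ n * 2) := by
    rw [pow_two, pow_succ]
  rw [mul_pow, mul_pow, div_pow, h1, h2, h3]
  have hpi := Real.pi_ne_zero
  have hn : ((n : ℝ) + 1) ≠ 0 := by positivity
  have h4 : (1 / 2 : ℝ) ^ n * 2 ^ n = 1 := by
    rw [← mul_pow]; norm_num
  calc (1 / 2 : ℝ) ^ n / ((n : ℝ) + 1) ^ 2 * (((n : ℝ) + 1) / (2 * Real.pi)) *
      (2 ^ (n + 1) * (2 ^ n * 2))
      = ((1 / 2 : ℝ) ^ n * 2 ^ n) * (((n : ℝ) + 1) / ((n : ℝ) + 1) ^ 2 * (2 / (2 * Real.pi)) *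
        2 ^ (n + 1)) := by ring
    _ = 2 ^ (n + 1) / (Real.pi * (n + 1)) := by
        rw [h4]
        field_simp

lemma log_le {d : ℕ} : Real.log (6 * ((d : ℝ) + 1)) ≤ (76.792 + d) / 20 := by
  have h1 : (6 : ℝ) * ((d : ℝ) + 1) = 128 * (15 / 16) * (((d : ℝ) + 1) / 20) := by ring
  have hd : (0 : ℝ) < (d : ℝ) + 1 := by positivity
  rw [h1, Real.log_mul (by norm_num) (by positivity), Real.log_mul (by norm_num) (by norm_num)]
  have h2 : Real.log 128 = 7 * Real.log 2 := by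
    rw [show (128 : ℝ) = 2 ^ 7 by norm_num, Real.log_pow]
    norm_num
  have h3 : Real.log (15 / 16 : ℝ) ≤ 15 / 16 - 1 := Real.log_le_sub_one_of_pos (by norm_num)
  have h4 : Real.log (((d : ℝ) + 1) / 20) ≤ ((d : ℝ) + 1) / 20 - 1 :=
    Real.log_le_sub_one_of_pos (by positivity)
  have h5 := Real.log_two_lt_d9
  rw [h2]
  linarith

lemma poly_bound {d : ℕ} (hd : 19 ≤ d) :
    3.1416 * (d : ℝ) ^ 3 * ((76.792 + d) / 20) ^ 2 < 2 ^ d := by
  induction d, hd using Nat.le_induction with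
  | base => norm_num
  | succ d hd ih =>
    have hd' : (19 : ℝ) ≤ d := by exact_mod_cast hd
    have h1 : ((d : ℝ) + 1) ^ 3 ≤ ((20 / 19) * d) ^ 3 :=
      pow_le_pow_left₀ (by positivity) (by linarith) 3
    have h2 : ((76.792 + ((d : ℝ) + 1)) / 20) ^ 2 ≤ (1.02 * ((76.792 + d) / 20)) ^ 2 :=
      pow_le_pow_left₀ (by positivity) (by linarith) 2
    have h3 : ((d : ℝ) + 1) ^ 3 * ((76.792 + ((d : ℝ) + 1)) / 20) ^ 2 ≤
        ((20 / 19) * d) ^ 3 * (1.02 * ((76.792 + d) / 20)) ^ 2 :=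
      mul_le_mul h1 h2 (by positivity) (by positivity)
    have h4 : 0 ≤ (d : ℝ) ^ 3 * ((76.792 + d) / 20) ^ 2 := by positivity
    have h5 : ((20 / 19) * (d : ℝ)) ^ 3 * (1.02 * ((76.792 + d) / 20)) ^ 2 =
        ((20 / 19) ^ 3 * 1.02 ^ 2) * ((d : ℝ) ^ 3 * ((76.792 + d) / 20) ^ 2) := by ring
    have h6 : ((20 / 19 : ℝ) ^ 3 * 1.02 ^ 2) ≤ 2 := by norm_num
    have h7 := mul_le_mul_of_nonneg_right h6 h4
    have h8 : (2 : ℝ) ^ (d + 1) = 2 * 2 ^ d := by ring
    push_cast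
    rw [h8]
    rw [h5] at h3
    linarith

lemma num_bound {n : ℕ} (hn : 18 ≤ n) :
    (6 * (((n + 1 : ℕ) : ℝ) + 1)) ^ (n + 1) * (1 - share n) ^ (2 ^ (n + 1)) < 1 := by
  have hd : 19 ≤ n + 1 := by omega
  have h1 := poly_bound hd
  have h2 := log_le (d := n + 1)
  have hs := share_sq n
  have hs1 := share_le_one (by omega : 1 ≤ n)
  have hs0 : 0 ≤ share n := by unfold share; positivity
  set d : ℝ := ((n + 1 : ℕ) : ℝ) with hdd
  have hd1 : (19 : ℝ) ≤ d := by rw [hdd]; exact_mod_cast hd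
  have e1 : (n : ℝ) + 1 = d := by rw [hdd]; push_cast; ring
  rw [e1] at hs
  have hlog0 : 0 ≤ Real.log (6 * (d + 1)) := Real.log_nonneg (by linarith)
  have h3 : (d * Real.log (6 * (d + 1))) ^ 2 < (share n * 2 ^ (n + 1)) ^ 2 := by
    rw [hs, lt_div_iff₀ (by have := Real.pi_pos; positivity)]
    have h4 : Real.log (6 * (d + 1)) ^ 2 ≤ ((76.792 + d) / 20) ^ 2 := pow_le_pow_left₀ hlog0 h2 2
    have h5 : (d * Real.log (6 * (d + 1))) ^ 2 * (Real.pi * d) =
        Real.pi * (d ^ 3 * Real.log (6 * (d + 1)) ^ 2) := by ring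
    rw [h5]
    have hpi : Real.pi < 3.1416 := Real.pi_lt_d4
    have h6 : 0 ≤ d ^ 3 * Real.log (6 * (d + 1)) ^ 2 := by positivity
    have h7 : d ^ 3 * Real.log (6 * (d + 1)) ^ 2 ≤ d ^ 3 * ((76.792 + d) / 20) ^ 2 :=
      mul_le_mul_of_nonneg_left h4 (by positivity)
    have h8 : Real.pi * (d ^ 3 * Real.log (6 * (d + 1)) ^ 2) ≤
        3.1416 * (d ^ 3 * ((76.792 + d) / 20) ^ 2) :=
      mul_le_mul hpi.le h7 h6 (by norm_num)
    linarith
  have h4 : d * Real.log (6 * (d + 1)) < share n * 2 ^ (n + 1) :=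
    lt_of_pow_lt_pow_left₀ 2 (by positivity) h3
  have h5 : (1 - share n) ^ (2 ^ (n + 1)) ≤ Real.exp (-(share n * 2 ^ (n + 1))) := by
    have h6 : 1 - share n ≤ Real.exp (-share n) := by
      have := Real.add_one_le_exp (-share n)
      linarith
    refine (pow_le_pow_left₀ (by linarith) h6 _).trans (le_of_eq ?_)
    rw [← Real.exp_nat_mul]
    congr 1
    push_cast
    ring
  have h7 : (6 * (d + 1)) ^ (n + 1) = Real.exp (d * Real.log (6 * (d + 1))) := by
    rw [mul_comm, hdd, ← Real.log_pow, Real.exp_log]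
    positivity
  rw [h7]
  calc Real.exp (d * Real.log (6 * (d + 1))) * (1 - share n) ^ (2 ^ (n + 1))
      ≤ Real.exp (d * Real.log (6 * (d + 1))) * Real.exp (-(share n * 2 ^ (n + 1))) :=
        mul_le_mul_of_nonneg_left h5 (Real.exp_pos _).le
    _ < 1 := by
        rw [← Real.exp_add, Real.exp_lt_one_iff]
        linarith

/-- the codes in large dimensions -/
theorem code_large {n : ℕ} (hn : 18 ≤ n) : Code (Fs n) (2 ^ (n + 1)) (n + 1) := by
  classical
  set d : ℝ := ((n + 1 : ℕ) : ℝ) with hdd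
  have hd1 : (19 : ℝ) ≤ d := by
    rw [hdd]
    exact_mod_cast (by omega : 19 ≤ n + 1)
  have hs2 : √2 * √2 = (2 : ℝ) := sqrt2_sq
  have hs0 : 0 < √2 := by positivity
  have hδ : 0 < 1 / (2 * √2 * (d + 1)) := by positivity
  obtain ⟨S, hSc, hS1, hS⟩ := net_sphere (E := Fs n) _ hδ
  obtain ⟨T, hT, hT0, hTc⟩ := greedy (by omega : 1 ≤ n) S hS1 (share_le_one (by omega))
    (2 ^ (n + 1))
  have hSc' : (S.card : ℝ) ≤ (6 * (d + 1)) ^ (n + 1) := by
    rw [finrank_Fs] at hSc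
    refine hSc.trans (pow_le_pow_left₀ (by positivity) ?_ _)
    have : 2 / (1 / (2 * √2 * (d + 1))) = 4 * √2 * (d + 1) := by
      field_simp
      ring
    rw [this]
    have h1 : √2 ≤ 1.42 := by
      rw [Real.sqrt_le_left (by norm_num)]
      norm_num
    nlinarith
  have hs1 := share_le_one (by omega : 1 ≤ n)
  have hempty : (S.filter fun m => ∀ y ∈ T, y ∉ cap n m).card = 0 := by
    have h1 : ((S.filter fun m => ∀ y ∈ T, y ∉ cap n m).card : ℝ) < 1 := by
      have h2 : (1 - share n) ^ (2 ^ (n + 1)) * (S.card : ℝ) ≤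
          (1 - share n) ^ (2 ^ (n + 1)) * (6 * (d + 1)) ^ (n + 1) :=
        mul_le_mul_of_nonneg_left hSc' (pow_nonneg (by linarith) _)
      have h3 := num_bound hn
      rw [mul_comm] at h3
      calc _ ≤ _ := hTc
        _ ≤ _ := h2
        _ < 1 := h3
    have h4 : (S.filter fun m => ∀ y ∈ T, y ∉ cap n m).card < 1 := by exact_mod_cast h1
    omega
  refine ⟨T, hT, fun v hv => ?_⟩
  have hv0 : 0 < ‖v‖ := norm_pos_iff.2 hv
  obtain ⟨m, hmS, hm⟩ := hS ((‖v‖)⁻¹ • v)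
    (by rw [norm_smul, norm_inv, norm_norm, inv_mul_cancel₀ hv0.ne'])
  have hmf : m ∉ S.filter fun m => ∀ y ∈ T, y ∉ cap n m := by
    rw [Finset.card_eq_zero.1 hempty]
    simp
  have hex : ∃ y ∈ T, y ∈ cap n m := by
    by_contra hcon
    push Not at hcon
    exact hmf (Finset.mem_filter.2 ⟨hmS, hcon⟩)
  obtain ⟨y, hyT, hy⟩ := hex
  have hy0 : 0 < ‖y‖ := norm_pos_iff.2 (hT0 y hyT)
  have hy2 : ‖y‖ ≤ √2 * ⟪y, m⟫ := hy.2
  -- inner product with the unit vector
  set c : Fs n := (‖v‖)⁻¹ • v with hc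
  have h1 : |⟪y, c - m⟫| ≤ ‖y‖ * (1 / (2 * √2 * (d + 1))) :=
    (abs_real_inner_le_norm _ _).trans (mul_le_mul_of_nonneg_left hm hy0.le)
  have h2 : ⟪y, c⟫ = ⟪y, m⟫ + ⟪y, c - m⟫ := by rw [inner_sub_right]; ring
  have h3 : ‖y‖ * (1 - 1 / (2 * (d + 1))) ≤ √2 * ⟪y, c⟫ := by
    have h4 : √2 * (‖y‖ * (1 / (2 * √2 * (d + 1)))) = ‖y‖ * (1 / (2 * (d + 1))) := by
      field_simp
    have h5 := (abs_le.1 h1).1
    have h6 := mul_le_mul_of_nonneg_left h5 hs0.le
    have h7 : √2 * ⟪y, c⟫ = √2 * ⟪y, m⟫ + √2 * ⟪y, c - m⟫ := by rw [h2]; ring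
    have h8 : ‖y‖ * (1 - 1 / (2 * (d + 1))) = ‖y‖ - ‖y‖ * (1 / (2 * (d + 1))) := by ring
    rw [h7, h8]
    linarith
  have hq : 0 < 1 - 1 / (2 * (d + 1)) := by
    have : 1 / (2 * (d + 1)) < 1 := by
      rw [div_lt_one (by positivity)]
      linarith
    linarith
  have h4 : 0 < √2 * ⟪y, c⟫ := lt_of_lt_of_le (mul_pos hy0 hq) h3
  have hyc : 0 < ⟪y, c⟫ := by
    by_contra hcon
    push Not at hcon
    nlinarith
  have hv2 : ⟪y, v⟫ = ‖v‖ * ⟪y, c⟫ := by
    rw [hc, inner_smul_right, ← mul_assoc, mul_inv_cancel₀ hv0.ne', one_mul]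
  refine ⟨y, hyT, by rw [hv2]; exact mul_pos hv0 hyc, ?_⟩
  have h5 : (‖y‖ * (1 - 1 / (2 * (d + 1)))) ^ 2 ≤ (√2 * ⟪y, c⟫) ^ 2 :=
    pow_le_pow_left₀ (by positivity) h3 2
  have h6 : (√2 * ⟪y, c⟫) ^ 2 = 2 * ⟪y, c⟫ ^ 2 := by
    rw [mul_pow, pow_two √2, hs2]
  rw [h6, mul_pow] at h5
  have h7 : d < (d + 1) * (1 - 1 / (2 * (d + 1))) ^ 2 := by
    have : (d + 1) * (1 - 1 / (2 * (d + 1))) ^ 2 = d + 1 / (4 * (d + 1)) := by
      field_simp
      ring
    rw [this]
    have : 0 < 1 / (4 * (d + 1)) := by positivity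
    linarith
  rw [hv2, mul_pow]
  have h8 : d * ‖y‖ ^ 2 < 2 * (d + 1) * ⟪y, c⟫ ^ 2 := by
    have h9 : d * ‖y‖ ^ 2 < (d + 1) * (1 - 1 / (2 * (d + 1))) ^ 2 * ‖y‖ ^ 2 :=
      mul_lt_mul_of_pos_right h7 (by positivity)
    have h10 := mul_le_mul_of_nonneg_left h5 (show 0 ≤ d + 1 by linarith)
    linarith
  have h9 := mul_lt_mul_of_pos_right h8 (show 0 < ‖v‖ ^ 2 by positivity)
  linarith

end Pool.Agent.K3h76.SD
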