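import Mathlib

set_option autoImplicit false

/-!
Certificates for quadratic inequalities on polyhedral cones.
-/

namespace Pool.Agent.K3h76.SD

open Finset

lemma cert (n m : ℕ) (S W A : ℕ → ℕ → ℤ)
    (hchk : ∀ j < n, ∀ k < n,
      ∑ i ∈ range m, (S i j * W i k + S i k * W i j) ≤ A j k + A k j)
    (x : ℕ → ℝ) (hx : ∀ j < n, 0 ≤ x j)
    (hS : ∀ i < m, 0 ≤ ∑ j ∈ range n, (S i j : ℝ) * x j)
    (hW : ∀ i < m, 0 ≤ ∑ j ∈ range n, (W i j : ℝ) * x j) :
    0 ≤ ∑ j ∈ range n, ∑ k ∈ range n, (A j k : ℝ) * (x j * x k) := by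
  have h1 : 0 ≤ ∑ i ∈ range m, (∑ j ∈ range n, (S i j : ℝ) * x j) *
      (∑ k ∈ range n, (W i k : ℝ) * x k) :=
    sum_nonneg fun i hi => mul_nonneg (hS i (mem_range.1 hi)) (hW i (mem_range.1 hi))
  have h2 : ∑ i ∈ range m, (∑ j ∈ range n, (S i j : ℝ) * x j) *
      (∑ k ∈ range n, (W i k : ℝ) * x k) =
      ∑ j ∈ range n, ∑ k ∈ range n, (∑ i ∈ range m, (S i j : ℝ) * (W i k : ℝ)) * (x j * x k) := by
    simp_rw [sum_mul_sum, sum_mul]
    rw [sum_comm]
    refine sum_congr rfl fun j _ => ?_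
    rw [sum_comm]
    refine sum_congr rfl fun k _ => sum_congr rfl fun i _ => ?_
    ring
  have h3 : ∑ j ∈ range n, ∑ k ∈ range n, (∑ i ∈ range m, (S i j : ℝ) * (W i k : ℝ)) * (x j * x k) =
      ∑ j ∈ range n, ∑ k ∈ range n, (∑ i ∈ range m, (S i k : ℝ) * (W i j : ℝ)) * (x j * x k) := by
    rw [sum_comm]
    refine sum_congr rfl fun j _ => sum_congr rfl fun k _ => ?_
    rw [mul_comm (x k)]
  have h4 : ∑ j ∈ range n, ∑ k ∈ range n, (A j k : ℝ) * (x j * x k) =
      ∑ j ∈ range n, ∑ k ∈ range n, (A k j : ℝ) * (x j * x k) := by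
    rw [sum_comm]
    refine sum_congr rfl fun j _ => sum_congr rfl fun k _ => ?_
    rw [mul_comm (x k)]
  have h5 : ∑ j ∈ range n, ∑ k ∈ range n,
      ((∑ i ∈ range m, (S i j : ℝ) * (W i k : ℝ)) * (x j * x k) +
      (∑ i ∈ range m, (S i k : ℝ) * (W i j : ℝ)) * (x j * x k)) ≤
      ∑ j ∈ range n, ∑ k ∈ range n, ((A j k : ℝ) * (x j * x k) + (A k j : ℝ) * (x j * x k)) := by
    refine sum_le_sum fun j hj => sum_le_sum fun k hk => ?_
    rw [← add_mul, ← add_mul]
    refine mul_le_mul_of_nonneg_right ?_ (mul_nonneg (hx j (mem_range.1 hj)) (hx k (mem_range.1 hk)))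
    have := hchk j (mem_range.1 hj) k (mem_range.1 hk)
    rw [← sum_add_distrib]
    exact_mod_cast this
  simp_rw [sum_add_distrib] at h5
  rw [← h3, ← h4, ← h2] at h5
  linarith

/-- entry of a table of integers -/
def ent (M : List (List ℤ)) (i j : ℕ) : ℤ := (M.getD i []).getD j 0

/-- sum of the first terms -/
noncomputable def top (a : ℕ → ℝ) (K : ℕ) : ℝ := ∑ j ∈ range K, a j

lemma tail_eq {a : ℕ → ℝ} {d : ℕ} (ha : a d = 0) {K : ℕ} (hK : K ≤ d) :
    a K = ∑ k ∈ range d, if K ≤ k then a k - a (k + 1) else 0 := by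
  have key : ∀ e, K ≤ e → ∑ k ∈ range e, (if K ≤ k then a k - a (k + 1) else 0) = a K - a e := by
    intro e he
    induction e, he using Nat.le_induction with
    | base =>
      rw [sub_self]
      refine sum_eq_zero fun k hk => ?_
      rw [if_neg (by have := mem_range.1 hk; omega)]
    | succ e he ih =>
      rw [sum_range_succ, ih, if_pos he]
      ring
  rw [key d hK, ha, sub_zero]

lemma top_eq {a : ℕ → ℝ} {d : ℕ} (ha : a d = 0) {K : ℕ} (hK : K ≤ d) :
    top a K = ∑ k ∈ range d, ((min (k + 1) K : ℕ) : ℝ) * (a k - a (k + 1)) := by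
  induction K with
  | zero => simp [top]
  | succ K ih =>
    have h1 : top a (K + 1) = top a K + a K := by
      unfold top
      rw [sum_range_succ]
    rw [h1, ih (by omega), tail_eq ha (by omega : K ≤ d), ← sum_add_distrib]
    refine sum_congr rfl fun k _ => ?_
    split_ifs with h
    · have : min (k + 1) (K + 1) = min (k + 1) K + 1 := by omega
      rw [this]
      push_cast
      ring
    · have : min (k + 1) (K + 1) = min (k + 1) K := by omega
      rw [this, add_zero]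

lemma sq_eq {a : ℕ → ℝ} {d : ℕ} (ha : a d = 0) :
    ∑ j ∈ range d, a j ^ 2 = ∑ k ∈ range d, ∑ l ∈ range d,
      ((min k l + 1 : ℕ) : ℝ) * ((a k - a (k + 1)) * (a l - a (l + 1))) := by
  have h1 : ∑ j ∈ range d, a j ^ 2 = ∑ j ∈ range d, ∑ k ∈ range d,
      (if j ≤ k then a j * (a k - a (k + 1)) else 0) := by
    refine sum_congr rfl fun j hj => ?_
    have h2 := tail_eq ha (mem_range.1 hj).le
    calc a j ^ 2 = a j * ∑ k ∈ range d, (if j ≤ k then a k - a (k + 1) else 0) := by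
          rw [← h2]; ring
      _ = _ := by
          rw [mul_sum]
          refine sum_congr rfl fun k _ => ?_
          split_ifs <;> ring
  rw [h1, sum_comm]
  refine sum_congr rfl fun k hk => ?_
  have hkd := mem_range.1 hk
  have h3 : ∑ j ∈ range d, (if j ≤ k then a j * (a k - a (k + 1)) else 0) =
      top a (k + 1) * (a k - a (k + 1)) := by
    rw [top, sum_mul, ← sum_filter]
    refine sum_congr ?_ fun _ _ => rfl
    ext j
    rw [mem_filter, mem_range, mem_range]
    omega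
  rw [h3, top_eq ha (by omega : k + 1 ≤ d), sum_mul]
  refine sum_congr rfl fun l _ => ?_
  have : min (l + 1) (k + 1) = min k l + 1 := by omega
  rw [this]
  ring

/-- combination of sums of first terms -/
noncomputable def ev (a : ℕ → ℝ) (F : List (ℤ × ℕ)) : ℝ :=
  (F.map fun p => (p.1 : ℝ) * top a p.2).sum

/-- its coefficients -/
def cf (F : List (ℤ × ℕ)) (k : ℕ) : ℤ := (F.map fun p => p.1 * ((min (k + 1) p.2 : ℕ) : ℤ)).sum

lemma ev_eq {a : ℕ → ℝ} {d : ℕ} (ha : a d = 0) (F : List (ℤ × ℕ)) (hF : ∀ p ∈ F, p.2 ≤ d) :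
    ev a F = ∑ k ∈ range d, (cf F k : ℝ) * (a k - a (k + 1)) := by
  induction F with
  | nil => simp [ev, cf]
  | cons p F ih =>
    have h1 : ev a (p :: F) = (p.1 : ℝ) * top a p.2 + ev a F := by simp [ev]
    have h2 : ∀ k, cf (p :: F) k = p.1 * ((min (k + 1) p.2 : ℕ) : ℤ) + cf F k := by
      intro k; simp [cf]
    rw [h1, ih (fun q hq => hF q (List.mem_cons_of_mem _ hq)),
      top_eq ha (hF p List.mem_cons_self), mul_sum, ← sum_add_distrib]
    refine sum_congr rfl fun k _ => ?_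
    rw [h2]
    push_cast
    ring

/-- The table of the linear forms. -/
def tab (Q : ℤ) (R : List ℤ) (Fs : List (List (ℤ × ℕ))) (i j : ℕ) : ℤ :=
  if j = 0 then R.getD i 0 else -Q * cf (Fs.getD i []) (j - 1)

/-- The table of the quadratic form. -/
def quad (M B : ℤ) (j k : ℕ) : ℤ :=
  if j = 0 then (if k = 0 then B else 0) else
    (if k = 0 then 0 else -M * (((min (j - 1) (k - 1) : ℕ) : ℤ) + 1))

/-- The check of a certificate. -/
def Chk (d m : ℕ) (Q M B : ℤ) (R : List ℤ) (Fs : List (List (ℤ × ℕ))) (S W mu : List (List ℤ)) :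
    Prop :=
  (∀ i < m, ∀ p ∈ Fs.getD i [], p.2 ≤ d) ∧
  (∀ i < m, ∀ j < d + 1, ent S i j = tab Q R Fs i j) ∧
  (∀ i < m, ∀ l < m, 0 ≤ ent mu i l) ∧
  (∀ i < m, ∀ j < d + 1, ∑ l ∈ range m, ent mu i l * ent S l j ≤ ent W i j) ∧
  (∀ j < d + 1, ∀ k < d + 1,
    ∑ i ∈ range m, (ent S i j * ent W i k + ent S i k * ent W i j) ≤ quad M B j k + quad M B k j)

instance (d m : ℕ) (Q M B : ℤ) (R : List ℤ) (Fs : List (List (ℤ × ℕ))) (S W mu : List (List ℤ)) :
    Decidable (Chk d m Q M B R Fs S W mu) := by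
  unfold Chk
  infer_instance

theorem hyper (d m : ℕ) (Q M B : ℤ) (R : List ℤ) (Fs : List (List (ℤ × ℕ)))
    (S W mu : List (List ℤ)) (hchk : Chk d m Q M B R Fs S W mu)
    {a : ℕ → ℝ} (hanti : ∀ i, a (i + 1) ≤ a i) (ha : a d = 0) {τ : ℝ} (hτ : 0 ≤ τ)
    (hF : ∀ i < m, (Q : ℝ) * ev a (Fs.getD i []) ≤ (R.getD i 0 : ℤ) * τ) :
    M * ∑ j ∈ range d, a j ^ 2 ≤ B * τ ^ 2 := by
  obtain ⟨h0, h1, h2, h3, h4⟩ := hchk
  set x : ℕ → ℝ := fun j => if j = 0 then τ else a (j - 1) - a (j - 1 + 1) with hx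
  have hx0 : x 0 = τ := by simp [hx]
  have hxs : ∀ k, x (k + 1) = a k - a (k + 1) := by intro k; simp [hx]
  have hxn : ∀ j < d + 1, 0 ≤ x j := by
    intro j _
    rcases j with _ | k
    · rw [hx0]; exact hτ
    · rw [hxs]; linarith [hanti k]
  have hS : ∀ i < m, 0 ≤ ∑ j ∈ range (d + 1), (ent S i j : ℝ) * x j := by
    intro i hi
    rw [sum_range_succ']
    have e1 : ∀ k ∈ range d, (ent S i (k + 1) : ℝ) * x (k + 1) =
        (-(Q : ℝ)) * ((cf (Fs.getD i []) k : ℝ) * (a k - a (k + 1))) := by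
      intro k hk
      rw [h1 i hi (k + 1) (by have := mem_range.1 hk; omega), hxs]
      simp only [tab, Nat.add_sub_cancel, if_neg (Nat.succ_ne_zero k)]
      push_cast
      ring
    rw [sum_congr rfl e1, ← mul_sum, ← ev_eq ha _ (h0 i hi), h1 i hi 0 (by omega), hx0]
    simp only [tab, if_true]
    have := hF i hi
    linarith
  have hW : ∀ i < m, 0 ≤ ∑ j ∈ range (d + 1), (ent W i j : ℝ) * x j := by
    intro i hi
    have e1 : ∑ l ∈ range m, (ent mu i l : ℝ) * ∑ j ∈ range (d + 1), (ent S l j : ℝ) * x j ≤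
        ∑ j ∈ range (d + 1), (ent W i j : ℝ) * x j := by
      simp_rw [mul_sum]
      rw [sum_comm]
      refine sum_le_sum fun j hj => ?_
      have e2 := h3 i hi j (mem_range.1 hj)
      have e3 : ∑ l ∈ range m, (ent mu i l : ℝ) * ((ent S l j : ℝ) * x j) =
          (∑ l ∈ range m, (ent mu i l : ℝ) * (ent S l j : ℝ)) * x j := by
        rw [sum_mul]
        refine sum_congr rfl fun l _ => ?_
        ring
      rw [e3]
      refine mul_le_mul_of_nonneg_right ?_ (hxn j (mem_range.1 hj))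
      exact_mod_cast e2
    refine le_trans ?_ e1
    refine sum_nonneg fun l hl => mul_nonneg ?_ (hS l (mem_range.1 hl))
    exact_mod_cast h2 i hi l (mem_range.1 hl)
  have hfin := cert (d + 1) m (ent S) (ent W) (quad M B) h4 x hxn hS hW
  have e4 : ∑ j ∈ range (d + 1), ∑ k ∈ range (d + 1), (quad M B j k : ℝ) * (x j * x k) =
      B * τ ^ 2 - M * ∑ j ∈ range d, a j ^ 2 := by
    rw [sum_range_succ', sq_eq ha, mul_sum]
    have e5 : ∀ j ∈ range d, ∑ k ∈ range (d + 1), (quad M B (j + 1) k : ℝ) * (x (j + 1) * x k) =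
        -(M * ∑ l ∈ range d, ((min j l + 1 : ℕ) : ℝ) * ((a j - a (j + 1)) * (a l - a (l + 1)))) := by
      intro j _
      rw [sum_range_succ', mul_sum, ← sum_neg_distrib]
      have e6 : (quad M B (j + 1) 0 : ℝ) = 0 := by
        simp [quad]
      rw [e6, zero_mul, add_zero]
      refine sum_congr rfl fun l _ => ?_
      rw [hxs, hxs]
      simp only [quad, if_neg (Nat.succ_ne_zero _), Nat.add_sub_cancel]
      push_cast
      ring
    rw [sum_congr rfl e5, sum_neg_distrib]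
    have e7 : ∑ k ∈ range (d + 1), (quad M B 0 k : ℝ) * (x 0 * x k) = B * τ ^ 2 := by
      rw [sum_range_succ']
      have e8 : ∀ k ∈ range d, (quad M B 0 (k + 1) : ℝ) * (x 0 * x (k + 1)) = 0 := by
        intro k _
        simp [quad]
      rw [sum_congr rfl e8, sum_const_zero, zero_add, hx0]
      simp only [quad, if_true]
      ring
    rw [e7]
    ring
  rw [e4] at hfin
  linarith

end Pool.Agent.K3h76.SD
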