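import Pool.Agent.K3h76.SD.Basic

set_option autoImplicit false

/-!
Sphere codes made of vectors with coordinates `0, 1, -1`.
-/

namespace Pool.Agent.K3h76.SD

open scoped RealInnerProductSpace
open Module

variable {d : ℕ}

/-- the vector with support `S`, negative on `T` -/
noncomputable def vec (S T : Finset (Fin d)) : EuclideanSpace ℝ (Fin d) :=
  WithLp.toLp 2 (fun i => if i ∈ S then (if i ∈ T then -1 else 1) else 0)

lemma vec_norm (S T : Finset (Fin d)) : ‖vec S T‖ = √(S.card) := by
  rw [EuclideanSpace.norm_eq]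
  congr 1
  have : ∀ i, ‖vec S T i‖ ^ 2 = if i ∈ S then (1 : ℝ) else 0 := by
    intro i
    simp only [vec]
    split_ifs <;> simp
  rw [Finset.sum_congr rfl fun i _ => this i]
  simp

lemma vec_inner (S T : Finset (Fin d)) (n : EuclideanSpace ℝ (Fin d)) :
    ⟪vec S T, n⟫ = ∑ i ∈ S, (if i ∈ T then - n i else n i) := by
  rw [PiLp.inner_apply]
  have : ∀ i, ⟪vec S T i, n i⟫ = if i ∈ S then (if i ∈ T then - n i else n i) else 0 := by
    intro i
    simp only [vec]
    split_ifs <;> simp
  rw [Finset.sum_congr rfl fun i _ => this i]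
  simp

lemma vec_inner_neg (S : Finset (Fin d)) (n : EuclideanSpace ℝ (Fin d)) :
    ⟪vec S (S.filter fun i => n i < 0), n⟫ = ∑ i ∈ S, |n i| := by
  rw [vec_inner]
  refine Finset.sum_congr rfl fun i hi => ?_
  by_cases h : n i < 0
  · rw [if_pos (Finset.mem_filter.2 ⟨hi, h⟩), abs_of_neg h]
  · have h1 : i ∉ S.filter (fun i => n i < 0) := fun h' => h (Finset.mem_filter.1 h').2
    rw [if_neg h1, abs_of_nonneg (not_lt.1 h)]

/-- the code: all signs on the supports in `A`, an even number of minus signs on the supports in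
`B` -/
noncomputable def orb (A B : Finset (Finset (Fin d))) : Finset (EuclideanSpace ℝ (Fin d)) :=
  (A.sigma fun S => S.powerset).image (fun p => vec p.1 p.2) ∪
    (B.sigma fun S => S.powerset.filter fun T => Even T.card).image (fun p => vec p.1 p.2)

lemma card_even_le {α : Type*} [DecidableEq α] (S : Finset α) (hS : S.Nonempty) :
    (S.powerset.filter fun T => Even T.card).card ≤ 2 ^ (S.card - 1) := by
  obtain ⟨a, ha⟩ := hS
  have h1 : (S.erase a).powerset.card = 2 ^ (S.card - 1) := by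
    rw [Finset.card_powerset, Finset.card_erase_of_mem ha]
  rw [← h1]
  refine Finset.card_le_card_of_injOn (fun T => T.erase a) ?_ ?_
  · intro T hT
    have hT := Finset.mem_coe.1 hT
    rw [Finset.mem_filter, Finset.mem_powerset] at hT
    rw [Finset.mem_coe, Finset.mem_powerset]
    exact Finset.erase_subset_erase a hT.1
  · intro T hT T' hT' h
    have hT := (Finset.mem_filter.1 (Finset.mem_coe.1 hT)).2
    have hT' := (Finset.mem_filter.1 (Finset.mem_coe.1 hT')).2
    have h : T.erase a = T'.erase a := h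
    have key : ∀ U V : Finset α, Even U.card → Even V.card → U.erase a = V.erase a →
        a ∈ U → a ∈ V := by
      intro U V hU hV hUV haU
      by_contra haV
      have h1 := Finset.card_erase_of_mem haU
      have h3 : 0 < U.card := Finset.card_pos.2 ⟨a, haU⟩
      rw [hUV, Finset.erase_eq_of_notMem haV] at h1
      rw [h1] at hV
      obtain ⟨r, hr⟩ := hU
      obtain ⟨q, hq⟩ := hV
      omega
    ext b
    by_cases hb : b = a
    · subst hb
      exact ⟨key T T' hT hT' h, key T' T hT' hT h.symm⟩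
    · have := congrArg (fun X => b ∈ X) h
      simpa [hb] using this

lemma orb_card (A B : Finset (Finset (Fin d))) (hB : ∀ S ∈ B, S.Nonempty) :
    (orb A B).card ≤ ∑ S ∈ A, 2 ^ S.card + ∑ S ∈ B, 2 ^ (S.card - 1) := by
  refine (Finset.card_union_le _ _).trans (add_le_add ?_ ?_)
  · refine Finset.card_image_le.trans ?_
    rw [Finset.card_sigma]
    exact Finset.sum_le_sum fun S _ => by rw [Finset.card_powerset]
  · refine Finset.card_image_le.trans ?_
    rw [Finset.card_sigma]
    exact Finset.sum_le_sum fun S hS => card_even_le S (hB S hS)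

section

variable {A B : Finset (Finset (Fin d))} {n : EuclideanSpace ℝ (Fin d)} {τ : ℝ}

lemma orb_full (h : ∀ u ∈ orb A B, ⟪u, n⟫ ≤ ‖u‖ * τ) {S : Finset (Fin d)} (hS : S ∈ A) :
    ∑ i ∈ S, |n i| ≤ √(S.card) * τ := by
  have h1 := h (vec S (S.filter fun i => n i < 0)) (by
    refine Finset.mem_union_left _ (Finset.mem_image.2
      ⟨⟨S, S.filter fun i => n i < 0⟩, Finset.mem_sigma.2 ⟨hS, ?_⟩, rfl⟩)
    exact Finset.mem_powerset.2 (Finset.filter_subset _ _))
  rwa [vec_norm, vec_inner_neg] at h1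

lemma orb_par (h : ∀ u ∈ orb A B, ⟪u, n⟫ ≤ ‖u‖ * τ) {S : Finset (Fin d)} (hS : S ∈ B)
    (hev : Even (S.filter fun i => n i < 0).card) :
    ∑ i ∈ S, |n i| ≤ √(S.card) * τ := by
  have h1 := h (vec S (S.filter fun i => n i < 0)) (by
    refine Finset.mem_union_right _ (Finset.mem_image.2
      ⟨⟨S, S.filter fun i => n i < 0⟩, Finset.mem_sigma.2 ⟨hS, ?_⟩, rfl⟩)
    exact Finset.mem_filter.2 ⟨Finset.mem_powerset.2 (Finset.filter_subset _ _), hev⟩)
  rwa [vec_norm, vec_inner_neg] at h1

lemma orb_even (h : ∀ u ∈ orb A B, ⟪u, n⟫ ≤ ‖u‖ * τ) {S : Finset (Fin d)} (hS : S ∈ B)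
    {j : Fin d} (hj : j ∈ S) :
    ∑ i ∈ S, |n i| - 2 * |n j| ≤ √(S.card) * τ := by
  classical
  set T := S.filter fun i => n i < 0 with hT
  have hTS : T ⊆ S := Finset.filter_subset _ _
  rcases Nat.even_or_odd T.card with hev | hodd
  · have := orb_par h hS hev
    linarith [abs_nonneg (n j)]
  · -- flip the sign at `j`
    set T' : Finset (Fin d) := if j ∈ T then T.erase j else insert j T with hT'
    have hT'S : T' ⊆ S := by
      rw [hT']
      split_ifs
      · exact (Finset.erase_subset _ _).trans hTS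
      · exact Finset.insert_subset hj hTS
    have hev : Even T'.card := by
      rw [hT']
      split_ifs with hjT
      · rw [Finset.card_erase_of_mem hjT]
        obtain ⟨r, hr⟩ := hodd
        exact ⟨r, by omega⟩
      · rw [Finset.card_insert_of_notMem hjT]
        obtain ⟨r, hr⟩ := hodd
        exact ⟨r + 1, by omega⟩
    have h1 := h (vec S T') (by
      refine Finset.mem_union_right _ (Finset.mem_image.2
        ⟨⟨S, T'⟩, Finset.mem_sigma.2 ⟨hS, ?_⟩, rfl⟩)
      exact Finset.mem_filter.2 ⟨Finset.mem_powerset.2 hT'S, hev⟩)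
    rw [vec_norm, vec_inner] at h1
    have h2 : ∑ i ∈ S, (if i ∈ T' then - n i else n i) = ∑ i ∈ S, |n i| - 2 * |n j| := by
      rw [← Finset.add_sum_erase S _ hj, ← Finset.add_sum_erase S (fun i => |n i|) hj]
      have h3 : ∑ i ∈ S.erase j, (if i ∈ T' then - n i else n i) = ∑ i ∈ S.erase j, |n i| := by
        refine Finset.sum_congr rfl fun i hi => ?_
        have hij : i ≠ j := Finset.ne_of_mem_erase hi
        have hiS : i ∈ S := Finset.mem_of_mem_erase hi
        have hmem : i ∈ T' ↔ n i < 0 := by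
          rw [hT']
          split_ifs with hjT
          · rw [Finset.mem_erase, hT, Finset.mem_filter]
            exact ⟨fun h => h.2.2, fun h => ⟨hij, hiS, h⟩⟩
          · rw [Finset.mem_insert, hT, Finset.mem_filter]
            exact ⟨fun h => h.resolve_left hij |>.2, fun h => Or.inr ⟨hiS, h⟩⟩
        by_cases hn : n i < 0
        · rw [if_pos (hmem.2 hn), abs_of_neg hn]
        · rw [if_neg (fun h' => hn (hmem.1 h')), abs_of_nonneg (not_lt.1 hn)]
      have h4 : (if j ∈ T' then - n j else n j) = - |n j| := by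
        by_cases hjT : j ∈ T
        · have h5 : n j < 0 := (Finset.mem_filter.1 hjT).2
          have h6 : j ∉ T' := by
            rw [hT', if_pos hjT]
            simp
          rw [if_neg h6, abs_of_neg h5, neg_neg]
        · have h5 : ¬ n j < 0 := fun h => hjT (Finset.mem_filter.2 ⟨hj, h⟩)
          have h6 : j ∈ T' := by
            rw [hT', if_neg hjT]
            simp
          rw [if_pos h6, abs_of_nonneg (not_lt.1 h5)]
      rw [h3, h4]
      ring
    rw [h2] at h1
    exact h1

end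

/-- Criterion for a code. -/
lemma code_of {E : Type*} [NormedAddCommGroup E] [InnerProductSpace ℝ E] {d : ℕ}
    {s : Finset E} {N : ℕ} (hs : s.card ≤ N) (M B : ℕ) (hMB : B * d < M * (2 * (d + 1)))
    (key : ∀ (n : E) (τ : ℝ), 0 ≤ τ → (∀ u ∈ s, ⟪u, n⟫ ≤ ‖u‖ * τ) →
      M * ‖n‖ ^ 2 ≤ B * τ ^ 2) : Code E N d := by
  refine ⟨s, hs, fun n hn => ?_⟩
  by_contra hcon
  push Not at hcon
  have hn0 : 0 < ‖n‖ := norm_pos_iff.2 hn
  have hd0 : (0 : ℝ) ≤ d := Nat.cast_nonneg d
  have hτ2 : √((d : ℝ) / (2 * (d + 1))) ^ 2 = (d : ℝ) / (2 * (d + 1)) :=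
    Real.sq_sqrt (by positivity)
  have h1 := key n (√((d : ℝ) / (2 * (d + 1))) * ‖n‖) (by positivity) (by
    intro u hu
    by_cases h0 : 0 < ⟪u, n⟫
    · have h2 := hcon u hu h0
      refine le_of_sq_le_sq ?_ (by positivity)
      have h3 : (‖u‖ * (√((d : ℝ) / (2 * (d + 1))) * ‖n‖)) ^ 2 =
          (d * (‖u‖ ^ 2 * ‖n‖ ^ 2)) / (2 * (d + 1)) := by
        rw [mul_pow, mul_pow, hτ2]
        ring
      rw [h3, le_div_iff₀ (by positivity)]
      linarith
    · exact (not_lt.1 h0).trans (by positivity))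
  rw [mul_pow, hτ2] at h1
  have h4 : (M : ℝ) * (2 * (d + 1)) ≤ B * d := by
    have h5 : (B : ℝ) * (d / (2 * (d + 1)) * ‖n‖ ^ 2) = (B * d) * ‖n‖ ^ 2 / (2 * (d + 1)) := by
      ring
    rw [h5, le_div_iff₀ (by positivity)] at h1
    have h6 : 0 < ‖n‖ ^ 2 := by positivity
    have h7 : (M : ℝ) * (2 * (d + 1)) * ‖n‖ ^ 2 ≤ B * d * ‖n‖ ^ 2 := by linarith
    exact le_of_mul_le_mul_right h7 h6
  have h8 : (B : ℝ) * d < M * (2 * (d + 1)) := by exact_mod_cast hMB
  linarith

end Pool.Agent.K3h76.SD
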