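import Pool.Agent.K3h76.SD.Num
import Pool.Agent.K3h76.SD.Orb

set_option autoImplicit false

/-!
Sorting the absolute values of the coordinates, and the inequalities given by the orbits.
-/

namespace Pool.Agent.K3h76.SD

open scoped RealInnerProductSpace
open Finset

variable {d : ℕ}

/-- extension by zero -/
noncomputable def ext0 (g : Fin d → ℝ) (i : ℕ) : ℝ := if h : i < d then g ⟨i, h⟩ else 0

lemma ext0_val (g : Fin d → ℝ) (i : Fin d) : ext0 g i.val = g i := by
  simp [ext0]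

lemma ext0_end (g : Fin d → ℝ) : ext0 g d = 0 := by
  simp [ext0]

lemma ext0_anti {g : Fin d → ℝ} (hg : Antitone g) (h0 : ∀ i, 0 ≤ g i) (i : ℕ) :
    ext0 g (i + 1) ≤ ext0 g i := by
  unfold ext0
  split_ifs with h1 h2 h2
  · exact hg (by simp [Fin.le_def])
  · omega
  · exact h0 _
  · exact le_rfl

lemma top_ext0 (g : Fin d → ℝ) {K : ℕ} (hK : K ≤ d) :
    top (ext0 g) K = ∑ i ∈ univ.filter (fun i : Fin d => i.val < K), g i := by
  have h1 : range K = (univ.filter (fun i : Fin d => i.val < K)).map Fin.valEmbedding := by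
    ext j
    simp only [mem_range, mem_map, mem_filter, mem_univ, true_and, Fin.valEmbedding_apply]
    constructor
    · intro h
      exact ⟨⟨j, by omega⟩, h, rfl⟩
    · rintro ⟨i, hi, rfl⟩
      exact hi
  rw [top, h1, sum_map]
  refine sum_congr rfl fun i _ => ?_
  exact ext0_val g i

lemma sum_sq_ext0 (g : Fin d → ℝ) : ∑ j ∈ range d, ext0 g j ^ 2 = ∑ i, g i ^ 2 := by
  rw [Finset.sum_range]
  refine sum_congr rfl fun i _ => ?_
  rw [ext0_val]

/-- there is a permutation which sorts the absolute values -/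
lemma exists_sort (n : EuclideanSpace ℝ (Fin d)) : ∃ σ : Equiv.Perm (Fin d),
    Antitone (fun i => |n (σ i)|) := by
  refine ⟨Tuple.sort (fun i => -|n i|), ?_⟩
  have h := Tuple.monotone_sort (fun i => -|n i|)
  intro i j hij
  have := h hij
  simp only [Function.comp] at this
  linarith

section

variable {A B : Finset (Finset (Fin d))} {n : EuclideanSpace ℝ (Fin d)} {τ : ℝ}
  {σ : Equiv.Perm (Fin d)}

lemma norm_sorted (n : EuclideanSpace ℝ (Fin d)) (σ : Equiv.Perm (Fin d)) :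
    ∑ j ∈ range d, ext0 (fun i => |n (σ i)|) j ^ 2 = ‖n‖ ^ 2 := by
  rw [sum_sq_ext0, EuclideanSpace.real_norm_sq_eq]
  simp_rw [sq_abs]
  exact Equiv.sum_comp σ (fun i => n i ^ 2)

lemma top_sorted (n : EuclideanSpace ℝ (Fin d)) (σ : Equiv.Perm (Fin d)) {K : ℕ} (hK : K ≤ d) :
    ∃ S : Finset (Fin d), S.card = K ∧ top (ext0 (fun i => |n (σ i)|)) K = ∑ i ∈ S, |n i| ∧
      S = (univ.filter (fun i : Fin d => i.val < K)).map σ.toEmbedding := by
  refine ⟨_, ?_, ?_, rfl⟩
  · rw [card_map]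
    have h1 : (univ.filter (fun i : Fin d => i.val < K)).map Fin.valEmbedding = range K := by
      ext j
      simp only [mem_range, mem_map, mem_filter, mem_univ, true_and, Fin.valEmbedding_apply]
      constructor
      · rintro ⟨i, hi, rfl⟩
        exact hi
      · intro h
        exact ⟨⟨j, by omega⟩, h, rfl⟩
    rw [← card_map Fin.valEmbedding, h1, card_range]
  · rw [top_ext0 _ hK, sum_map]
    rfl

/-- all vectors with support of size `K` -/
lemma con_flat (h : ∀ u ∈ orb A B, ⟪u, n⟫ ≤ ‖u‖ * τ) {K : ℕ} (hK : K ≤ d)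
    (hA : ∀ S : Finset (Fin d), S.card = K → S ∈ A) :
    top (ext0 (fun i => |n (σ i)|)) K ≤ √K * τ := by
  obtain ⟨S, hS, hS2, -⟩ := top_sorted n σ hK
  rw [hS2]
  have := orb_full h (hA S hS)
  rwa [hS] at this

/-- even sign vectors of full support -/
lemma con_even (h : ∀ u ∈ orb A B, ⟪u, n⟫ ≤ ‖u‖ * τ) (hd : 1 ≤ d) (hB : univ ∈ B) :
    2 * top (ext0 (fun i => |n (σ i)|)) (d - 1) - top (ext0 (fun i => |n (σ i)|)) d ≤
      √d * τ := by
  have h1 := orb_even h hB (mem_univ (σ ⟨d - 1, by omega⟩))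
  rw [card_univ, Fintype.card_fin] at h1
  obtain ⟨S, hS, hS2, -⟩ := top_sorted n σ (le_refl d)
  have hSu : S = univ := by
    rw [← card_eq_iff_eq_univ, hS, Fintype.card_fin]
  rw [hSu] at hS2
  have h2 : top (ext0 (fun i => |n (σ i)|)) d = top (ext0 (fun i => |n (σ i)|)) (d - 1) +
      ext0 (fun i => |n (σ i)|) (d - 1) := by
    unfold top
    rw [← sum_range_succ, Nat.sub_add_cancel hd]
  have h3 : ext0 (fun i => |n (σ i)|) (d - 1) = |n (σ ⟨d - 1, by omega⟩)| := by
    have := ext0_val (fun i => |n (σ i)|) (⟨d - 1, by omega⟩ : Fin d)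
    simpa using this
  linarith

lemma ext_le (hσ : Antitone (fun i => |n (σ i)|)) {i j : ℕ} (hij : i ≤ j) (hj : j < d) :
    ext0 (fun i => |n (σ i)|) j ≤ ext0 (fun i => |n (σ i)|) i := by
  have h1 := ext0_val (fun i => |n (σ i)|) (⟨j, hj⟩ : Fin d)
  have h2 := ext0_val (fun i => |n (σ i)|) (⟨i, by omega⟩ : Fin d)
  simp only at h1 h2
  rw [h1, h2]
  exact hσ hij

/-- pairs inside two blocks -/
lemma con_pairs (h : ∀ u ∈ orb A B, ⟪u, n⟫ ≤ ‖u‖ * τ) (hσ : Antitone (fun i => |n (σ i)|))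
    (hd : 3 ≤ d) (p : Fin d → Bool) (hA : ∀ i j : Fin d, i ≠ j → p i = p j → {i, j} ∈ A) :
    top (ext0 (fun i => |n (σ i)|)) 3 - top (ext0 (fun i => |n (σ i)|)) 1 ≤ √2 * τ := by
  set a := ext0 (fun i => |n (σ i)|) with ha
  have hc : ∀ c : Fin 3 → Bool, ∃ i j : Fin 3, i < j ∧ c i = c j := by decide
  obtain ⟨i, j, hij, hpij⟩ := hc (fun i => p (σ ⟨i.val, by omega⟩))
  have hne : σ ⟨i.val, by omega⟩ ≠ σ ⟨j.val, by omega⟩ := by
    intro h'
    have := σ.injective h'
    rw [Fin.mk.injEq] at this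
    have := Fin.lt_def.1 hij
    omega
  have h1 := orb_full h (hA _ _ hne hpij)
  rw [card_pair hne, sum_pair hne] at h1
  have h2 : a i.val = |n (σ ⟨i.val, by omega⟩)| := by
    have := ext0_val (fun i => |n (σ i)|) (⟨i.val, by omega⟩ : Fin d)
    simpa using this
  have h3 : a j.val = |n (σ ⟨j.val, by omega⟩)| := by
    have := ext0_val (fun i => |n (σ i)|) (⟨j.val, by omega⟩ : Fin d)
    simpa using this
  have h4 : a 1 ≤ a i.val := ext_le hσ (by have := Fin.lt_def.1 hij; omega) (by omega)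
  have h5 : a 2 ≤ a j.val := ext_le hσ (by omega) (by omega)
  have h6 : top a 3 - top a 1 = a 1 + a 2 := by
    simp only [top, sum_range_succ, range_zero, sum_empty]
    ring
  rw [h6]
  push_cast at h1
  linarith

/-- triples inside two blocks -/
lemma con_triples (h : ∀ u ∈ orb A B, ⟪u, n⟫ ≤ ‖u‖ * τ) (hσ : Antitone (fun i => |n (σ i)|))
    (hd : 5 ≤ d) (p : Fin d → Bool)
    (hA : ∀ i j k : Fin d, i ≠ j → i ≠ k → j ≠ k → p i = p j → p j = p k → {i, j, k} ∈ A) :
    top (ext0 (fun i => |n (σ i)|)) 5 - top (ext0 (fun i => |n (σ i)|)) 2 ≤ √3 * τ := by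
  set a := ext0 (fun i => |n (σ i)|) with ha
  have hc : ∀ c : Fin 5 → Bool, ∃ i j k : Fin 5, i < j ∧ j < k ∧ c i = c j ∧ c j = c k := by
    decide
  obtain ⟨i, j, k, hij, hjk, hpij, hpjk⟩ := hc (fun i => p (σ ⟨i.val, by omega⟩))
  have hij' := Fin.lt_def.1 hij
  have hjk' := Fin.lt_def.1 hjk
  have hne : ∀ x y : Fin 5, x.val < y.val → σ ⟨x.val, by omega⟩ ≠ σ ⟨y.val, by omega⟩ := by
    intro x y hxy h'
    have := σ.injective h'
    rw [Fin.mk.injEq] at this
    omega
  have hn1 := hne i j hij'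
  have hn2 := hne i k (by omega)
  have hn3 := hne j k hjk'
  have h1 := orb_full h (hA _ _ _ hn1 hn2 hn3 hpij hpjk)
  have hcard : ({σ ⟨i.val, by omega⟩, σ ⟨j.val, by omega⟩, σ ⟨k.val, by omega⟩} :
      Finset (Fin d)).card = 3 := by
    rw [card_eq_three]
    exact ⟨_, _, _, hn1, hn2, hn3, rfl⟩
  rw [hcard] at h1
  rw [sum_insert (by simp [hn1, hn2]), sum_pair hn3] at h1
  have h2 : ∀ x : Fin 5, a x.val = |n (σ ⟨x.val, by omega⟩)| := by
    intro x
    have := ext0_val (fun i => |n (σ i)|) (⟨x.val, by omega⟩ : Fin d)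
    simpa using this
  have h4 : a 2 ≤ a i.val := ext_le hσ (by omega) (by omega)
  have h5 : a 3 ≤ a j.val := ext_le hσ (by omega) (by omega)
  have h6 : a 4 ≤ a k.val := ext_le hσ (by omega) (by omega)
  have h7 : top a 5 - top a 2 = a 2 + a 3 + a 4 := by
    simp only [top, sum_range_succ, range_zero, sum_empty]
    ring
  rw [h7]
  rw [← h2 i, ← h2 j, ← h2 k] at h1
  push_cast at h1
  linarith

/-- even sign vectors with supports of size four -/
lemma con_four (h : ∀ u ∈ orb A B, ⟪u, n⟫ ≤ ‖u‖ * τ) (hσ : Antitone (fun i => |n (σ i)|))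
    (hd : 5 ≤ d) (hB : ∀ S : Finset (Fin d), S.card = 4 → S ∈ B) :
    top (ext0 (fun i => |n (σ i)|)) 5 - top (ext0 (fun i => |n (σ i)|)) 1 ≤ 2 * τ := by
  classical
  set a := ext0 (fun i => |n (σ i)|) with ha
  obtain ⟨S, hS, hS2, hS3⟩ := top_sorted n σ hd
  -- an element whose removal leaves an even number of negative coordinates
  obtain ⟨j, hj, hev⟩ : ∃ j ∈ S, Even ((S.erase j).filter fun i => n i < 0).card := by
    rcases Nat.even_or_odd (S.filter fun i => n i < 0).card with he | ho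
    · have hex : ∃ j ∈ S, ¬ n j < 0 := by
        by_contra hcon
        push Not at hcon
        rw [filter_true_of_mem hcon, hS] at he
        revert he
        decide
      obtain ⟨j, hj, hjn⟩ := hex
      refine ⟨j, hj, ?_⟩
      rw [filter_erase, erase_eq_of_notMem (by simp [hjn])]
      exact he
    · have hex : (S.filter fun i => n i < 0).Nonempty := by
        rw [nonempty_iff_ne_empty]
        intro h0
        rw [h0] at ho
        simp at ho
      obtain ⟨j, hj⟩ := hex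
      refine ⟨j, (mem_filter.1 hj).1, ?_⟩
      rw [filter_erase, card_erase_of_mem hj]
      obtain ⟨r, hr⟩ := ho
      exact ⟨r, by omega⟩
  have hcard : (S.erase j).card = 4 := by
    rw [card_erase_of_mem hj, hS]
  have h1 := orb_par h (hB _ hcard) hev
  rw [hcard] at h1
  have h4 : √((4 : ℕ) : ℝ) = 2 := by
    rw [show ((4 : ℕ) : ℝ) = 2 ^ 2 by norm_num, Real.sqrt_sq (by norm_num)]
  rw [h4] at h1
  have h5 : |n j| + ∑ i ∈ S.erase j, |n i| = ∑ i ∈ S, |n i| :=
    add_sum_erase S (fun i => |n i|) hj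
  have h6 : |n j| ≤ a 0 := by
    rw [hS3, mem_map] at hj
    obtain ⟨i, -, hi⟩ := hj
    rw [← hi]
    have h7 := ext0_val (fun i => |n (σ i)|) i
    have h8 := ext_le hσ (Nat.zero_le i.val) i.isLt
    rw [h7] at h8
    exact h8
  have h9 : top a 1 = a 0 := by simp [top]
  rw [h9, hS2]
  linarith

end

lemma ratio_bound {Q R w : ℕ} {X τ : ℝ} (hX : X ≤ √w * τ) (hτ : 0 ≤ τ) (hQR : Q ^ 2 * w ≤ R ^ 2) :
    (Q : ℝ) * X ≤ R * τ := by
  have h1 : (Q : ℝ) * √w ≤ R := by
    refine le_of_sq_le_sq ?_ (Nat.cast_nonneg R)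
    rw [mul_pow, Real.sq_sqrt (Nat.cast_nonneg w)]
    exact_mod_cast hQR
  have h2 := mul_le_mul_of_nonneg_left hX (Nat.cast_nonneg (α := ℝ) Q)
  have h3 := mul_le_mul_of_nonneg_right h1 hτ
  linarith

lemma sum_union_le' {α : Type*} [DecidableEq α] (s t : Finset α) (f : α → ℕ) :
    ∑ x ∈ s ∪ t, f x ≤ ∑ x ∈ s, f x + ∑ x ∈ t, f x := by
  have := sum_union_inter (s₁ := s) (s₂ := t) (f := f)
  omega

lemma pc_sum (U : Finset (Fin d)) (K : ℕ) :
    ∑ S ∈ powersetCard K U, 2 ^ S.card = U.card.choose K * 2 ^ K := by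
  rw [sum_congr rfl (fun S hS => by rw [(mem_powersetCard.1 hS).2]), sum_const, card_powersetCard,
    smul_eq_mul]

lemma pc_sum' (U : Finset (Fin d)) (K : ℕ) :
    ∑ S ∈ powersetCard K U, 2 ^ (S.card - 1) = U.card.choose K * 2 ^ (K - 1) := by
  rw [sum_congr rfl (fun S hS => by rw [(mem_powersetCard.1 hS).2]), sum_const, card_powersetCard,
    smul_eq_mul]

lemma mem_pc {K : ℕ} (S : Finset (Fin d)) (hS : S.card = K) : S ∈ powersetCard K univ :=
  mem_powersetCard.2 ⟨subset_univ _, hS⟩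

end Pool.Agent.K3h76.SD
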